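import Pool.Agent.H911.KR.Lang
import Pool.Agent.H911.EM.Int2

/-!
Entire curves and integral points in affine varieties `V(S) ∖ V(X_0)` over a number field, and finite
birational projections which preserve the hyperplane at infinity.
-/

set_option autoImplicit false

namespace Pool.Agent.H911.KR

open MvPolynomial NumberField IsDedekindDomain
open scoped LinearAlgebra.Projectivization
open Pool.Agent.N254.SQ (reduce)
open Pool.Agent.W602.GT (coords)
open Pool.Agent.N254.SQ (powerFormOver)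
open Pool.Agent.H911.QD (emb ext_apply)
open Pool.Agent.H911.GD (exists_quot)
open Pool.Agent.H911.EM (rep_iff nst exists_denom int_inj hom_denom ez_eq int_le poly_le SmallVal
  span_lt finite_bad)

section curves

variable {𝕜 : Type} [Field 𝕜]

/-- `G` vanishes on all nonconstant entire curves in the affine variety `V(S) ∖ V(X_0)` -/
def OnAff [Algebra 𝕜 ℂ] {n : ℕ} (S : Set (MvPolynomial (Fin (n + 1)) 𝕜))
    (G : MvPolynomial (Fin (n + 1)) 𝕜) : Prop :=
  ∀ f : ℂ → Fin (n + 1) → ℂ, Differentiable ℂ f → (∀ z, f z 0 ≠ 0) →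
    (∀ z, ∀ p ∈ S, aeval (f z) p = 0) →
    (∀ z w, ∃ c : ℂ, f w = c • f z) ∨ ∀ z, aeval (f z) G = 0

theorem OnCurves.aff [Algebra 𝕜 ℂ] {n : ℕ} {S : Set (MvPolynomial (Fin (n + 1)) 𝕜)}
    {G : MvPolynomial (Fin (n + 1)) 𝕜} (h : OnCurves S G) : OnAff S G :=
  fun f hf hf0 hfS => h f hf (fun z h0 => hf0 z (by rw [h0]; rfl)) hfS

theorem typ_aff [Algebra 𝕜 ℂ] : Typ (𝕜 := 𝕜) (fun _ S G => OnAff S G) where
  idl := fun n S =>
    ⟨fun f _ _ _ => Or.inr fun z => map_zero _,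
     fun e G G' _ _ h h' f hf h0 hS => by
      rcases h f hf h0 hS with h1 | h1
      · exact Or.inl h1
      rcases h' f hf h0 hS with h2 | h2
      · exact Or.inl h2
      exact Or.inr fun z => by rw [map_add, h1 z, h2 z, add_zero],
     fun G F _ _ h f hf h0 hS => by
      rcases h f hf h0 hS with h1 | h1
      · exact Or.inl h1
      exact Or.inr fun z => by rw [map_mul, h1 z, zero_mul],
     fun G r _ h f hf h0 hS => by
      rcases h f hf h0 hS with h1 | h1
      · exact Or.inl h1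
      refine Or.inr fun z => ?_
      have h2 := h1 z
      rw [map_pow] at h2
      exact Pool.Agent.N254.SQ.qc_pow h2⟩
  van := fun n S G _ h f hf hf0 hfS => Or.inr fun z => h ℂ (f z) (hfS z)
  restr := fun n S L _ _ y G H _ _ hF hG => by
    intro f hf hf0 hfS
    by_cases hcon : ∀ z w, ∃ c : ℂ, f w = c • f z
    · exact Or.inl hcon
    right
    by_cases hH0 : ∀ z, aeval (f z) H = 0
    · intro z
      rw [map_mul, hH0 z, mul_zero]
    have hE : ∀ z, ∀ p ∈ Eqs 𝕜 y, aeval (f z) p = 0 := by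
      intro z p hp
      have h1 := (hF p hp.1 hp.2 f hf hf0 hfS).resolve_left hcon
      have ha : AnalyticOnNhd ℂ (fun z => aeval (f z) p) Set.univ :=
        (diff_ev p hf).differentiableOn.analyticOnNhd isOpen_univ
      have hb : AnalyticOnNhd ℂ (fun z => aeval (f z) H) Set.univ :=
        (diff_ev H hf).differentiableOn.analyticOnNhd isOpen_univ
      rcases ha.eq_zero_or_eq_zero_of_mul_eq_zero hb (fun z _ => by
          have := h1 z
          rwa [map_mul] at this) isPreconnected_univ with h2 | h2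
      · exact h2 z (Set.mem_univ z)
      · exact absurd (fun z => h2 z (Set.mem_univ z)) hH0
    intro z
    have h3 := (hG f hf hf0 hE).resolve_left hcon
    rw [map_mul, h3 z, zero_mul]
  mono := fun n S S' h G hG f hf hf0 hfS => hG f hf hf0 fun z => h ℂ (f z) (hfS z)
  coord := fun n S G _ h f hf hf0 hfS => by
    by_cases hcon : ∀ z w, ∃ c : ℂ, f w = c • f z
    · exact Or.inl hcon
    right
    intro z
    have h1 := ((h 0 f hf hf0 hfS).resolve_left hcon) z
    rw [map_mul, aeval_X] at h1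
    exact (mul_eq_zero.1 h1).resolve_right (hf0 z)

theorem aff_away [Algebra 𝕜 ℂ] {n : ℕ} {S : Set (MvPolynomial (Fin (n + 1)) 𝕜)}
    {H : MvPolynomial (Fin (n + 1)) 𝕜} (h : OnAff S (X 0 * H)) : OnAff S H := by
  intro f hf hf0 hfS
  rcases h f hf hf0 hfS with h1 | h1
  · exact Or.inl h1
  · right
    intro z
    have h2 := h1 z
    rw [map_mul, aeval_X] at h2
    exact (mul_eq_zero.1 h2).resolve_left (hf0 z)

variable [CharZero 𝕜] [Algebra 𝕜 ℂ] {n N : ℕ} {L : Type} [Field L] [Algebra 𝕜 L]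
  {y : Fin (n + 1) → L}
  {z : Fin (N + 1) → L} {A : Fin (N + 1) → MvPolynomial (Fin (n + 1)) 𝕜}
  {R : Fin (n + 1) → MvPolynomial (Fin (N + 1)) 𝕜} {H : MvPolynomial (Fin (N + 1)) 𝕜}
  (hP : Pair y z A R H) (hA0 : A 0 = X 0)
include hP hA0

theorem aff_pull {G : MvPolynomial (Fin (N + 1)) 𝕜} (hG : OnAff (Eqs 𝕜 z) G) :
    OnAff (Eqs 𝕜 y) (bind₁ A (G * H)) := by
  obtain ⟨r, hH, hR⟩ := hP.homR
  intro f hf hf0 hfS
  have hbe : ∀ w (Q : MvPolynomial (Fin (N + 1)) 𝕜),
      aeval (f w) (bind₁ A Q) = aeval (fun i => aeval (f w) (A i)) Q :=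
    fun w Q => bind_eval (Ω := ℂ) A (f w) Q
  have hRA : ∀ w j, aeval (fun i => aeval (f w) (A i)) (R j) =
      aeval (fun i => aeval (f w) (A i)) H * f w j := fun w j => hP.RA (Ω := ℂ) (hfS w) j
  have hg00 : ∀ w, aeval (f w) (A 0) ≠ 0 := by
    intro w
    rw [hA0, aeval_X]
    exact hf0 w
  have hg0 : ∀ w, (fun i => aeval (f w) (A i)) ≠ 0 := fun w h => hg00 w (congrFun h 0)
  rcases hG (fun w i => aeval (f w) (A i)) (diff_map A hf) hg00
    (fun w => hP.mapA (Ω := ℂ) (hfS w)) with h1 | h1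
  · by_cases hH0 : ∃ z0, aeval (fun i => aeval (f z0) (A i)) H ≠ 0
    · left
      obtain ⟨z0, hz0⟩ := hH0
      have key : ∀ w, ∃ c : ℂ, c ≠ 0 ∧ f w = c • f z0 := by
        intro w
        obtain ⟨c, hc⟩ := h1 z0 w
        have hc0 : c ≠ 0 := by
          rintro rfl
          exact hg0 w (by rw [hc, zero_smul])
        refine ⟨c, hc0, ?_⟩
        have h2 : aeval (fun i => aeval (f w) (A i)) H =
            c ^ r * aeval (fun i => aeval (f z0) (A i)) H := by
          rw [hc]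
          exact aeval_scale (Ω := ℂ) hH c _
        have h3 : ∀ j, aeval (fun i => aeval (f w) (A i)) (R j) =
            c ^ (r + 1) * aeval (fun i => aeval (f z0) (A i)) (R j) := by
          intro j
          rw [hc]
          exact aeval_scale (Ω := ℂ) (hR j) c _
        funext j
        have h4 := hRA w j
        rw [h2, h3, hRA z0] at h4
        rw [Pi.smul_apply, smul_eq_mul]
        apply mul_left_cancel₀ (mul_ne_zero (pow_ne_zero r hc0) hz0)
        rw [pow_succ] at h4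
        linear_combination -h4
      intro a b
      obtain ⟨c, hc0, hc⟩ := key a
      obtain ⟨d, -, hd⟩ := key b
      refine ⟨d / c, ?_⟩
      rw [hc, hd, smul_smul, div_mul_cancel₀ _ hc0]
    · right
      push Not at hH0
      intro w
      rw [hbe, map_mul, hH0 w, mul_zero]
  · right
    intro w
    have h2 := h1 w
    rw [hbe, map_mul, h2, zero_mul]

theorem aff_push {G : MvPolynomial (Fin (n + 1)) 𝕜} (hGf : IsForm G)
    (hG : OnAff (Eqs 𝕜 y) G) : OnAff (Eqs 𝕜 z) (bind₁ R G * H) := by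
  obtain ⟨r, hH, hR⟩ := hP.homR
  intro f hf hf00 hfS
  have hf0 : ∀ w, f w ≠ 0 := fun w h => hf00 w (by rw [h]; rfl)
  have hbe : ∀ w (Q : MvPolynomial (Fin (n + 1)) 𝕜),
      aeval (f w) (bind₁ R Q) = aeval (fun j => aeval (f w) (R j)) Q :=
    fun w Q => bind_eval (Ω := ℂ) R (f w) Q
  have hAR : ∀ w i, aeval (fun j => aeval (f w) (R j)) (A i) = aeval (f w) H * f w i :=
    fun w i => hP.AR (Ω := ℂ) (hfS w) i
  by_cases hH0 : ∀ w, aeval (f w) H = 0
  · right
    intro w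
    rw [map_mul, hH0 w, mul_zero]
  push Not at hH0
  obtain ⟨K, hK⟩ := norm_bound hP.homA hP.reg
  have hfE : ∀ w, ∀ p ∈ Eqs 𝕜 y, aeval (fun j => aeval (f w) (R j)) p = 0 :=
    fun w => hP.mapR (Ω := ℂ) (hfS w)
  have hHd : Differentiable ℂ fun w => aeval (f w) H := diff_ev H hf
  have hbound : ∀ j w, ‖aeval (f w) (R j)‖ ≤ (K * ‖f w‖) * ‖aeval (f w) H‖ := by
    intro j w
    have h1 := hK _ (hfE w)
    have h2 : (fun i => aeval (fun j => aeval (f w) (R j)) (A i)) = aeval (f w) H • f w := by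
      funext i
      rw [hAR, Pi.smul_apply, smul_eq_mul]
    rw [h2, norm_smul] at h1
    calc ‖aeval (f w) (R j)‖ ≤ ‖fun j => aeval (f w) (R j)‖ :=
          norm_le_pi_norm (fun j => aeval (f w) (R j)) j
      _ ≤ K * (‖aeval (f w) H‖ * ‖f w‖) := h1
      _ = (K * ‖f w‖) * ‖aeval (f w) H‖ := by ring
  have hquot : ∀ j, ∃ g : ℂ → ℂ, Differentiable ℂ g ∧ ∀ w, aeval (f w) H * g w =
      aeval (f w) (R j) := by
    intro j
    refine exists_quot ?_ hHd hH0 (fun w => K * ‖f w‖) ?_ (hbound j)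
    · exact diff_ev (R j) hf
    · exact continuous_const.mul hf.continuous.norm
  choose g hg hgR using hquot
  obtain ⟨F, hF⟩ : ∃ F : ℂ → Fin (n + 1) → ℂ, F = fun w j => g j w := ⟨_, rfl⟩
  have hFd : Differentiable ℂ F := by
    rw [differentiable_pi, hF]
    exact hg
  have hFR : ∀ w, aeval (f w) H • F w = fun j => aeval (f w) (R j) := by
    intro w
    funext j
    rw [Pi.smul_apply, smul_eq_mul, hF, hgR]
  -- identities which hold off the zeros of `H`
  have hHan : AnalyticOnNhd ℂ (fun w => aeval (f w) H) Set.univ := fun w _ => hHd.analyticAt w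
  have hcancel : ∀ u : ℂ → ℂ, Differentiable ℂ u → (∀ w, aeval (f w) H * u w = 0) →
      ∀ w, u w = 0 := by
    intro u hu h w
    have hua : AnalyticOnNhd ℂ u Set.univ := fun w _ => hu.analyticAt w
    rcases hHan.eq_zero_or_eq_zero_of_mul_eq_zero hua (fun w _ => h w) isPreconnected_univ
      with h2 | h2
    · obtain ⟨w0, hw0⟩ := hH0
      exact absurd (h2 w0 (Set.mem_univ w0)) hw0
    · exact h2 w (Set.mem_univ w)
  have hAF : ∀ w i, aeval (F w) (A i) = f w i := by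
    intro w i
    have h1 := hcancel (fun w => aeval (F w) (A i) - f w i) (by
      refine Differentiable.sub ?_ (differentiable_pi.1 hf i)
      exact diff_ev (A i) hFd) (by
      intro w
      have h2 := aeval_scale (Ω := ℂ) (hP.homA i) (aeval (f w) H) (F w)
      rw [hFR w, pow_one] at h2
      have h3 : aeval (fun j => aeval (f w) (R j)) (A i) = aeval (f w) H * aeval (F w) (A i) := h2
      rw [hAR] at h3
      linear_combination -h3) w
    exact sub_eq_zero.1 h1
  have hF0 : ∀ w, F w 0 ≠ 0 := by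
    intro w
    have h1 := hAF w 0
    rw [hA0, aeval_X] at h1
    rw [h1]
    exact hf00 w
  have hFS : ∀ w, ∀ p ∈ Eqs 𝕜 y, aeval (F w) p = 0 := by
    rintro w p ⟨⟨e, he⟩, hp⟩
    refine hcancel (fun w => aeval (F w) p) ?_ ?_ w
    · exact diff_ev p hFd
    · intro w
      by_cases hw : aeval (f w) H = 0
      · rw [hw, zero_mul]
      · have h1 : aeval (F w) p = 0 := by
          have h2 := hfE w p ⟨⟨e, he⟩, hp⟩
          rw [← hFR w] at h2
          exact (aeval_zero_of (Ω := ℂ) ⟨e, he⟩ hw (F w)).1 h2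
        rw [h1, mul_zero]
  rcases hG F hFd hF0 hFS with h1 | h1
  · left
    intro a b
    obtain ⟨c, hc⟩ := h1 a b
    refine ⟨c, ?_⟩
    funext i
    rw [Pi.smul_apply, ← hAF, ← hAF, hc, smul_eq_mul]
    have h2 := aeval_scale (Ω := ℂ) (hP.homA i) c (F a)
    rw [pow_one] at h2
    exact h2
  · right
    intro w
    obtain ⟨e, he⟩ := hGf
    rw [map_mul, hbe, ← hFR w]
    have h2 : aeval (aeval (f w) H • F w) G = aeval (f w) H ^ e * aeval (F w) G :=
      aeval_scale (Ω := ℂ) he _ _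
    rw [h2, h1 w, mul_zero, zero_mul]

end curves

section points

variable {K : Type} [Field K]

/-- the point with homogeneous coordinates `x` is an integral point of the affine space `X_0 ≠ 0` outside
of the set `B` of primes -/
def Integral {L : Type} [Field L] [NumberField L] (B : Set (HeightOneSpectrum (𝓞 L))) {n : ℕ}
    (x : Fin (n + 1) → L) : Prop :=
  x 0 ≠ 0 ∧ ∀ v ∉ B, ∀ j, v.valuation L (x j) ≤ v.valuation L (x 0)

theorem integral_smul {L : Type} [Field L] [NumberField L] {B : Set (HeightOneSpectrum (𝓞 L))}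
    {n : ℕ} {x : Fin (n + 1) → L} {c : L} (hc : c ≠ 0) (hx : Integral B x) : Integral B (c • x) := by
  refine ⟨?_, fun v hv j => ?_⟩
  · rw [Pi.smul_apply, smul_eq_mul]
    exact mul_ne_zero hc hx.1
  · rw [Pi.smul_apply, Pi.smul_apply, smul_eq_mul, smul_eq_mul, map_mul, map_mul]
    exact mul_le_mul_right (hx.2 v hv j) _

theorem integral_rep {L : Type} [Field L] [NumberField L] {B : Set (HeightOneSpectrum (𝓞 L))}
    {n : ℕ} {x : Fin (n + 1) → L} (h0 : x ≠ 0) (hx : Integral B x) :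
    Integral B (Projectivization.mk L x h0).rep := by
  obtain ⟨a, ha⟩ := Projectivization.exists_smul_eq_mk_rep L x h0
  rw [← ha]
  exact integral_smul a.ne_zero hx

/-- the integral points of `V(S) ∖ V(X_0)` outside of `G = 0` -/
def intOff (L : Type) [Field L] [NumberField L] [Algebra K L] (B : Set (HeightOneSpectrum (𝓞 L)))
    {n : ℕ} (S : Set (MvPolynomial (Fin (n + 1)) K)) (G : MvPolynomial (Fin (n + 1)) K) :
    Set (ℙ L (Fin (n + 1) → L)) :=
  {P | (∀ p ∈ S, aeval P.rep p = 0) ∧ Integral B P.rep ∧ aeval P.rep G ≠ 0}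

/-- only finitely many integral points of `V(S) ∖ V(X_0)` are outside of `G = 0` -/
def FinInt {n : ℕ} (S : Set (MvPolynomial (Fin (n + 1)) K)) (G : MvPolynomial (Fin (n + 1)) K) :
    Prop :=
  ∀ (L : Type) [Field L] [NumberField L] [Algebra K L] (B : Set (HeightOneSpectrum (𝓞 L))),
    B.Finite → (intOff L B S G).Finite

theorem typ_int : Typ (𝕜 := K) (fun _ S G => FinInt S G) where
  idl := fun n S =>
    ⟨fun L _ _ _ B hB => by
      refine Set.Finite.subset Set.finite_empty ?_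
      rintro P ⟨-, -, hP⟩
      exact hP (map_zero _),
    fun e G G' _ _ h h' L _ _ _ B hB => by
      refine (Set.Finite.union (h L B hB) (h' L B hB)).subset ?_
      rintro P ⟨hP, hI, hG⟩
      by_cases h1 : aeval P.rep G = 0
      · right
        refine ⟨hP, hI, fun h2 => hG ?_⟩
        rw [map_add, h1, h2, add_zero]
      · exact Or.inl ⟨hP, hI, h1⟩,
    fun G F _ _ h L _ _ _ B hB => by
      refine Set.Finite.subset (h L B hB) ?_
      rintro P ⟨hP, hI, hG⟩
      refine ⟨hP, hI, fun h1 => hG ?_⟩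
      rw [map_mul, h1, zero_mul],
    fun G r _ h L _ _ _ B hB => by
      refine Set.Finite.subset (h L B hB) ?_
      rintro P ⟨hP, hI, hG⟩
      refine ⟨hP, hI, ?_⟩
      rw [map_pow]
      exact pow_ne_zero r hG⟩
  van := fun n S G _ h L _ _ _ B hB => by
    refine Set.Finite.subset Set.finite_empty ?_
    rintro P ⟨hP, -, hG⟩
    exact hG (h L P.rep hP)
  restr := fun n S L' _ _ y G H _ _ hF hG L _ _ _ B hB => by
    obtain ⟨T, hT, hTS⟩ := reduce (Eqs K y)
    have h1 : (⋃ F ∈ T, intOff L B S (F * H)).Finite := by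
      refine Set.Finite.biUnion (Finset.finite_toSet T) fun F hFT => ?_
      exact hF F (hT hFT).1 (hT hFT).2 L B hB
    refine (h1.union (hG L B hB)).subset ?_
    rintro P ⟨hP, hI, hGH⟩
    rw [map_mul] at hGH
    by_cases h2 : ∀ F ∈ T, aeval P.rep F = 0
    · right
      refine ⟨fun p hp => ?_, hI, left_ne_zero_of_mul hGH⟩
      have h3 := hTS L (algebraMap K L) P.rep (fun q hq => by
        rw [eval_map]
        exact h2 q hq) p hp
      rw [eval_map] at h3
      exact h3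
    · left
      push Not at h2
      obtain ⟨F, hFT, hF0⟩ := h2
      rw [Set.mem_iUnion₂]
      refine ⟨F, hFT, hP, hI, ?_⟩
      rw [map_mul]
      exact mul_ne_zero hF0 (right_ne_zero_of_mul hGH)
  mono := fun n S S' h G hG L _ _ _ B hB => by
    refine Set.Finite.subset (hG L B hB) ?_
    rintro P ⟨hP, hI, hG⟩
    exact ⟨h L P.rep hP, hI, hG⟩
  coord := fun n S G _ h L _ _ _ B hB => by
    refine Set.Finite.subset (h 0 L B hB) ?_
    rintro P ⟨hP, hI, hG⟩
    refine ⟨hP, hI, ?_⟩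
    rw [map_mul, aeval_X]
    exact mul_ne_zero hG hI.1

theorem int_away {n : ℕ} {S : Set (MvPolynomial (Fin (n + 1)) K)}
    {H : MvPolynomial (Fin (n + 1)) K} (h : FinInt S (X 0 * H)) : FinInt S H := by
  intro L _ _ _ B hB
  refine Set.Finite.subset (h L B hB) ?_
  rintro P ⟨hP, hI, hG⟩
  refine ⟨hP, hI, ?_⟩
  rw [map_mul, aeval_X]
  exact mul_ne_zero hI.1 hG

variable [NumberField K]

/-- values of linear forms -/
theorem lin_le {n : ℕ} {c : 𝓞 K} {A : MvPolynomial (Fin (n + 1)) K}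
    {A' : MvPolynomial (Fin (n + 1)) (𝓞 K)} (hA : A.IsHomogeneous 1)
    (h : map (algebraMap (𝓞 K) K) A' = C (algebraMap (𝓞 K) K c) * A)
    {L : Type} [Field L] [NumberField L] [Algebra K L] (v : HeightOneSpectrum (𝓞 L))
    (hv : v.valuation L (algebraMap K L (algebraMap (𝓞 K) K c)) = 1) (x : Fin (n + 1) → L)
    (hx0 : x 0 ≠ 0) (hx : ∀ j, v.valuation L (x j) ≤ v.valuation L (x 0)) :
    v.valuation L (aeval x A) ≤ v.valuation L (x 0) := by
  have hv0 : v.valuation L (x 0) ≠ 0 := (Valuation.ne_zero_iff _).2 hx0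
  have h1 := poly_le v (x := (x 0)⁻¹ • x) (fun j => by
    rw [Pi.smul_apply, smul_eq_mul, map_mul, map_inv₀]
    calc (v.valuation L (x 0))⁻¹ * v.valuation L (x j)
        ≤ (v.valuation L (x 0))⁻¹ * v.valuation L (x 0) := mul_le_mul_right (hx j) _
      _ = 1 := inv_mul_cancel₀ hv0) A'
  rw [ez_eq, h, map_mul (aeval _), aeval_C, map_mul (v.valuation L), hv, one_mul,
    aeval_scale hA, pow_one, map_mul, map_inv₀] at h1
  calc v.valuation L (aeval x A) = v.valuation L (x 0) * ((v.valuation L (x 0))⁻¹ *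
        v.valuation L (aeval x A)) := by rw [← mul_assoc, mul_inv_cancel₀ hv0, one_mul]
    _ ≤ v.valuation L (x 0) * 1 := mul_le_mul_right h1 _
    _ = v.valuation L (x 0) := mul_one _

/-- a linear projection which is regular on the variety does not contract at almost all primes -/
theorem norm_int {n N : ℕ} {L' : Type} [Field L'] [Algebra K L'] {y : Fin (n + 1) → L'}
    {A : Fin (N + 1) → MvPolynomial (Fin (n + 1)) K} (hA : ∀ i, (A i).IsHomogeneous 1)
    (hreg : Regular y A) : ∃ a : 𝓞 K, a ≠ 0 ∧ ∀ (L : Type) [Field L] [NumberField L] [Algebra K L]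
      (v : HeightOneSpectrum (𝓞 L)),
      v.valuation L (algebraMap K L (algebraMap (𝓞 K) K a)) = 1 →
      ∀ x : Fin (n + 1) → L, (∀ p ∈ Eqs K y, aeval x p = 0) → ∀ j, ∃ i,
        v.valuation L (x j) ≤ v.valuation L (aeval x (A i)) := by
  classical
  -- integral equations
  obtain ⟨c₀, A', hc₀, hA'⟩ := exists_denom A
  have hden : ∀ p : Eqs K y, ∃ (c : 𝓞 K) (p' : MvPolynomial (Fin (n + 1)) (𝓞 K)), c ≠ 0 ∧
      map (algebraMap (𝓞 K) K) p' = C (algebraMap (𝓞 K) K c) *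
        (p : MvPolynomial (Fin (n + 1)) K) := by
    intro p
    obtain ⟨c, p', hc, hp'⟩ := exists_denom (fun _ : Unit => (p : MvPolynomial (Fin (n + 1)) K))
    exact ⟨c, p' (), hc, hp' ()⟩
  choose c p' hc hp' using hden
  obtain ⟨P, hPdef⟩ : ∃ P : Fin (N + 1) ⊕ Eqs K y → MvPolynomial (Fin (n + 1)) (𝓞 K),
    P = Sum.elim A' p' := ⟨_, rfl⟩
  have hne : ∀ a : 𝓞 K, a ≠ 0 → algebraMap (𝓞 K) K a ≠ 0 := fun a ha => by
    rw [Ne, map_eq_zero_iff _ int_inj]
    exact ha
  have hrad : ∀ j : Fin (n + 1), ∃ M : ℕ, (X j : MvPolynomial (Fin (n + 1)) K) ^ M ∈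
      Ideal.span (Set.range fun i => map (algebraMap (𝓞 K) K) (P i)) := by
    intro j
    refine nst fun Ω _ _ x hx => ?_
    by_contra hcon
    rw [aeval_X] at hcon
    have hx0 : x ≠ 0 := fun h => hcon (by rw [h]; rfl)
    obtain ⟨i, hi⟩ := hreg Ω x hx0 (fun p hp => by
      have h1 := hx _ (Ideal.subset_span ⟨Sum.inr ⟨p, hp⟩, rfl⟩)
      simp only [hPdef, Sum.elim_inr] at h1
      rw [hp' ⟨p, hp⟩, map_mul, aeval_C] at h1
      exact (mul_eq_zero.1 h1).resolve_left fun h0 => hne _ (hc _) ((map_eq_zero _).1 h0))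
    apply hi
    have h1 := hx _ (Ideal.subset_span ⟨Sum.inl i, rfl⟩)
    simp only [hPdef, Sum.elim_inl] at h1
    rw [hA' i, map_mul, aeval_C] at h1
    exact (mul_eq_zero.1 h1).resolve_left fun h0 => hne _ hc₀ ((map_eq_zero _).1 h0)
  choose M hM using hrad
  have hsv : ∀ j, SmallVal P ((X j : MvPolynomial (Fin (n + 1)) K) ^ M j) := fun j =>
    span_lt P (hM j)
  choose a ha h using hsv
  refine ⟨∏ j, a j, Finset.prod_ne_zero_iff.2 fun j _ => ha j, ?_⟩
  intro L _ _ _ v hv x hx j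
  -- all `a j` are units
  have hv1 : ∀ j, v.valuation L (algebraMap K L (algebraMap (𝓞 K) K (a j))) = 1 := by
    intro j
    refine le_antisymm (int_le v (a j)) ?_
    rw [← Finset.mul_prod_erase _ _ (Finset.mem_univ j), map_mul, map_mul, map_mul] at hv
    rw [← hv]
    have h1 := int_le v (∏ k ∈ Finset.univ.erase j, a k)
    calc v.valuation L (algebraMap K L (algebraMap (𝓞 K) K (a j))) *
          v.valuation L (algebraMap K L (algebraMap (𝓞 K) K (∏ k ∈ Finset.univ.erase j, a k)))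
        ≤ v.valuation L (algebraMap K L (algebraMap (𝓞 K) K (a j))) * 1 := mul_le_mul_right h1 _
      _ = _ := mul_one _
  by_cases hxj : x j = 0
  · exact ⟨0, by rw [hxj, map_zero]; exact zero_le⟩
  -- the largest coordinate
  obtain ⟨m, -, hm⟩ := Finset.exists_max_image Finset.univ (fun j => v.valuation L (x j))
    ⟨j, Finset.mem_univ j⟩
  have hxm : x m ≠ 0 := by
    intro h0
    have h1 := hm j (Finset.mem_univ j)
    rw [h0, map_zero, le_zero_iff, map_eq_zero] at h1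
    exact hxj h1
  have hvm : v.valuation L (x m) ≠ 0 := (Valuation.ne_zero_iff _).2 hxm
  by_contra hcon
  push Not at hcon
  have hlt : ∀ i, v.valuation L (aeval x (A i)) < v.valuation L (x m) := fun i =>
    (hcon i).trans_le (hm j (Finset.mem_univ j))
  obtain ⟨u, hu⟩ : ∃ u : Fin (n + 1) → L, u = (x m)⁻¹ • x := ⟨_, rfl⟩
  have hu1 : ∀ j, v.valuation L (u j) ≤ 1 := by
    intro j
    rw [hu, Pi.smul_apply, smul_eq_mul, map_mul, map_inv₀]
    calc (v.valuation L (x m))⁻¹ * v.valuation L (x j)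
        ≤ (v.valuation L (x m))⁻¹ * v.valuation L (x m) :=
          mul_le_mul_right (hm j (Finset.mem_univ j)) _
      _ = 1 := inv_mul_cancel₀ hvm
  have h1 := h m L v u hu1 (by
    rintro (i | p)
    · simp only [hPdef, Sum.elim_inl]
      rw [ez_eq, hA' i, map_mul (aeval u), aeval_C, map_mul (v.valuation L), hu,
        aeval_scale (hA i), pow_one, map_mul (v.valuation L), map_inv₀]
      refine lt_of_le_of_lt (mul_le_mul_left (int_le v c₀) _) ?_
      rw [one_mul]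
      calc (v.valuation L (x m))⁻¹ * v.valuation L (aeval x (A i))
          < (v.valuation L (x m))⁻¹ * v.valuation L (x m) :=
            mul_lt_mul_of_pos_left (hlt i) (zero_lt_iff.2 (inv_ne_zero hvm))
        _ = 1 := inv_mul_cancel₀ hvm
    · simp only [hPdef, Sum.elim_inr]
      rw [ez_eq, hp' p, map_mul (aeval u), aeval_C, hu,
        (aeval_zero_of p.2.1 (inv_ne_zero hxm) x).2 (hx p p.2), mul_zero, map_zero]
      exact zero_lt_one)
  rw [map_mul, hv1, one_mul, map_pow, aeval_X, hu, Pi.smul_apply, smul_eq_mul,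
    inv_mul_cancel₀ hxm, one_pow, map_one] at h1
  exact lt_irrefl _ h1

/-- the primes at which `a` is not a unit -/
def bad (L : Type) [Field L] [NumberField L] [Algebra K L] (a : 𝓞 K) :
    Set (HeightOneSpectrum (𝓞 L)) :=
  {v | v.valuation L (algebraMap K L (algebraMap (𝓞 K) K a)) ≠ 1}

omit [NumberField K] in
theorem not_bad {L : Type} [Field L] [NumberField L] [Algebra K L] {a : 𝓞 K}
    {B : Set (HeightOneSpectrum (𝓞 L))} {v : HeightOneSpectrum (𝓞 L)} (hv : v ∉ B ∪ bad L a) :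
    v ∉ B ∧ v.valuation L (algebraMap K L (algebraMap (𝓞 K) K a)) = 1 := by
  rw [Set.mem_union, not_or] at hv
  refine ⟨hv.1, ?_⟩
  by_contra h
  exact hv.2 h

section

variable {n N : ℕ} {L' : Type} [Field L'] [Algebra K L'] {y : Fin (n + 1) → L'}
  {z : Fin (N + 1) → L'} {A : Fin (N + 1) → MvPolynomial (Fin (n + 1)) K}
  {R : Fin (n + 1) → MvPolynomial (Fin (N + 1)) K} {H : MvPolynomial (Fin (N + 1)) K}
  (hP : Pair y z A R H) (hA0 : A 0 = X 0)
include hP hA0

theorem int_pull {G : MvPolynomial (Fin (N + 1)) K} (hGf : IsForm G)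
    (hG : FinInt (Eqs K z) G) : FinInt (Eqs K y) (bind₁ A (G * H)) := by
  obtain ⟨r, hH, hR⟩ := hP.homR
  obtain ⟨c, A', hc, hA'⟩ := exists_denom A
  intro L _ _ _ B hB
  have hRA : ∀ P ∈ intOff L B (Eqs K y) (bind₁ A (G * H)), ∀ j,
      aeval (fun i => aeval P.rep (A i)) (R j) =
      (aeval (fun i => aeval P.rep (A i)) H : L) * P.rep j := fun P hPm j => hP.RA hPm.1 j
  have hne : ∀ P ∈ intOff L B (Eqs K y) (bind₁ A (G * H)),
      (aeval (fun i => aeval P.rep (A i)) G : L) ≠ 0 ∧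
      (aeval (fun i => aeval P.rep (A i)) H : L) ≠ 0 := by
    rintro P ⟨-, -, h1⟩
    rw [bind_eval, map_mul] at h1
    exact ⟨left_ne_zero_of_mul h1, right_ne_zero_of_mul h1⟩
  refine fin_map L A (hG L (B ∪ bad L c) (hB.union (finite_bad hc))) ?_ ?_
  · intro P hPm
    obtain ⟨i, hi⟩ := hP.reg L P.rep P.rep_nonzero hPm.1
    have h0 : (fun i => aeval P.rep (A i)) ≠ (0 : Fin (N + 1) → L) := fun h => hi (congrFun h i)
    refine ⟨h0, fun p hp => ?_, integral_rep h0 ⟨?_, fun v hv j => ?_⟩, ?_⟩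
    · rw [rep_iff hp.1]
      exact hP.mapA hPm.1 p hp
    · change aeval P.rep (A 0) ≠ 0
      rw [hA0, aeval_X]
      exact hPm.2.1.1
    · obtain ⟨hv1, hv2⟩ := not_bad hv
      change v.valuation L (aeval P.rep (A j)) ≤ v.valuation L (aeval P.rep (A 0))
      rw [hA0, aeval_X]
      exact lin_le (hP.homA j) (hA' j) v hv2 P.rep hPm.2.1.1 (hPm.2.1.2 v hv1)
    · rw [Ne, rep_iff hGf]
      exact (hne P hPm).1
  · intro P hPm P' hPm' c hc
    have hc0 : c ≠ 0 := by
      rintro rfl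
      obtain ⟨i, hi⟩ := hP.reg L P.rep P.rep_nonzero hPm.1
      apply hi
      have h1 := congrFun hc i
      rw [zero_smul] at h1
      exact h1
    refine ⟨c, funext fun j => ?_⟩
    have h2 := hRA P hPm j
    have h3 := hRA P' hPm' j
    rw [hc, aeval_scale (hR j), aeval_scale hH, h3, pow_succ] at h2
    rw [Pi.smul_apply, smul_eq_mul]
    apply mul_left_cancel₀ (mul_ne_zero (pow_ne_zero r hc0) (hne P' hPm').2)
    linear_combination -h2

theorem int_push {G : MvPolynomial (Fin (n + 1)) K} (hGf : IsForm G)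
    (hG : FinInt (Eqs K y) G) : FinInt (Eqs K z) (bind₁ R G * H) := by
  obtain ⟨r, hH, hR⟩ := hP.homR
  obtain ⟨a, ha, hno⟩ := norm_int hP.homA hP.reg
  intro L _ _ _ B hB
  have hAR : ∀ P ∈ intOff L B (Eqs K z) (bind₁ R G * H), ∀ i,
      aeval (fun j => aeval P.rep (R j)) (A i) = (aeval P.rep H : L) * P.rep i :=
    fun P hPm i => hP.AR hPm.1 i
  have hne : ∀ P ∈ intOff L B (Eqs K z) (bind₁ R G * H),
      (aeval (fun j => aeval P.rep (R j)) G : L) ≠ 0 ∧ (aeval P.rep H : L) ≠ 0 := by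
    rintro P ⟨-, -, h1⟩
    rw [map_mul, bind_eval] at h1
    exact ⟨left_ne_zero_of_mul h1, right_ne_zero_of_mul h1⟩
  have hx0 : ∀ P ∈ intOff L B (Eqs K z) (bind₁ R G * H),
      (aeval P.rep (R 0) : L) = aeval P.rep H * P.rep 0 := by
    intro P hPm
    have h1 := hAR P hPm 0
    rw [hA0, aeval_X] at h1
    exact h1
  have hx1 : ∀ P ∈ intOff L B (Eqs K z) (bind₁ R G * H), (aeval P.rep (R 0) : L) ≠ 0 := by
    intro P hPm
    rw [hx0 P hPm]
    exact mul_ne_zero (hne P hPm).2 hPm.2.1.1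
  refine fin_map L R (hG L (B ∪ bad L a) (hB.union (finite_bad ha))) ?_ ?_
  · intro P hPm
    have h0 : (fun j => aeval P.rep (R j)) ≠ (0 : Fin (n + 1) → L) :=
      fun h => hx1 P hPm (congrFun h 0)
    refine ⟨h0, fun p hp => ?_, integral_rep h0 ⟨hx1 P hPm, fun v hv j => ?_⟩, ?_⟩
    · rw [rep_iff hp.1]
      exact hP.mapR hPm.1 p hp
    · obtain ⟨hv1, hv2⟩ := not_bad hv
      obtain ⟨i, hi⟩ := hno L v hv2 (fun j => aeval P.rep (R j)) (hP.mapR hPm.1) j
      refine hi.trans ?_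
      change _ ≤ v.valuation L (aeval P.rep (R 0))
      rw [hAR P hPm i, hx0 P hPm, map_mul, map_mul]
      exact mul_le_mul_right (hPm.2.1.2 v hv1 i) _
    · rw [Ne, rep_iff hGf]
      exact (hne P hPm).1
  · intro P hPm P' hPm' c hc
    refine ⟨(aeval P.rep H)⁻¹ * (c * aeval P'.rep H), funext fun i => ?_⟩
    have h2 := hAR P hPm i
    have h3 := hAR P' hPm' i
    rw [hc, aeval_scale (hP.homA i), pow_one, h3] at h2
    rw [Pi.smul_apply, smul_eq_mul]
    have h4 := (hne P hPm).2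
    field_simp
    linear_combination -h2

end

end points

/-! ### the comparison for affine varieties -/

section cmp

variable {𝕜 : Type} [Field 𝕜] [CharZero 𝕜]

/-- the transfer of a type of exceptional sets to affine models -/
def TransferA (P : ∀ n : ℕ, Set (MvPolynomial (Fin (n + 1)) 𝕜) →
    MvPolynomial (Fin (n + 1)) 𝕜 → Prop) : Prop :=
  ∀ {n N : ℕ} {L : Type} [Field L] [Algebra 𝕜 L] {y : Fin (n + 1) → L}
    {z : Fin (N + 1) → L} {A : Fin (N + 1) → MvPolynomial (Fin (n + 1)) 𝕜}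
    {R : Fin (n + 1) → MvPolynomial (Fin (N + 1)) 𝕜} {H : MvPolynomial (Fin (N + 1)) 𝕜},
    Pair y z A R H → A 0 = X 0 → ((∃ G, IsForm G ∧ aeval z G ≠ 0 ∧ P N (Eqs 𝕜 z) G) ↔
      ∃ G, IsForm G ∧ aeval y G ≠ 0 ∧ P n (Eqs 𝕜 y) G)

omit [CharZero 𝕜] in
theorem transfer_aff [CharZero 𝕜] [Algebra 𝕜 ℂ] : TransferA (𝕜 := 𝕜) (fun _ S G => OnAff S G) := by
  intro n N L' _ _ y z A R H hP hA0
  constructor
  · rintro ⟨G, hG, hGz, hPG⟩
    obtain ⟨h1, h2⟩ := hP.pull_ne hG hGz
    exact ⟨_, h1, h2, aff_pull hP hA0 hPG⟩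
  · rintro ⟨G, hG, hGy, hPG⟩
    obtain ⟨h1, h2⟩ := hP.push_ne hG hGy
    exact ⟨_, h1, h2, aff_push hP hA0 hG hPG⟩

theorem transfer_int {K : Type} [Field K] [NumberField K] :
    TransferA (𝕜 := K) (fun _ S G => FinInt S G) := by
  intro n N L' _ _ y z A R H hP hA0
  constructor
  · rintro ⟨G, hG, hGz, hPG⟩
    obtain ⟨h1, h2⟩ := hP.pull_ne hG hGz
    exact ⟨_, h1, h2, int_pull hP hA0 hG hPG⟩
  · rintro ⟨G, hG, hGy, hPG⟩
    obtain ⟨h1, h2⟩ := hP.push_ne hG hGy
    exact ⟨_, h1, h2, int_push hP hA0 hG hPG⟩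

/-- the closed subset `V(S) ∖ V(X_0)` of an affine space is of dimension at most `m` -/
def AffLe {n : ℕ} (S : Set (MvPolynomial (Fin (n + 1)) 𝕜)) (m : ℕ) : Prop :=
  ∀ (L : Type) [Field L] [Algebra 𝕜 L] (w : ℕ) (y : Fin (n + 1) → L), Gen 𝕜 L w y → y 0 ≠ 0 →
    (∀ p ∈ S, aeval y p = 0) → w ≤ m

/-- affine models -/
theorem affine_models {N k : ℕ} {D₁ : ℕ → ℕ} (H : Bounds N k D₁) {m : ℕ} (h1 : m + 1 ≤ N)
    (h2 : 2 * m + 1 ≤ N + k) {n : ℕ} {L : Type} [Field L]
    [Algebra 𝕜 L] {w : ℕ} {y : Fin (n + 1) → L} (hw : w ≤ m) (hy : Gen 𝕜 L w y) (hy0 : y 0 ≠ 0) :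
    ∃ (e : ℕ) (z : Fin (N + 1) → L) (A : Fin (N + 1) → MvPolynomial (Fin (n + 1)) 𝕜)
      (R : Fin (n + 1) → MvPolynomial (Fin (N + 1)) 𝕜) (K : MvPolynomial (Fin (N + 1)) 𝕜),
      1 ≤ e ∧ Gen 𝕜 L w z ∧ Pair y z A R K ∧ A 0 = X 0 ∧
      ∀ D, D₁ e ≤ D → ∃ Q : Fin (N * (2 * N + 1)) → MvPolynomial (Fin (N + 1)) 𝕜,
        (∀ t, (Q t).IsHomogeneous e) ∧ PropK k z (powerFormOver D Q) := by
  obtain ⟨A, hA, hA0⟩ := mdl_affine hy hy0
  obtain ⟨e, κ, _, F, he, hF, hFz, hV, hd⟩ := exists_eqs (gen_mdl hy hA) (by omega)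
  obtain ⟨R, K, hP⟩ := exists_pair (show w + 1 ≤ N by omega) hy.ne hA
  have h3 : QD.ext N A (emb (show w + 1 ≤ N by omega) 0) = A 0 :=
    ext_apply (show w + 1 ≤ N by omega) A 0
  rw [hA0] at h3
  exact ⟨e, _, _, R, K, he, gen_ext (by omega) (gen_mdl hy hA), hP, h3, fun D hD =>
    H e D he hD 𝕜 (w + 1) (by omega) w L _ (gen_mdl hy hA) (by omega) κ F hF hFz hV hd⟩

theorem compareA {I J : ∀ n : ℕ, Set (MvPolynomial (Fin (n + 1)) 𝕜) →
      MvPolynomial (Fin (n + 1)) 𝕜 → Prop} (hI : Typ I) (hJ : Typ J) (htI : TransferA I)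
    (htJ : TransferA J)
    (haw : ∀ (n : ℕ) (S : Set (MvPolynomial (Fin (n + 1)) 𝕜)) (G : MvPolynomial (Fin (n + 1)) 𝕜),
      J n S (X 0 * G) → J n S G)
    {N m k : ℕ} (h1 : m + 1 ≤ N) (h2 : 2 * m + 1 ≤ N + k) {D₁ : ℕ → ℕ}
    (H : Bounds N k D₁) {E : ℕ → Set ℕ} (hE : ∀ e, ∃ D ∈ E e, D₁ e ≤ D)
    (h : ∀ (e D : ℕ) (Q : Fin (N * (2 * N + 1)) → MvPolynomial (Fin (N + 1)) 𝕜), D ∈ E e →
      D₁ e ≤ D → (∀ t, (Q t).IsHomogeneous e) → SmallSing k (powerFormOver D Q) →
      (∀ G, IsForm G → I N {powerFormOver D Q} G → J N {powerFormOver D Q} G) ∧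
      ∀ (L : Type) [Field L] [Algebra 𝕜 L] (z : Fin (N + 1) → L), PropK k z (powerFormOver D Q) →
        ∀ F ∈ Eqs 𝕜 z, I N {powerFormOver D Q} F)
    {n : ℕ} {S : Set (MvPolynomial (Fin (n + 1)) 𝕜)} (hS : ∀ p ∈ S, IsForm p)
    (hdim : AffLe S m) (G : MvPolynomial (Fin (n + 1)) 𝕜) (hG : IsForm G)
    (hIG : I n S G) : J n S G := by
  refine typ_deg hI hJ ?_ G hG hIG
  intro e G hG he hIG
  by_contra hn
  obtain ⟨L, iF, iA, w, y, hgen, hGy, hSy, hc⟩ := typ_comp hJ hS hG he hn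
  have hy0 : y 0 ≠ 0 := by
    intro hy0
    obtain ⟨hc1, H, hH, hHy, hc2⟩ := hc
    refine hHy (hc1 H hH (haw n S H (hc2 (X 0) ⟨1, isHomogeneous_X 𝕜 0⟩ ?_)))
    rw [aeval_X]
    exact hy0
  have hwm := hdim L w y hgen hy0 hSy
  have h3 : I n (Eqs 𝕜 y) G := hI.mono n S (Eqs 𝕜 y)
    (fun L' _ _ x hx => set_eqs hS hSy L' x hx) G hIG
  obtain ⟨e', z, A, R, K, he', hz, hPr, hA0, hQ'⟩ := affine_models H h1 h2 hwm hgen hy0
  obtain ⟨D, hDE, hD⟩ := hE e'
  obtain ⟨Q, hQ, hp⟩ := hQ' D hD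
  obtain ⟨h4, h5⟩ := h e' D Q hDE hD hQ hp.sing
  obtain ⟨G1, hG1, hG1z, hI1⟩ := (htI hPr hA0).2 ⟨G, ⟨e, hG⟩, hGy, h3⟩
  have h6 : I N {powerFormOver D Q} (G1 * 1) := by
    refine hI.restr N _ L z G1 1 hG1 form_one (fun F hF hFz => ?_) hI1
    rw [mul_one]
    exact h5 L z hp F ⟨hF, hFz⟩
  rw [mul_one] at h6
  have h7 : J N (Eqs 𝕜 z) G1 := by
    refine hJ.mono N {powerFormOver D Q} (Eqs 𝕜 z) (fun L' _ _ x hx p hp' => ?_) G1 (h4 G1 hG1 h6)
    rw [Set.mem_singleton_iff] at hp'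
    rw [hp']
    exact hp.van L' x hx
  obtain ⟨G2, hG2, hG2y, hJ2⟩ := (htJ hPr hA0).1 ⟨G1, hG1, hG1z, h7⟩
  exact typ_con hJ hc hG2 hG2y hJ2

end cmp

end Pool.Agent.H911.KR
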