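import Pool.Agent.H911.KR.Aff

/-!
Affine schemes over the ring of integers of a number field: from affine hypersurfaces with a small
singular locus to all affine schemes.
-/

set_option autoImplicit false

namespace Pool.Agent.H911.KR

open MvPolynomial NumberField IsDedekindDomain
open scoped LinearAlgebra.Projectivization
open Pool.Agent.N254.SQ (AffineBLV intPoints reduce powerFormOver powerFormRing dehom comp_trdeg)
open Pool.Agent.H911.QR (homb homb_hom homb_eval)
open Pool.Agent.H911.EM (rep_iff exists_denom int_inj hom_denom ez_eq ring_hom ring_map)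

section values

variable {K : Type} [Field K] {n : ℕ}

/-- the homogenization of a polynomial -/
noncomputable def hg (P : MvPolynomial (Fin n) (𝓞 K)) : MvPolynomial (Fin (n + 1)) K :=
  homb 0 (rename Fin.succ (map (algebraMap (𝓞 K) K) P))

theorem hg_form (P : MvPolynomial (Fin n) (𝓞 K)) : IsForm (hg P) := ⟨_, homb_hom 0 _⟩

theorem hg_eval {Ω : Type} [Field Ω] [Algebra K Ω] (x : Fin (n + 1) → Ω) (hx : x 0 = 1)
    (P : MvPolynomial (Fin n) (𝓞 K)) : aeval x (hg P) =
      eval₂ ((algebraMap K Ω).comp (algebraMap (𝓞 K) K)) (fun j => x (Fin.succ j)) P := by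
  rw [hg, homb_eval x hx, aeval_rename, aeval_def, eval₂_map]
  rfl

theorem hg_zero {Ω : Type} [Field Ω] [Algebra K Ω] (x : Fin (n + 1) → Ω) (hx : x 0 ≠ 0)
    (P : MvPolynomial (Fin n) (𝓞 K)) : aeval x (hg P) = 0 ↔
      eval₂ ((algebraMap K Ω).comp (algebraMap (𝓞 K) K)) (fun j => x (Fin.succ j) / x 0) P = 0 := by
  have h1 : ((x 0)⁻¹ • x) 0 = 1 := by rw [Pi.smul_apply, smul_eq_mul, inv_mul_cancel₀ hx]
  rw [← aeval_zero_of (hg_form P) (inv_ne_zero hx) x, hg_eval _ h1]
  have h2 : (fun j : Fin n => ((x 0)⁻¹ • x) j.succ) = fun j => x (Fin.succ j) / x 0 := by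
    funext j
    rw [Pi.smul_apply, smul_eq_mul, div_eq_inv_mul]
  rw [h2]

theorem hg_cons {Ω : Type} [Field Ω] [Algebra K Ω] (u : Fin n → Ω)
    (P : MvPolynomial (Fin n) (𝓞 K)) : aeval (Fin.cons 1 u : Fin (n + 1) → Ω) (hg P) =
      eval₂ ((algebraMap K Ω).comp (algebraMap (𝓞 K) K)) u P := by
  rw [hg_eval _ (Fin.cons_zero _ _)]
  simp only [Fin.cons_succ]

/-- the affine equation of a hypersurface -/
theorem dehom_eval {N : ℕ} {Ω : Type} [Field Ω] [Algebra K Ω] (u : Fin N → Ω)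
    (A : MvPolynomial (Fin (N + 1)) (𝓞 K)) :
    eval₂ ((algebraMap K Ω).comp (algebraMap (𝓞 K) K)) u (dehom A) =
      aeval (Fin.cons 1 u : Fin (N + 1) → Ω) (map (algebraMap (𝓞 K) K) A) := by
  unfold dehom
  rw [aeval_def (R := K), eval₂_map]
  have h1 : ((eval₂Hom ((algebraMap K Ω).comp (algebraMap (𝓞 K) K)) u).comp
      (aeval (Fin.cons 1 X : Fin (N + 1) → MvPolynomial (Fin N) (𝓞 K))).toRingHom) A =
      eval₂Hom ((algebraMap K Ω).comp (algebraMap (𝓞 K) K)) (Fin.cons 1 u : Fin (N + 1) → Ω) A := by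
    congr 1
    apply ringHom_ext
    · intro a
      simp
    · intro i
      refine Fin.cases ?_ (fun i => ?_) i
      · simp
      · simp
  exact h1

theorem dehom_zero {N : ℕ} {Ω : Type} [Field Ω] [Algebra K Ω] (x : Fin (N + 1) → Ω) (hx : x 0 ≠ 0)
    {A : MvPolynomial (Fin (N + 1)) (𝓞 K)} (hA : IsForm (map (algebraMap (𝓞 K) K) A)) :
    aeval x (hg (dehom A)) = 0 ↔ aeval x (map (algebraMap (𝓞 K) K) A) = 0 := by
  rw [hg_zero x hx, dehom_eval, ← aeval_zero_of hA (inv_ne_zero hx) x]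
  have h1 : (Fin.cons 1 (fun j => x (Fin.succ j) / x 0) : Fin (N + 1) → Ω) = (x 0)⁻¹ • x := by
    funext j
    refine Fin.cases ?_ (fun j => ?_) j
    · rw [Fin.cons_zero, Pi.smul_apply, smul_eq_mul, inv_mul_cancel₀ hx]
    · rw [Fin.cons_succ, Pi.smul_apply, smul_eq_mul, div_eq_inv_mul]
  rw [h1]

/-- the algebra generated by the coordinates of a point of an affine space -/
theorem adjoin_cons {Ω : Type} [Field Ω] [Algebra K Ω] (u : Fin n → Ω) :
    Algebra.adjoin K (Set.range (Fin.cons 1 u : Fin (n + 1) → Ω)) =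
      Algebra.adjoin K (Set.range u) := by
  apply le_antisymm
  · rw [Algebra.adjoin_le_iff]
    rintro _ ⟨j, rfl⟩
    refine Fin.cases ?_ (fun j => ?_) j
    · rw [Fin.cons_zero]
      exact one_mem _
    · rw [Fin.cons_succ]
      exact Algebra.subset_adjoin ⟨j, rfl⟩
  · apply Algebra.adjoin_mono
    rintro _ ⟨j, rfl⟩
    exact ⟨j.succ, Fin.cons_succ _ _ _⟩

end values

section dims

variable {K : Type} [Field K] {ι : Type} {n : ℕ}

/-- The generic fibre of the affine scheme over `𝓞 K` given by the polynomials `F i` is of dimension at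
most `m`: the transcendence degree of the field generated by the coordinates of any point over an
extension field of `K` is at most `m`. -/
def AffineDim (F : ι → MvPolynomial (Fin n) (𝓞 K)) (m : ℕ) : Prop :=
  ∀ (Ω : Type) [Field Ω] [Algebra K Ω] (u : Fin n → Ω),
    (∀ i, eval₂ ((algebraMap K Ω).comp (algebraMap (𝓞 K) K)) u (F i) = 0) →
      Algebra.trdeg K (Algebra.adjoin K (Set.range u)) ≤ (m : Cardinal)

theorem aff_le {F : ι → MvPolynomial (Fin n) (𝓞 K)} {m : ℕ} (h : AffineDim F m) :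
    AffLe (Set.range fun i => hg (F i)) m := by
  intro L _ _ w y hy hy0 hyF
  have h1 := h L (fun j => y j.succ / y 0) (fun i => (hg_zero y hy0 (F i)).1 (hyF _ ⟨i, rfl⟩))
  have h2 : (Fin.cons 1 fun j => y (Fin.succ j) / y 0 : Fin (n + 1) → L) = fun j => y j / y 0 := by
    funext j
    refine Fin.cases ?_ (fun j => ?_) j
    · rw [Fin.cons_zero, div_self hy0]
    · rw [Fin.cons_succ]
  rw [← adjoin_cons, h2, ← comp_trdeg, ← coords_affine _ 0 hy0, hy.gen] at h1
  rw [(IntermediateField.topEquiv (F := K) (E := L)).trdeg_eq, hy.dim] at h1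
  exact_mod_cast h1

/-- affine hypersurfaces -/
theorem dim_dehom {N : ℕ} {A : MvPolynomial (Fin (N + 1)) (𝓞 K)}
    (hA : IsForm (map (algebraMap (𝓞 K) K) A)) (hA0 : map (algebraMap (𝓞 K) K) A ≠ 0) :
    AffineDim (fun _ : Unit => dehom A) (N - 1) := by
  intro Ω _ _ u hu
  rw [← adjoin_cons]
  refine dim_hyp hA hA0 Ω (Fin.cons 1 u) 0 (Fin.cons_zero _ _) fun _ => ?_
  rw [← dehom_eval]
  exact hu ()

end dims

section curves

variable {K : Type} [Field K] {ι κ : Type} {n : ℕ}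

/-- all nonconstant entire curves of the affine scheme `V` lie in `V'` -/
def AffCurves (σ : K →+* ℂ) (F : ι → MvPolynomial (Fin n) (𝓞 K))
    (G : κ → MvPolynomial (Fin n) (𝓞 K)) : Prop :=
  ∀ f : ℂ → Fin n → ℂ, Differentiable ℂ f →
    (∀ z i, eval₂ (σ.comp (algebraMap (𝓞 K) K)) (f z) (F i) = 0) → (∃ z w, f z ≠ f w) →
    ∀ z k, eval₂ (σ.comp (algebraMap (𝓞 K) K)) (f z) (G k) = 0

theorem curves_affine (σ : K →+* ℂ) (F : ι → MvPolynomial (Fin n) (𝓞 K))
    (G : κ → MvPolynomial (Fin n) (𝓞 K)) : AffCurves σ F G ↔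
      ∀ k, @OnAff K _ σ.toAlgebra n (Set.range fun i => hg (F i)) (hg (G k)) := by
  let _ : Algebra K ℂ := σ.toAlgebra
  constructor
  · intro h k g hg' hg0 hgS
    by_cases hcon : ∀ z w, ∃ c : ℂ, g w = c • g z
    · exact Or.inl hcon
    right
    intro z
    rw [hg_zero (g z) (hg0 z)]
    refine h (fun z j => g z (Fin.succ j) / g z 0) ?_ (fun z i => ?_) ?_ z k
    · rw [differentiable_pi]
      intro j
      exact (differentiable_pi.1 hg' _).div (differentiable_pi.1 hg' _) hg0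
    · exact (hg_zero (g z) (hg0 z) (F i)).1 (hgS z _ ⟨i, rfl⟩)
    · by_contra h1
      push Not at h1
      apply hcon
      intro z w
      refine ⟨g w 0 / g z 0, funext fun j => ?_⟩
      rw [Pi.smul_apply, smul_eq_mul]
      have h0 := hg0 z
      have h0' := hg0 w
      refine Fin.cases ?_ (fun j => ?_) j
      · rw [div_mul_cancel₀ _ h0]
      · have h2 : g z (Fin.succ j) / g z 0 = g w (Fin.succ j) / g w 0 := congrFun (h1 z w) j
        rw [div_eq_div_iff h0 h0'] at h2
        rw [div_mul_eq_mul_div, eq_div_iff h0]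
        linear_combination -h2
  · intro h f hf hfF hfn z k
    have h1 := h k (fun z => Fin.cons 1 (f z)) (by
      rw [differentiable_pi]
      intro j
      refine Fin.cases ?_ (fun j => ?_) j
      · simp only [Fin.cons_zero]
        exact differentiable_const _
      · simp only [Fin.cons_succ]
        exact differentiable_pi.1 hf j) (fun z => by
      rw [Fin.cons_zero]
      exact one_ne_zero) (by
      rintro z _ ⟨i, rfl⟩
      rw [hg_cons]
      exact hfF z i)
    rcases h1 with h1 | h1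
    · obtain ⟨a, b, hab⟩ := hfn
      obtain ⟨c, hc⟩ := h1 a b
      exfalso
      apply hab
      have h2 := congrFun hc 0
      rw [Pi.smul_apply, Fin.cons_zero, Fin.cons_zero, smul_eq_mul, mul_one] at h2
      funext j
      have h3 := congrFun hc j.succ
      rw [Pi.smul_apply, Fin.cons_succ, Fin.cons_succ, smul_eq_mul, ← h2, one_mul] at h3
      exact h3.symm
    · have h2 := h1 z
      rw [hg_cons] at h2
      exact h2

end curves

section points

variable {K : Type} [Field K] {ι κ : Type} {n : ℕ}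

/-- the integral points outside of the zeros of one polynomial -/
def offInt (L : Type) [Field L] [NumberField L] [Algebra K L] (B : Set (HeightOneSpectrum (𝓞 L)))
    (F : ι → MvPolynomial (Fin n) (𝓞 K)) (P : MvPolynomial (Fin n) (𝓞 K)) : Set (Fin n → L) :=
  {x | x ∈ intPoints F L B ∧ eval₂ ((algebraMap K L).comp (algebraMap (𝓞 K) K)) x P ≠ 0}

theorem mem_int {L : Type} [Field L] [NumberField L] {B : Set (HeightOneSpectrum (𝓞 L))} {x : L} :
    x ∈ B.integer L ↔ ∀ v ∉ B, v.valuation L x ≤ 1 := Iff.rfl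

theorem points_affine (L : Type) [Field L] [NumberField L] [Algebra K L]
    (B : Set (HeightOneSpectrum (𝓞 L))) (F : ι → MvPolynomial (Fin n) (𝓞 K))
    (P : MvPolynomial (Fin n) (𝓞 K)) : (offInt L B F P).Finite ↔
      (intOff L B (Set.range fun i => hg (F i)) (hg P)).Finite := by
  constructor
  · intro h
    refine Set.Finite.of_finite_image (f := fun Q : ℙ L (Fin (n + 1) → L) =>
      fun j : Fin n => Q.rep j.succ / Q.rep 0) (h.subset ?_) ?_
    · rintro _ ⟨Q, ⟨hQ, ⟨hQ0, hQI⟩, hQP⟩, rfl⟩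
      refine ⟨⟨fun j => ?_, fun i => ?_⟩, ?_⟩
      · rw [mem_int]
        intro v hv
        simp only
        rw [map_div₀]
        refine div_le_one_of_le₀ (hQI v hv _) zero_le
      · exact (hg_zero Q.rep hQ0 (F i)).1 (hQ _ ⟨i, rfl⟩)
      · exact fun h1 => hQP ((hg_zero Q.rep hQ0 P).2 h1)
    · rintro Q ⟨-, ⟨hQ0, -⟩, -⟩ Q' ⟨-, ⟨hQ0', -⟩, -⟩ hQQ
      have h1 : Q.rep = (Q.rep 0 / Q'.rep 0) • Q'.rep := by
        funext j
        rw [Pi.smul_apply, smul_eq_mul]
        refine Fin.cases ?_ (fun j => ?_) j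
        · rw [div_mul_cancel₀ _ hQ0']
        · have h2 := congrFun hQQ j
          simp only at h2
          rw [div_eq_div_iff hQ0 hQ0'] at h2
          rw [div_mul_eq_mul_div, eq_div_iff hQ0']
          linear_combination h2
      rw [← Q.mk_rep, ← Q'.mk_rep, Projectivization.mk_eq_mk_iff]
      exact ⟨Units.mk0 _ (div_ne_zero hQ0 hQ0'), h1.symm⟩
  · intro h
    have hc0 : ∀ x : Fin n → L, (Fin.cons 1 x : Fin (n + 1) → L) ≠ 0 := fun x h0 =>
      one_ne_zero (congrFun h0 0)
    refine Set.Finite.of_finite_image (f := fun x : Fin n → L =>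
      Projectivization.mk L (Fin.cons 1 x : Fin (n + 1) → L) (hc0 x)) (h.subset ?_) ?_
    · rintro _ ⟨x, ⟨⟨hxI, hxF⟩, hxP⟩, rfl⟩
      refine ⟨?_, integral_rep (hc0 x) ⟨?_, fun v hv j => ?_⟩, ?_⟩
      · rintro _ ⟨i, rfl⟩
        rw [rep_iff (hg_form _), hg_cons]
        exact hxF i
      · rw [Fin.cons_zero]
        exact one_ne_zero
      · rw [Fin.cons_zero, map_one]
        refine Fin.cases ?_ (fun j => ?_) j
        · rw [Fin.cons_zero, map_one]
        · rw [Fin.cons_succ]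
          exact hxI j v hv
      · rw [Ne, rep_iff (hg_form _), hg_cons]
        exact hxP
    · rintro x - x' - hxx
      obtain ⟨a, ha⟩ := (Projectivization.mk_eq_mk_iff L _ _ _ _).1 hxx
      have ha' : (a : L) • (Fin.cons 1 x' : Fin (n + 1) → L) = Fin.cons 1 x := ha
      have h2 := congrFun ha' 0
      rw [Pi.smul_apply, Fin.cons_zero, Fin.cons_zero, smul_eq_mul, mul_one] at h2
      funext j
      have h3 := congrFun ha' j.succ
      rw [Pi.smul_apply, Fin.cons_succ, Fin.cons_succ, smul_eq_mul, h2, one_mul] at h3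
      exact h3.symm

theorem diff_affine (L : Type) [Field L] [NumberField L] [Algebra K L]
    (B : Set (HeightOneSpectrum (𝓞 L))) (F : ι → MvPolynomial (Fin n) (𝓞 K))
    (G : κ → MvPolynomial (Fin n) (𝓞 K)) : (intPoints F L B \ intPoints G L B).Finite ↔
      ∀ k, (offInt L B F (G k)).Finite := by
  constructor
  · intro h k
    refine h.subset ?_
    rintro x ⟨hx, hxG⟩
    exact ⟨hx, fun h1 => hxG (h1.2 k)⟩
  · intro h
    obtain ⟨T, hT, hTS⟩ := reduce (Set.range fun k => hg (G k))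
    have h1 : (⋃ p ∈ T, {x : Fin n → L | x ∈ intPoints F L B ∧
        aeval (Fin.cons 1 x : Fin (n + 1) → L) p ≠ 0}).Finite := by
      refine Set.Finite.biUnion (Finset.finite_toSet T) fun p hp => ?_
      obtain ⟨k, rfl⟩ := hT hp
      refine (h k).subset ?_
      rintro x ⟨hx, hxG⟩
      rw [hg_cons] at hxG
      exact ⟨hx, hxG⟩
    refine h1.subset ?_
    rintro x ⟨hx, hxG⟩
    by_contra hcon
    apply hxG
    refine ⟨hx.1, fun k => ?_⟩
    have h2 := hTS L (algebraMap K L) (Fin.cons 1 x) (fun q hq => by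
      by_contra h3
      apply hcon
      rw [Set.mem_iUnion₂]
      refine ⟨q, hq, hx, ?_⟩
      rw [eval_map] at h3
      exact h3) (hg (G k)) ⟨k, rfl⟩
    rw [eval_map] at h2
    rw [← hg_cons]
    exact h2

theorem affine_iff (σ : K →+* ℂ) (F : ι → MvPolynomial (Fin n) (𝓞 K))
    (G : κ → MvPolynomial (Fin n) (𝓞 K)) : AffineBLV σ F G ↔
      ((∀ k, @OnAff K _ σ.toAlgebra n (Set.range fun i => hg (F i)) (hg (G k))) ↔
        ∀ k, FinInt (Set.range fun i => hg (F i)) (hg (G k))) := by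
  unfold AffineBLV
  refine iff_congr (curves_affine σ F G) ?_
  constructor
  · intro h k L _ _ _ B hB
    rw [← points_affine]
    exact (diff_affine L B F G).1 (h L B hB) k
  · intro h L _ _ _ B hB
    refine (diff_affine L B F G).2 fun k => ?_
    rw [points_affine]
    exact h k L B hB

end points

section congr

variable {K : Type} [Field K] {n : ℕ} {S S' : Set (MvPolynomial (Fin (n + 1)) K)}
  {G G' : MvPolynomial (Fin (n + 1)) K}

theorem onaff_congr [Algebra K ℂ] (hS : ∀ (Ω : Type) [Field Ω] [Algebra K Ω]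
    (x : Fin (n + 1) → Ω), x 0 ≠ 0 → (∀ p ∈ S', aeval x p = 0) → ∀ p ∈ S, aeval x p = 0)
    (hG : ∀ (Ω : Type) [Field Ω] [Algebra K Ω] (x : Fin (n + 1) → Ω), x 0 ≠ 0 →
      aeval x G = 0 → aeval x G' = 0) (h : OnAff S G) : OnAff S' G' := by
  intro f hf hf0 hfS
  rcases h f hf hf0 (fun z => hS ℂ (f z) (hf0 z) (hfS z)) with h1 | h1
  · exact Or.inl h1
  · exact Or.inr fun z => hG ℂ (f z) (hf0 z) (h1 z)

theorem finint_congr (hS : ∀ (Ω : Type) [Field Ω] [Algebra K Ω]
    (x : Fin (n + 1) → Ω), x 0 ≠ 0 → (∀ p ∈ S', aeval x p = 0) → ∀ p ∈ S, aeval x p = 0)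
    (hG : ∀ (Ω : Type) [Field Ω] [Algebra K Ω] (x : Fin (n + 1) → Ω), x 0 ≠ 0 →
      aeval x G = 0 → aeval x G' = 0) (h : FinInt S G) : FinInt S' G' := by
  intro L _ _ _ B hB
  refine Set.Finite.subset (h L B hB) ?_
  rintro P ⟨hP, hI, hG'⟩
  exact ⟨hS L P.rep hI.1 hP, hI, fun h1 => hG' (hG L P.rep hI.1 h1)⟩

end congr

section main

variable {K : Type} [Field K] [NumberField K]

/-- the affine equivalence -/
theorem affine_final {N m k : ℕ} (h1 : m + 1 ≤ N) (h2 : 2 * m + 1 ≤ N + k) {D₁ : ℕ → ℕ}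
    (H : Bounds N k D₁) {E : ℕ → Set ℕ} (hE : ∀ e, ∃ D ∈ E e, D₁ e ≤ D) (σ : K →+* ℂ)
    (h : ∀ (e D : ℕ) (Q : Fin (N * (2 * N + 1)) → MvPolynomial (Fin (N + 1)) (𝓞 K)), D ∈ E e →
      D₁ e ≤ D → (∀ t, (Q t).IsHomogeneous e) →
      SmallSing k (map (algebraMap (𝓞 K) K) (powerFormRing D Q)) →
      ∀ g : MvPolynomial (Fin N) (𝓞 K),
        AffineBLV σ (fun _ : Unit => dehom (powerFormRing D Q)) (fun _ : Unit => g))
    {n : ℕ} {ι κ : Type} {F : ι → MvPolynomial (Fin n) (𝓞 K)} (hd : AffineDim F m)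
    (G : κ → MvPolynomial (Fin n) (𝓞 K)) : AffineBLV σ F G := by
  let _ : Algebra K ℂ := σ.toAlgebra
  have hS : ∀ p ∈ Set.range fun i => hg (F i), IsForm p := by
    rintro _ ⟨i, rfl⟩
    exact hg_form _
  have h3 : ∀ (e D : ℕ) (Q : Fin (N * (2 * N + 1)) → MvPolynomial (Fin (N + 1)) K), D ∈ E e →
      D₁ e ≤ D → (∀ t, (Q t).IsHomogeneous e) → SmallSing k (powerFormOver D Q) →
      ∀ G, IsForm G → (OnAff {powerFormOver D Q} G ↔ FinInt {powerFormOver D Q} G) := by
    intro e D Q hDE hD hQ hsm G hG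
    obtain ⟨c, Q', hc, hQ'⟩ := exists_denom Q
    obtain ⟨c', G', hc', hG'⟩ := exists_denom (fun _ : Unit => G)
    have hcK : algebraMap (𝓞 K) K c ≠ 0 := fun h0 => hc ((map_eq_zero_iff _ int_inj).1 h0)
    have hcK' : algebraMap (𝓞 K) K c' ≠ 0 := fun h0 => hc' ((map_eq_zero_iff _ int_inj).1 h0)
    have hm := ring_map (D := D) hQ'
    have hQh : ∀ t, (Q' t).IsHomogeneous e := fun t => hom_denom (hQ t) (hQ' t)
    have hfA : IsForm (map (algebraMap (𝓞 K) K) (powerFormRing D Q')) :=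
      ⟨_, (ring_hom hQh).map _⟩
    have hfG : IsForm (map (algebraMap (𝓞 K) K) (G' ())) := by
      rw [hG' ()]
      exact form_mul ⟨0, isHomogeneous_C _ _⟩ hG
    have hzA : ∀ (Ω : Type) [Field Ω] [Algebra K Ω] (x : Fin (N + 1) → Ω), x 0 ≠ 0 →
        (aeval x (hg (dehom (powerFormRing D Q'))) = 0 ↔ aeval x (powerFormOver D Q) = 0) := by
      intro Ω _ _ x hx
      rw [dehom_zero x hx hfA, hm, map_mul, aeval_C, mul_eq_zero]
      exact or_iff_right ((map_ne_zero _).2 hcK)
    have hzG : ∀ (Ω : Type) [Field Ω] [Algebra K Ω] (x : Fin (N + 1) → Ω), x 0 ≠ 0 →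
        (aeval x (hg (dehom (G' ()))) = 0 ↔ aeval x G = 0) := by
      intro Ω _ _ x hx
      rw [dehom_zero x hx hfG, hG' (), map_mul, aeval_C, mul_eq_zero]
      exact or_iff_right ((map_ne_zero _).2 hcK')
    have hsm' : SmallSing k (map (algebraMap (𝓞 K) K) (powerFormRing D Q')) := by
      obtain ⟨l, hl⟩ := hsm
      refine ⟨l, fun Ω _ τ x hx hlx => ?_⟩
      obtain ⟨j, hj⟩ := hl Ω τ x hx hlx
      refine ⟨j, ?_⟩
      rw [hm, pderiv_C_mul, eval₂_mul, eval₂_C]
      exact mul_ne_zero ((map_ne_zero τ).2 hcK) hj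
    have h4 := (affine_iff σ _ _).1 (h e D Q' hDE hD hQh hsm' (dehom (G' ())))
    have e1 : Set.range (fun _ : Unit => hg (dehom (powerFormRing D Q'))) =
      {hg (dehom (powerFormRing D Q'))} := Set.range_const
    rw [e1] at h4
    have a1 : ∀ (Ω : Type) [Field Ω] [Algebra K Ω] (x : Fin (N + 1) → Ω), x 0 ≠ 0 →
        (∀ p ∈ ({hg (dehom (powerFormRing D Q'))} : Set _), aeval x p = 0) →
        ∀ p ∈ ({powerFormOver D Q} : Set _), aeval x p = 0 := by
      intro Ω _ _ x hx h5 p hp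
      rw [Set.mem_singleton_iff] at hp
      rw [hp]
      exact (hzA Ω x hx).1 (h5 _ rfl)
    have a2 : ∀ (Ω : Type) [Field Ω] [Algebra K Ω] (x : Fin (N + 1) → Ω), x 0 ≠ 0 →
        (∀ p ∈ ({powerFormOver D Q} : Set _), aeval x p = 0) →
        ∀ p ∈ ({hg (dehom (powerFormRing D Q'))} : Set _), aeval x p = 0 := by
      intro Ω _ _ x hx h5 p hp
      rw [Set.mem_singleton_iff] at hp
      rw [hp]
      exact (hzA Ω x hx).2 (h5 _ rfl)
    have b1 : ∀ (Ω : Type) [Field Ω] [Algebra K Ω] (x : Fin (N + 1) → Ω), x 0 ≠ 0 →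
        aeval x G = 0 → aeval x (hg (dehom (G' ()))) = 0 := fun Ω _ _ x hx => (hzG Ω x hx).2
    have b2 : ∀ (Ω : Type) [Field Ω] [Algebra K Ω] (x : Fin (N + 1) → Ω), x 0 ≠ 0 →
        aeval x (hg (dehom (G' ()))) = 0 → aeval x G = 0 := fun Ω _ _ x hx => (hzG Ω x hx).1
    constructor
    · intro h5
      exact finint_congr a2 b2 (h4.1 (fun _ => onaff_congr a1 b1 h5) ())
    · intro h5
      exact onaff_congr a2 b2 (h4.2 (fun _ => finint_congr a1 b1 h5) ())
  have hbase : ∀ (e D : ℕ) (Q : Fin (N * (2 * N + 1)) → MvPolynomial (Fin (N + 1)) K)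
      (L : Type) [Field L] [Algebra K L] (z : Fin (N + 1) → L), PropK k z (powerFormOver D Q) →
        ∀ F ∈ Eqs K z, OnAff {powerFormOver D Q} F := by
    intro e D Q L _ _ z hz F hF
    exact (base_curves σ hz hF).aff
  rw [affine_iff]
  constructor
  · intro h4 l
    exact compareA (I := fun _ S G => OnAff S G) (J := fun _ S G => FinInt S G) typ_aff typ_int
      transfer_aff transfer_int (fun _ _ _ => int_away) h1 h2 H hE (fun e D Q a b c d =>
        ⟨fun G hG => (h3 e D Q a b c d G hG).1, fun L _ _ z hz F hF => hbase e D Q L z hz F hF⟩)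
      hS (aff_le hd) _ (hg_form _) (h4 l)
  · intro h4 l
    exact compareA (I := fun _ S G => FinInt S G) (J := fun _ S G => OnAff S G) typ_int typ_aff
      transfer_int transfer_aff (fun _ _ _ => aff_away) h1 h2 H hE (fun e D Q a b c d =>
        ⟨fun G hG => (h3 e D Q a b c d G hG).2, fun L _ _ z hz F hF =>
          (h3 e D Q a b c d F hF.1).1 (hbase e D Q L z hz F hF)⟩)
      hS (aff_le hd) _ (hg_form _) (h4 l)

end main

end Pool.Agent.H911.KR
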