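import Pool.Graph.R_pool_sql_team_seeded_63374d34.N254.SQ.Comp
import Pool.Graph.R_pool_sql_team_seeded_63374d34.N254.SQ.Red
import Pool.Agent.H911.QD.Key

/-!
Closed subsets of projective spaces over a field `𝕜` of characteristic zero, by generic points: types of
exceptional sets and their components. (The modules `N254.SQ.Comp` and `N254.SQ.Comp2` of the library
over a general field.)
-/

set_option autoImplicit false

namespace Pool.Agent.H911.KR

open MvPolynomial
open Pool.Agent.N254.SQ (eval₂_scale comp_trdeg t_td)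
open Pool.Agent.W602.GT (coords)

attribute [local instance] MvPolynomial.gradedAlgebra

variable {𝕜 : Type} [Field 𝕜]

/-- homogeneous polynomials -/
def IsForm {n : ℕ} (G : MvPolynomial (Fin (n + 1)) 𝕜) : Prop := ∃ e, G.IsHomogeneous e

variable (𝕜) in
/-- all forms over `𝕜` vanishing at the point `y` with coordinates in a field extension: the equations of
the irreducible closed set with generic point `y` -/
def Eqs {n : ℕ} {L : Type} [Field L] [Algebra 𝕜 L] (y : Fin (n + 1) → L) :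
    Set (MvPolynomial (Fin (n + 1)) 𝕜) := {p | IsForm p ∧ aeval y p = 0}

variable (𝕜) in
/-- `y` is the generic point of an irreducible closed subset of `P^n` over `𝕜` of dimension `w` with
function field `L` -/
structure Gen {n : ℕ} (L : Type) [Field L] [Algebra 𝕜 L] (w : ℕ) (y : Fin (n + 1) → L) : Prop where
  ne : y ≠ 0
  gen : coords 𝕜 y = ⊤
  dim : Algebra.trdeg 𝕜 L = w

/-- the forms vanishing on a closed set: closed under sums in one degree, products, roots -/
structure Idl {n : ℕ} (I : MvPolynomial (Fin (n + 1)) 𝕜 → Prop) : Prop where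
  zero : I 0
  add : ∀ (e : ℕ) (G G' : MvPolynomial (Fin (n + 1)) 𝕜), G.IsHomogeneous e →
    G'.IsHomogeneous e → I G → I G' → I (G + G')
  mul : ∀ G F : MvPolynomial (Fin (n + 1)) 𝕜, IsForm G → IsForm F → I G → I (G * F)
  rad : ∀ (G : MvPolynomial (Fin (n + 1)) 𝕜) (r : ℕ), IsForm G → I (G ^ r) → I G

/-- The irreducible closed set with generic point `y` is a component of the closed set on which
exactly the forms in `I` vanish: all of them vanish at `y`, and for some form `H` with `H(y) ≠ 0` all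
products `G H` with `G(y) = 0` are in `I`. -/
def Component {n : ℕ} (I : MvPolynomial (Fin (n + 1)) 𝕜 → Prop) {L : Type} [Field L] [Algebra 𝕜 L]
    (y : Fin (n + 1) → L) : Prop :=
  (∀ G, IsForm G → I G → aeval y G = 0) ∧
    ∃ H, IsForm H ∧ aeval y H ≠ 0 ∧ ∀ G, IsForm G → aeval y G = 0 → I (G * H)

theorem aeval_scale {Ω : Type} [Field Ω] [Algebra 𝕜 Ω] {M e : ℕ}
    {G : MvPolynomial (Fin (M + 1)) 𝕜} (hG : G.IsHomogeneous e) (c : Ω) (x : Fin (M + 1) → Ω) :
    aeval (c • x) G = c ^ e * aeval x G := eval₂_scale (algebraMap 𝕜 Ω) hG c x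

theorem aeval_zero_of {Ω : Type} [Field Ω] [Algebra 𝕜 Ω] {M : ℕ}
    {G : MvPolynomial (Fin (M + 1)) 𝕜} (hG : IsForm G) {c : Ω} (hc : c ≠ 0) (x : Fin (M + 1) → Ω) :
    aeval (c • x) G = 0 ↔ aeval x G = 0 := by
  obtain ⟨e, he⟩ := hG
  rw [aeval_scale he, mul_eq_zero]
  constructor
  · rintro (h | h)
    · exact absurd h (pow_ne_zero _ hc)
    · exact h
  · exact Or.inr

theorem form_mul {n : ℕ} {G H : MvPolynomial (Fin (n + 1)) 𝕜} (hG : IsForm G) (hH : IsForm H) :
    IsForm (G * H) := by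
  obtain ⟨e, he⟩ := hG
  obtain ⟨e', he'⟩ := hH
  exact ⟨e + e', he.mul he'⟩

theorem form_one {n : ℕ} : IsForm (1 : MvPolynomial (Fin (n + 1)) 𝕜) :=
  ⟨0, isHomogeneous_one _ _⟩

theorem coords_affine {L : Type} [Field L] [Algebra 𝕜 L] {n : ℕ} (y : Fin (n + 1) → L)
    (a : Fin (n + 1)) (ha : y a ≠ 0) :
    coords 𝕜 y = IntermediateField.adjoin 𝕜 (Set.range fun j => y j / y a) := by
  apply le_antisymm
  · apply IntermediateField.adjoin_le_iff.2
    rintro _ ⟨i, j, hj, rfl⟩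
    have h3 : ∀ k, y k / y a ∈ IntermediateField.adjoin 𝕜 (Set.range fun j => y j / y a) :=
      fun k => IntermediateField.subset_adjoin 𝕜 _ ⟨k, rfl⟩
    have h4 : y i / y j = (y i / y a) / (y j / y a) := by
      rw [div_div_div_cancel_right₀ ha]
    rw [h4]
    exact div_mem (h3 i) (h3 j)
  · apply IntermediateField.adjoin_le_iff.2
    rintro _ ⟨j, rfl⟩
    exact IntermediateField.subset_adjoin 𝕜 _ ⟨j, a, ha, rfl⟩

theorem set_eqs {n : ℕ} {S : Set (MvPolynomial (Fin (n + 1)) 𝕜)} (hS : ∀ p ∈ S, IsForm p)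
    {L : Type} [Field L] [Algebra 𝕜 L] {y : Fin (n + 1) → L} (hy : ∀ p ∈ S, aeval y p = 0)
    (L' : Type) [Field L'] [Algebra 𝕜 L'] (x : Fin (n + 1) → L')
    (hx : ∀ p ∈ Eqs 𝕜 y, aeval x p = 0) : ∀ p ∈ S, aeval x p = 0 :=
  fun p hp => hx p ⟨hS p hp, hy p hp⟩

section comp

variable {n : ℕ}

theorem comp_sum {I : MvPolynomial (Fin (n + 1)) 𝕜 → Prop} (hI : Idl I) (e : ℕ) {α : Type}
    (s : Finset α) (g : α → MvPolynomial (Fin (n + 1)) 𝕜)
    (hg : ∀ a ∈ s, (g a).IsHomogeneous e ∧ I (g a)) :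
    (∑ a ∈ s, g a).IsHomogeneous e ∧ I (∑ a ∈ s, g a) := by
  classical
  induction s using Finset.induction_on with
  | empty =>
    rw [Finset.sum_empty]
    exact ⟨isHomogeneous_zero _ _ _, hI.zero⟩
  | insert a s ha ih =>
    obtain ⟨h1, h2⟩ := ih fun b hb => hg b (Finset.mem_insert_of_mem hb)
    obtain ⟨h3, h4⟩ := hg a (Finset.mem_insert_self a s)
    rw [Finset.sum_insert ha]
    exact ⟨h3.add h1, hI.add e _ _ h3 h1 h4 h2⟩

/-- the forms in the ideal generated by the forms of `I` -/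
theorem comp_span {I : MvPolynomial (Fin (n + 1)) 𝕜 → Prop} (hI : Idl I)
    (p : MvPolynomial (Fin (n + 1)) 𝕜)
    (hp : p ∈ Ideal.span {G : MvPolynomial (Fin (n + 1)) 𝕜 | IsForm G ∧ I G}) :
    ∀ k, I (homogeneousComponent k p) := by
  refine Submodule.span_induction (p := fun p _ => ∀ k, I (homogeneousComponent k p))
    ?_ ?_ ?_ ?_ hp
  · rintro G ⟨⟨e, he⟩, hG⟩ k
    rw [homogeneousComponent_of_mem he]
    split_ifs
    · exact hG
    · exact hI.zero
  · intro k
    rw [map_zero]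
    exact hI.zero
  · intro p q _ _ hp hq k
    rw [map_add]
    exact hI.add k _ _ (homogeneousComponent_isHomogeneous k p)
      (homogeneousComponent_isHomogeneous k q) (hp k) (hq k)
  · intro a p _ hp k
    have e1 : a * p = ∑ i ∈ Finset.range (a.totalDegree + 1),
        ∑ j ∈ Finset.range (p.totalDegree + 1),
          homogeneousComponent i a * homogeneousComponent j p := by
      rw [← Finset.sum_mul_sum, sum_homogeneousComponent, sum_homogeneousComponent]
    rw [smul_eq_mul, e1, map_sum]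
    refine (comp_sum hI k _ _ fun i _ => ?_).2
    rw [map_sum]
    refine comp_sum hI k _ _ fun j _ => ?_
    have hij : (homogeneousComponent i a * homogeneousComponent j p).IsHomogeneous (i + j) :=
      (homogeneousComponent_isHomogeneous i a).mul (homogeneousComponent_isHomogeneous j p)
    rw [homogeneousComponent_of_mem hij]
    split_ifs with h
    · refine ⟨by rw [h]; exact hij, ?_⟩
      rw [mul_comm]
      exact hI.mul _ _ ⟨j, homogeneousComponent_isHomogeneous j p⟩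
        ⟨i, homogeneousComponent_isHomogeneous i a⟩ (hp j)
    · exact ⟨isHomogeneous_zero _ _ _, hI.zero⟩

theorem comp_min_hom {J P : Ideal (MvPolynomial (Fin (n + 1)) 𝕜)}
    (hJ : J.IsHomogeneous (homogeneousSubmodule (Fin (n + 1)) 𝕜)) (hP : P ∈ J.minimalPrimes) :
    P.IsHomogeneous (homogeneousSubmodule (Fin (n + 1)) 𝕜) := by
  have h1 : (P.homogeneousCore (homogeneousSubmodule (Fin (n + 1)) 𝕜)).toIdeal.IsPrime :=
    hP.1.1.homogeneousCore
  have h2 : J ≤ (P.homogeneousCore (homogeneousSubmodule (Fin (n + 1)) 𝕜)).toIdeal := by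
    rw [← hJ.toIdeal_homogeneousCore_eq_self]
    exact Ideal.homogeneousCore_mono _ hP.1.2
  have h3 := hP.2 ⟨h1, h2⟩ (Ideal.toIdeal_homogeneousCore_le _ P)
  exact (Ideal.IsHomogeneous.iff_eq _ _).2 (le_antisymm (Ideal.toIdeal_homogeneousCore_le _ P) h3)

theorem comp_prod_fm {α : Type} (s : Finset α) (f : α → MvPolynomial (Fin (n + 1)) 𝕜)
    (hf : ∀ a ∈ s, IsForm (f a)) : IsForm (∏ a ∈ s, f a) := by
  classical
  induction s using Finset.induction_on with
  | empty =>
    rw [Finset.prod_empty]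
    exact ⟨0, isHomogeneous_one _ _⟩
  | insert a s ha ih =>
    obtain ⟨e, he⟩ := ih fun b hb => hf b (Finset.mem_insert_of_mem hb)
    obtain ⟨e', he'⟩ := hf a (Finset.mem_insert_self a s)
    rw [Finset.prod_insert ha]
    exact ⟨_, he'.mul he⟩

/-- a form in one homogeneous ideal and not in another one -/
theorem comp_form {P P' : Ideal (MvPolynomial (Fin (n + 1)) 𝕜)}
    (hP' : P'.IsHomogeneous (homogeneousSubmodule (Fin (n + 1)) 𝕜)) (h : ¬ P' ≤ P) :
    ∃ G, IsForm G ∧ G ∈ P' ∧ G ∉ P := by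
  obtain ⟨p, hp, hp'⟩ := SetLike.not_le_iff_exists.1 h
  by_contra hcon
  push Not at hcon
  apply hp'
  rw [← sum_homogeneousComponent p]
  refine sum_mem fun i _ => hcon _ ⟨i, homogeneousComponent_isHomogeneous i p⟩ ?_
  exact homogeneousComponent_mem_of_mem hP' hp i

theorem comp_scale {e : ℕ} {Ω : Type} [Field Ω] [Algebra 𝕜 Ω]
    {F : MvPolynomial (Fin (n + 1)) 𝕜} (hF : F.IsHomogeneous e) (c : Ω) (x : Fin (n + 1) → Ω) :
    aeval (fun j => c * x j) F = c ^ e * aeval x F := by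
  rw [aeval_def, aeval_def, eval₂_eq', eval₂_eq', Finset.mul_sum]
  apply Finset.sum_congr rfl
  intro α hα
  have h1 : ∑ j, α j = e := by
    have h2 := hF (mem_support_iff.1 hα)
    rw [Finsupp.weight_apply, Finsupp.sum_fintype _ _ (fun _ => by simp)] at h2
    simpa using h2
  simp only [mul_pow, Finset.prod_mul_distrib]
  rw [Finset.prod_pow_eq_pow_sum, h1]
  ring

/-- the generic point of a homogeneous prime ideal -/
theorem comp_gen (P : Ideal (MvPolynomial (Fin (n + 1)) 𝕜)) (hP : P.IsPrime)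
    (a : Fin (n + 1)) (ha : (X a : MvPolynomial (Fin (n + 1)) 𝕜) ∉ P) :
    ∃ (L' : Type) (_ : Field L') (_ : Algebra 𝕜 L') (w' : ℕ) (y' : Fin (n + 1) → L'),
        Gen 𝕜 L' w' y' ∧ y' a = 1 ∧ ∀ G, IsForm G → (aeval y' G = 0 ↔ G ∈ P) := by
  have hdom : IsDomain (MvPolynomial (Fin (n + 1)) 𝕜 ⧸ P) := Ideal.Quotient.isDomain P
  obtain ⟨ξ, hξ⟩ : ∃ ξ : Fin (n + 1) → FractionRing (MvPolynomial (Fin (n + 1)) 𝕜 ⧸ P),
      ξ = fun j => algebraMap (MvPolynomial (Fin (n + 1)) 𝕜 ⧸ P) _ (Ideal.Quotient.mk P (X j)) :=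
    ⟨_, rfl⟩
  have hae : ∀ G, aeval ξ G = algebraMap (MvPolynomial (Fin (n + 1)) 𝕜 ⧸ P)
      (FractionRing (MvPolynomial (Fin (n + 1)) 𝕜 ⧸ P)) (Ideal.Quotient.mk P G) := by
    intro G
    have h1 : (aeval ξ : MvPolynomial (Fin (n + 1)) 𝕜 →ₐ[𝕜]
        FractionRing (MvPolynomial (Fin (n + 1)) 𝕜 ⧸ P)) =
        (IsScalarTower.toAlgHom 𝕜 (MvPolynomial (Fin (n + 1)) 𝕜 ⧸ P)
          (FractionRing (MvPolynomial (Fin (n + 1)) 𝕜 ⧸ P))).comp (Ideal.Quotient.mkₐ 𝕜 P) := by
      apply MvPolynomial.algHom_ext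
      intro j
      rw [aeval_X, hξ]
      rfl
    rw [h1]
    rfl
  have hmem : ∀ G, aeval ξ G = 0 ↔ G ∈ P := by
    intro G
    rw [hae, ← Ideal.Quotient.eq_zero_iff_mem]
    constructor
    · intro h
      exact (IsFractionRing.injective (MvPolynomial (Fin (n + 1)) 𝕜 ⧸ P)
        (FractionRing (MvPolynomial (Fin (n + 1)) 𝕜 ⧸ P))) (by rw [h, map_zero])
    · intro h
      rw [h, map_zero]
  have hξa : ξ a ≠ 0 := by
    intro h
    apply ha
    rw [← hmem, aeval_X, h]
  obtain ⟨t, ht⟩ : ∃ t : Fin (n + 1) → FractionRing (MvPolynomial (Fin (n + 1)) 𝕜 ⧸ P),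
      t = fun j => (ξ a)⁻¹ * ξ j := ⟨_, rfl⟩
  have hta : t a = 1 := by
    rw [ht]
    exact inv_mul_cancel₀ hξa
  let L' := IntermediateField.adjoin 𝕜 (Set.range t)
  let y' : Fin (n + 1) → L' := fun j => ⟨t j, IntermediateField.subset_adjoin 𝕜 _ ⟨j, rfl⟩⟩
  have hya : y' a = 1 := Subtype.ext hta
  -- the transcendence degree
  have htd : Algebra.trdeg 𝕜 L' ≤ n := by
    have h1 := t_td 𝕜 (FractionRing (MvPolynomial (Fin (n + 1)) 𝕜 ⧸ P)) n n t a t hta
      (fun b => ⟨X b, by rw [aeval_X]⟩)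
    rw [← comp_trdeg] at h1
    exact h1
  obtain ⟨w', hw'⟩ := Cardinal.lt_aleph0.1 (lt_of_le_of_lt htd (Cardinal.natCast_lt_aleph0))
  have hval : ∀ G : MvPolynomial (Fin (n + 1)) 𝕜, L'.val (aeval y' G) = aeval t G := by
    intro G
    have h1 : L'.val.comp (aeval y' : MvPolynomial (Fin (n + 1)) 𝕜 →ₐ[𝕜] L') = aeval t := by
      apply MvPolynomial.algHom_ext
      intro j
      rw [AlgHom.comp_apply, aeval_X, aeval_X]
      rfl
    rw [← h1]
    rfl
  refine ⟨L', inferInstance, inferInstance, w', y', ⟨?_, ?_, hw'⟩, hya, ?_⟩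
  · intro h
    have h1 := congrFun h a
    rw [hya] at h1
    exact one_ne_zero h1
  · have h1 : IntermediateField.adjoin 𝕜 (Set.range y') = ⊤ := by
      apply IntermediateField.lift_injective
      rw [IntermediateField.lift_adjoin, IntermediateField.lift_top]
      have h2 : Subtype.val '' Set.range y' = Set.range t := by
        rw [← Set.range_comp]
        rfl
      rw [h2]
    rw [eq_top_iff, ← h1, IntermediateField.adjoin_le_iff]
    rintro _ ⟨i, rfl⟩
    refine IntermediateField.subset_adjoin 𝕜 _ ⟨i, a, ?_, ?_⟩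
    · rw [hya]
      exact one_ne_zero
    · rw [hya, div_one]
  · rintro G ⟨e, he⟩
    rw [← hmem]
    have h1 : aeval t G = (ξ a)⁻¹ ^ e * aeval ξ G := by
      rw [ht]
      exact comp_scale he _ _
    have h2 : aeval y' G = 0 ↔ aeval t G = 0 := by
      rw [← hval]
      constructor
      · intro h
        rw [h, map_zero]
      · intro h
        exact Subtype.ext h
    rw [h2, h1]
    constructor
    · intro h
      rcases mul_eq_zero.1 h with h | h
      · exact absurd h (pow_ne_zero e (inv_ne_zero hξa))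
      · exact h
    · intro h
      rw [h, mul_zero]

end comp

/-- a form of positive degree is in every ideal which contains all variables -/
theorem comp2_mem {n : ℕ} {P : Ideal (MvPolynomial (Fin (n + 1)) 𝕜)}
    (hP : ∀ j, (X j : MvPolynomial (Fin (n + 1)) 𝕜) ∈ P) {e : ℕ} (he : 1 ≤ e)
    {G : MvPolynomial (Fin (n + 1)) 𝕜} (hG : G.IsHomogeneous e) : G ∈ P := by
  have h1 : G ∈ Ideal.span ((X : Fin (n + 1) → MvPolynomial (Fin (n + 1)) 𝕜) '' Set.univ) := by
    rw [mem_ideal_span_X_image]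
    intro m hm
    by_contra hcon
    push Not at hcon
    have h2 := hG (mem_support_iff.1 hm)
    rw [Finsupp.weight_apply, Finsupp.sum_fintype _ _ (fun _ => by simp)] at h2
    rw [Finset.sum_eq_zero fun i _ => by rw [hcon i (Set.mem_univ i)]; simp] at h2
    omega
  refine (Ideal.span_le.2 ?_) h1
  rintro _ ⟨j, -, rfl⟩
  exact hP j

/-- a form which is not in `I` does not vanish on some component -/
theorem exists_comp {n : ℕ} {I : MvPolynomial (Fin (n + 1)) 𝕜 → Prop} (hI : Idl I) {e : ℕ}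
    {G : MvPolynomial (Fin (n + 1)) 𝕜} (hG : G.IsHomogeneous e) (he : 1 ≤ e) (hIG : ¬ I G) :
    ∃ (L : Type) (_ : Field L) (_ : Algebra 𝕜 L) (w : ℕ) (y : Fin (n + 1) → L), Gen 𝕜 L w y ∧
      aeval y G ≠ 0 ∧ Component I y := by
  obtain ⟨J, hJ⟩ : ∃ J : Ideal (MvPolynomial (Fin (n + 1)) 𝕜),
      J = Ideal.span {G : MvPolynomial (Fin (n + 1)) 𝕜 | IsForm G ∧ I G} := ⟨_, rfl⟩
  have hJh : J.IsHomogeneous (homogeneousSubmodule (Fin (n + 1)) 𝕜) := by
    rw [hJ]
    refine Ideal.homogeneous_span _ _ ?_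
    rintro G ⟨⟨e, he⟩, -⟩
    exact ⟨e, he⟩
  have hrad : ∀ (k : ℕ) (F : MvPolynomial (Fin (n + 1)) 𝕜), F.IsHomogeneous k →
      F ∈ J.radical → I F := by
    rintro k F hF ⟨r, hr⟩
    have h2 : (F ^ r).IsHomogeneous (k * r) := hF.pow r
    rw [hJ] at hr
    have h3 := comp_span hI _ hr (k * r)
    rw [homogeneousComponent_of_mem h2, if_pos rfl] at h3
    exact hI.rad _ r ⟨_, hF⟩ h3
  obtain ⟨P, hPm, hGP⟩ : ∃ P ∈ J.minimalPrimes, G ∉ P := by
    by_contra hcon
    push Not at hcon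
    apply hIG
    apply hrad e G hG
    rw [← Ideal.sInf_minimalPrimes, Ideal.mem_sInf]
    intro P hP
    exact hcon P hP
  have hPp : P.IsPrime := hPm.1.1
  have hPh := comp_min_hom hJh hPm
  have hfin : J.minimalPrimes.Finite := Ideal.finite_minimalPrimes_of_isNoetherianRing _ J
  -- forms in the other minimal primes
  have hex : ∀ P' ∈ J.minimalPrimes, P' ≠ P → ∃ G, IsForm G ∧ G ∈ P' ∧ G ∉ P := by
    intro P' hP' hne
    refine comp_form (comp_min_hom hJh hP') fun hle => hne ?_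
    exact le_antisymm hle (hPm.2 hP'.1 hle)
  choose! h hh1 hh2 hh3 using hex
  classical
  obtain ⟨H, hH⟩ : ∃ H, H = ∏ P' ∈ hfin.toFinset.erase P, h P' := ⟨_, rfl⟩
  have hmemT : ∀ P', P' ∈ hfin.toFinset.erase P ↔ P' ≠ P ∧ P' ∈ J.minimalPrimes := by
    intro P'
    rw [Finset.mem_erase, Set.Finite.mem_toFinset]
  have hHF : IsForm H := by
    rw [hH]
    refine comp_prod_fm _ _ fun P' hP' => ?_
    rw [hmemT] at hP'
    exact hh1 P' hP'.2 hP'.1
  have hHP : H ∉ P := by
    rw [hH, hPp.prod_mem_iff]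
    rintro ⟨P', hP', h1⟩
    rw [hmemT] at hP'
    exact hh3 P' hP'.2 hP'.1 h1
  have hGH : ∀ G, IsForm G → G ∈ P → I (G * H) := by
    rintro G ⟨e, he⟩ hG
    have h1 : G * H ∈ J.radical := by
      rw [← Ideal.sInf_minimalPrimes, Ideal.mem_sInf]
      intro P' hP'
      by_cases hPP : P' = P
      · rw [hPP]
        exact P.mul_mem_right _ hG
      · refine P'.mul_mem_left _ ?_
        rw [hH]
        exact P'.mem_of_dvd (Finset.dvd_prod_of_mem h ((hmemT P').2 ⟨hPP, hP'⟩))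
          (hh2 P' hP' hPP)
    obtain ⟨e', he'⟩ := hHF
    exact hrad _ _ (he.mul he') h1
  obtain ⟨a, ha⟩ : ∃ a, (X a : MvPolynomial (Fin (n + 1)) 𝕜) ∉ P := by
    by_contra hcon
    push Not at hcon
    exact hGP (comp2_mem hcon he hG)
  obtain ⟨L', iF, iA, w', y', hgen, hya, hmem⟩ := comp_gen P hPp a ha
  refine ⟨L', iF, iA, w', y', hgen, ?_, ?_, H, hHF, ?_, ?_⟩
  · intro h0
    exact hGP ((hmem G ⟨e, hG⟩).1 h0)
  · intro F hF hIF
    rw [hmem F hF]
    apply hPm.1.2
    rw [hJ]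
    exact Ideal.subset_span ⟨hF, hIF⟩
  · intro h0
    exact hHP ((hmem _ hHF).1 h0)
  · intro F hF h0
    exact hGH F hF ((hmem F hF).1 h0)

end Pool.Agent.H911.KR
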