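import Pool.Agent.H911.KR.Hyp

/-!
Types of exceptional sets of closed subsets of projective spaces over a field `𝕜`, and the comparison of
two types: from hypersurfaces with a small singular locus to all closed sets.
-/

set_option autoImplicit false

namespace Pool.Agent.H911.KR

open MvPolynomial
open Pool.Agent.N254.SQ (powerFormOver)
open Pool.Agent.W602.GT (coords)

section

variable {𝕜 : Type} [Field 𝕜]

/-- a type of exceptional sets of closed subsets `V(S)`: `P n S G` says that `G` vanishes on it -/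
structure Typ (P : ∀ n : ℕ, Set (MvPolynomial (Fin (n + 1)) 𝕜) →
    MvPolynomial (Fin (n + 1)) 𝕜 → Prop) : Prop where
  idl : ∀ (n : ℕ) (S : Set (MvPolynomial (Fin (n + 1)) 𝕜)), Idl (P n S)
  van : ∀ (n : ℕ) (S : Set (MvPolynomial (Fin (n + 1)) 𝕜)) (G : MvPolynomial (Fin (n + 1)) 𝕜),
    IsForm G → (∀ (L : Type) [Field L] [Algebra 𝕜 L] (x : Fin (n + 1) → L),
      (∀ p ∈ S, aeval x p = 0) → aeval x G = 0) → P n S G
  restr : ∀ (n : ℕ) (S : Set (MvPolynomial (Fin (n + 1)) 𝕜)) (L : Type) [Field L] [Algebra 𝕜 L]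
    (y : Fin (n + 1) → L) (G H : MvPolynomial (Fin (n + 1)) 𝕜), IsForm G → IsForm H →
    (∀ F, IsForm F → aeval y F = 0 → P n S (F * H)) → P n (Eqs 𝕜 y) G → P n S (G * H)
  mono : ∀ (n : ℕ) (S S' : Set (MvPolynomial (Fin (n + 1)) 𝕜)),
    (∀ (L : Type) [Field L] [Algebra 𝕜 L] (x : Fin (n + 1) → L),
      (∀ p ∈ S', aeval x p = 0) → ∀ p ∈ S, aeval x p = 0) →
    ∀ G, P n S G → P n S' G
  coord : ∀ (n : ℕ) (S : Set (MvPolynomial (Fin (n + 1)) 𝕜)) (G : MvPolynomial (Fin (n + 1)) 𝕜),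
    IsForm G → (∀ j, P n S (G * X j)) → P n S G

variable {J : ∀ n : ℕ, Set (MvPolynomial (Fin (n + 1)) 𝕜) →
    MvPolynomial (Fin (n + 1)) 𝕜 → Prop} (hJ : Typ J)
include hJ

/-- the components of an exceptional set -/
theorem typ_comp {n : ℕ} {S : Set (MvPolynomial (Fin (n + 1)) 𝕜)} (hS : ∀ p ∈ S, IsForm p)
    {e : ℕ} {G : MvPolynomial (Fin (n + 1)) 𝕜} (hG : G.IsHomogeneous e)
    (he : 1 ≤ e) (hn : ¬ J n S G) :
    ∃ (L : Type) (_ : Field L) (_ : Algebra 𝕜 L) (w : ℕ) (y : Fin (n + 1) → L),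
      Gen 𝕜 L w y ∧ aeval y G ≠ 0 ∧ (∀ p ∈ S, aeval y p = 0) ∧ Component (J n S) y := by
  obtain ⟨L, iF, iA, w, y, hgen, hGy, hc⟩ := exists_comp (hJ.idl n S) hG he hn
  exact ⟨L, iF, iA, w, y, hgen, hGy, fun p hp => hc.1 p (hS p hp)
    (hJ.van n S p (hS p hp) fun L _ _ x hx => hx p hp), hc⟩

/-- the contradiction: a form `G` with `G(y) ≠ 0` on the exceptional set of the component -/
theorem typ_con {n : ℕ} {S : Set (MvPolynomial (Fin (n + 1)) 𝕜)} {L : Type} [Field L]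
    [Algebra 𝕜 L] {y : Fin (n + 1) → L} (hc : Component (J n S) y)
    {G : MvPolynomial (Fin (n + 1)) 𝕜} (hG : IsForm G) (hGy : aeval y G ≠ 0)
    (h : J n (Eqs 𝕜 y) G) : False := by
  obtain ⟨hc1, H, hH, hHy, hc2⟩ := hc
  have h1 := hc1 (G * H) (form_mul hG hH) (hJ.restr n S L y G H hG hH hc2 h)
  rw [map_mul] at h1
  exact (mul_ne_zero hGy hHy) h1

omit hJ in
/-- from positive degrees to degree zero -/
theorem typ_deg {I J : ∀ n : ℕ, Set (MvPolynomial (Fin (n + 1)) 𝕜) →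
      MvPolynomial (Fin (n + 1)) 𝕜 → Prop} (hI : Typ I)
    (hJ : Typ J) {n : ℕ} {S : Set (MvPolynomial (Fin (n + 1)) 𝕜)}
    (h : ∀ (e : ℕ) (G : MvPolynomial (Fin (n + 1)) 𝕜), G.IsHomogeneous e → 1 ≤ e →
      I n S G → J n S G) (G : MvPolynomial (Fin (n + 1)) 𝕜) (hG : IsForm G)
    (hIG : I n S G) : J n S G := by
  refine hJ.coord n S G hG fun j => ?_
  obtain ⟨e, he⟩ := hG
  exact h (e + 1) (G * X j) (he.mul (isHomogeneous_X _ _)) (by omega)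
    ((hI.idl n S).mul G (X j) ⟨e, he⟩ ⟨1, isHomogeneous_X _ _⟩ hIG)

end

/-! ### models -/

/-- the property of the bounds for the exponents -/
def Bounds (N k : ℕ) (D₁ : ℕ → ℕ) : Prop := ∀ e D, 1 ≤ e → D₁ e ≤ D →
    ∀ (𝕜 : Type) [Field 𝕜] [CharZero 𝕜]
      (M : ℕ) (_ : M ≤ N) (w : ℕ) (L : Type) [Field L] [Algebra 𝕜 L] (z : Fin (M + 1) → L),
      Gen 𝕜 L w z → M + w ≤ N + k → ∀ (κ : Type) [Fintype κ]
      (F : κ → MvPolynomial (Fin (M + 1)) 𝕜),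
      (∀ k, (F k).IsHomogeneous e) → (∀ k, aeval z (F k) = 0) →
      (∀ (Ω : Type) [Field Ω] [Algebra 𝕜 Ω] (x : Fin (M + 1) → Ω), (∀ k, aeval x (F k) = 0) →
        ∀ p ∈ Eqs 𝕜 z, aeval x p = 0) → (∃ k i, aeval z (pderiv i (F k)) ≠ 0) →
      ∃ Q : Fin (N * (2 * N + 1)) → MvPolynomial (Fin (N + 1)) 𝕜,
        (∀ t, (Q t).IsHomogeneous e) ∧ PropK k (QD.ext N z) (powerFormOver D Q)

/-- the bounds for the exponents -/
theorem exists_bounds (N k : ℕ) (hN : 1 ≤ N) : ∃ D₁ : ℕ → ℕ, Bounds N k D₁ := by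
  have h : ∀ e : ℕ, ∃ D₁ : ℕ, 1 ≤ e → ∀ D, D₁ ≤ D → ∀ (𝕜 : Type) [Field 𝕜] [CharZero 𝕜]
      (M : ℕ) (_ : M ≤ N) (w : ℕ) (L : Type) [Field L] [Algebra 𝕜 L] (z : Fin (M + 1) → L),
      Gen 𝕜 L w z → M + w ≤ N + k → ∀ (κ : Type) [Fintype κ]
      (F : κ → MvPolynomial (Fin (M + 1)) 𝕜),
      (∀ k, (F k).IsHomogeneous e) → (∀ k, aeval z (F k) = 0) →
      (∀ (Ω : Type) [Field Ω] [Algebra 𝕜 Ω] (x : Fin (M + 1) → Ω), (∀ k, aeval x (F k) = 0) →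
        ∀ p ∈ Eqs 𝕜 z, aeval x p = 0) → (∃ k i, aeval z (pderiv i (F k)) ≠ 0) →
      ∃ Q : Fin (N * (2 * N + 1)) → MvPolynomial (Fin (N + 1)) 𝕜,
        (∀ t, (Q t).IsHomogeneous e) ∧ PropK k (QD.ext N z) (powerFormOver D Q) := by
    intro e
    by_cases he : 1 ≤ e
    · obtain ⟨D₁, hD₁⟩ := exists_hypk N e k hN he
      exact ⟨D₁, fun _ => hD₁⟩
    · exact ⟨0, fun h => absurd h he⟩
  choose D₁ H using h
  exact ⟨D₁, fun e D he hD => H e he D hD⟩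

section

variable {𝕜 : Type} [Field 𝕜] [CharZero 𝕜] {N k : ℕ} {D₁ : ℕ → ℕ} (H : Bounds N k D₁)
include H

/-- every variety of dimension at most `m` has models on hypersurfaces -/
theorem exists_models {m : ℕ} (h1 : m + 1 ≤ N) (h2 : 2 * m + 1 ≤ N + k) {n : ℕ} {L : Type} [Field L]
    [Algebra 𝕜 L] {w : ℕ} {y : Fin (n + 1) → L} (hw : w ≤ m) (hy : Gen 𝕜 L w y) :
    ∃ (e : ℕ) (z : Fin (N + 1) → L) (A : Fin (N + 1) → MvPolynomial (Fin (n + 1)) 𝕜)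
      (R : Fin (n + 1) → MvPolynomial (Fin (N + 1)) 𝕜) (K : MvPolynomial (Fin (N + 1)) 𝕜),
      1 ≤ e ∧ Gen 𝕜 L w z ∧ Pair y z A R K ∧
      ∀ D, D₁ e ≤ D → ∃ Q : Fin (N * (2 * N + 1)) → MvPolynomial (Fin (N + 1)) 𝕜,
        (∀ t, (Q t).IsHomogeneous e) ∧ PropK k z (powerFormOver D Q) := by
  obtain ⟨A, hA⟩ := mdl_proj hy
  obtain ⟨e, κ, _, F, he, hF, hFz, hV, hd⟩ := exists_eqs (gen_mdl hy hA) (by omega)
  obtain ⟨R, K, hP⟩ := exists_pair (show w + 1 ≤ N by omega) hy.ne hA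
  exact ⟨e, _, _, R, K, he, gen_ext (by omega) (gen_mdl hy hA), hP, fun D hD =>
    H e D he hD 𝕜 (w + 1) (by omega) w L _ (gen_mdl hy hA) (by omega) κ F hF hFz hV hd⟩

/-- every variety of dimension at most `m` has a model on a hypersurface -/
theorem exists_model {m : ℕ} (h1 : m + 1 ≤ N) (h2 : 2 * m + 1 ≤ N + k) {n : ℕ} {L : Type} [Field L]
    [Algebra 𝕜 L] {w : ℕ} {y : Fin (n + 1) → L} (hw : w ≤ m) (hy : Gen 𝕜 L w y)
    {E : ℕ → Set ℕ} (hE : ∀ e, ∃ D ∈ E e, D₁ e ≤ D) :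
    ∃ (e D : ℕ) (Q : Fin (N * (2 * N + 1)) → MvPolynomial (Fin (N + 1)) 𝕜) (z : Fin (N + 1) → L)
      (A : Fin (N + 1) → MvPolynomial (Fin (n + 1)) 𝕜)
      (R : Fin (n + 1) → MvPolynomial (Fin (N + 1)) 𝕜) (K : MvPolynomial (Fin (N + 1)) 𝕜),
      D ∈ E e ∧ D₁ e ≤ D ∧ (∀ t, (Q t).IsHomogeneous e) ∧ SmallSing k (powerFormOver D Q) ∧
      Gen 𝕜 L w z ∧ PropK k z (powerFormOver D Q) ∧ Pair y z A R K := by
  obtain ⟨e, z, A, R, K, he, hz, hP, h⟩ := exists_models H h1 h2 hw hy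
  obtain ⟨D, hDE, hD⟩ := hE e
  obtain ⟨Q, hQ, hp⟩ := h D hD
  exact ⟨e, D, Q, z, A, R, K, hDE, hD, hQ, hp.sing, hz, hp, hP⟩

end

variable {𝕜 : Type} [Field 𝕜] [CharZero 𝕜]

/-- the transfer of a type of exceptional sets to models -/
def Transfer (P : ∀ n : ℕ, Set (MvPolynomial (Fin (n + 1)) 𝕜) →
    MvPolynomial (Fin (n + 1)) 𝕜 → Prop) : Prop :=
  ∀ {n N : ℕ} {L : Type} [Field L] [Algebra 𝕜 L] {y : Fin (n + 1) → L}
    {z : Fin (N + 1) → L} {A : Fin (N + 1) → MvPolynomial (Fin (n + 1)) 𝕜}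
    {R : Fin (n + 1) → MvPolynomial (Fin (N + 1)) 𝕜} {H : MvPolynomial (Fin (N + 1)) 𝕜},
    Pair y z A R H → ((∃ G, IsForm G ∧ aeval z G ≠ 0 ∧ P N (Eqs 𝕜 z) G) ↔
      ∃ G, IsForm G ∧ aeval y G ≠ 0 ∧ P n (Eqs 𝕜 y) G)

/-- the closed set is of dimension at most `m` -/
def DimLe {n : ℕ} (S : Set (MvPolynomial (Fin (n + 1)) 𝕜)) (m : ℕ) : Prop :=
  ∀ (L : Type) [Field L] [Algebra 𝕜 L] (w : ℕ) (y : Fin (n + 1) → L), Gen 𝕜 L w y →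
    (∀ p ∈ S, aeval y p = 0) → w ≤ m

theorem compare {I J : ∀ n : ℕ, Set (MvPolynomial (Fin (n + 1)) 𝕜) →
      MvPolynomial (Fin (n + 1)) 𝕜 → Prop} (hI : Typ I) (hJ : Typ J) (htI : Transfer I)
    (htJ : Transfer J) {N m k : ℕ} (h1 : m + 1 ≤ N) (h2 : 2 * m + 1 ≤ N + k) {D₁ : ℕ → ℕ}
    (H : Bounds N k D₁) {E : ℕ → Set ℕ} (hE : ∀ e, ∃ D ∈ E e, D₁ e ≤ D)
    (h : ∀ (e D : ℕ) (Q : Fin (N * (2 * N + 1)) → MvPolynomial (Fin (N + 1)) 𝕜), D ∈ E e →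
      D₁ e ≤ D → (∀ t, (Q t).IsHomogeneous e) → SmallSing k (powerFormOver D Q) →
      (∀ G, IsForm G → I N {powerFormOver D Q} G → J N {powerFormOver D Q} G) ∧
      ∀ (L : Type) [Field L] [Algebra 𝕜 L] (z : Fin (N + 1) → L), PropK k z (powerFormOver D Q) →
        ∀ F ∈ Eqs 𝕜 z, I N {powerFormOver D Q} F)
    {n : ℕ} {S : Set (MvPolynomial (Fin (n + 1)) 𝕜)} (hS : ∀ p ∈ S, IsForm p)
    (hdim : DimLe S m) (G : MvPolynomial (Fin (n + 1)) 𝕜) (hG : IsForm G)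
    (hIG : I n S G) : J n S G := by
  refine typ_deg hI hJ ?_ G hG hIG
  intro e G hG he hIG
  by_contra hn
  obtain ⟨L, iF, iA, w, y, hgen, hGy, hSy, hc⟩ := typ_comp hJ hS hG he hn
  have hwm := hdim L w y hgen hSy
  have h3 : I n (Eqs 𝕜 y) G := hI.mono n S (Eqs 𝕜 y)
    (fun L' _ _ x hx => set_eqs hS hSy L' x hx) G hIG
  obtain ⟨e', D, Q, z, A, R, K, hDE, hD, hQ, hsm, hz, hp, hPr⟩ :=
    exists_model H h1 h2 hwm hgen hE
  obtain ⟨h4, h5⟩ := h e' D Q hDE hD hQ hsm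
  obtain ⟨G1, hG1, hG1z, hI1⟩ := (htI hPr).2 ⟨G, ⟨e, hG⟩, hGy, h3⟩
  have h6 : I N {powerFormOver D Q} (G1 * 1) := by
    refine hI.restr N _ L z G1 1 hG1 form_one (fun F hF hFz => ?_) hI1
    rw [mul_one]
    exact h5 L z hp F ⟨hF, hFz⟩
  rw [mul_one] at h6
  have h7 : J N (Eqs 𝕜 z) G1 := by
    refine hJ.mono N {powerFormOver D Q} (Eqs 𝕜 z) (fun L' _ _ x hx p hp' => ?_) G1 (h4 G1 hG1 h6)
    rw [Set.mem_singleton_iff] at hp'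
    rw [hp']
    exact hp.van L' x hx
  obtain ⟨G2, hG2, hG2y, hJ2⟩ := (htJ hPr).1 ⟨G1, hG1, hG1z, h7⟩
  exact typ_con hJ hc hG2 hG2y hJ2

end Pool.Agent.H911.KR
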