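import Pool.Agent.H911.KR.Pair
import Pool.Agent.H911.KR.Typ
import Pool.Agent.H911.GD.MoveC
import Pool.Agent.H911.EM.Curve

/-!
Entire curves in closed subsets of projective spaces over a field `𝕜` embedded in `ℂ`, and finite birational
projections over `𝕜`.
-/

set_option autoImplicit false

namespace Pool.Agent.H911.KR

open MvPolynomial Metric Filter Topology
open Pool.Agent.W602.GT (coords)
open Pool.Agent.H911.GD (exists_quot)
open Pool.Agent.H911.EM (at' diff_at_entire)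

variable {𝕜 : Type} [Field 𝕜]

/-- `G` vanishes on all nonconstant entire curves in `V(S)` -/
def OnCurves [Algebra 𝕜 ℂ] {n : ℕ} (S : Set (MvPolynomial (Fin (n + 1)) 𝕜))
    (G : MvPolynomial (Fin (n + 1)) 𝕜) : Prop :=
  ∀ f : ℂ → Fin (n + 1) → ℂ, Differentiable ℂ f → (∀ z, f z ≠ 0) →
    (∀ z, ∀ p ∈ S, aeval (f z) p = 0) →
    (∀ z w, ∃ c : ℂ, f w = c • f z) ∨ ∀ z, aeval (f z) G = 0

theorem diff_ev [Algebra 𝕜 ℂ] {n : ℕ} (p : MvPolynomial (Fin (n + 1)) 𝕜)
    {f : ℂ → Fin (n + 1) → ℂ} (hf : Differentiable ℂ f) :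
    Differentiable ℂ fun w => aeval (f w) p := by
  have h1 := diff_at_entire (N := 0) (fun _ => p) hf
  exact differentiable_pi.1 h1 0

theorem diff_map [Algebra 𝕜 ℂ] {n N : ℕ} (T : Fin (N + 1) → MvPolynomial (Fin (n + 1)) 𝕜)
    {f : ℂ → Fin (n + 1) → ℂ} (hf : Differentiable ℂ f) :
    Differentiable ℂ fun w i => aeval (f w) (T i) := by
  rw [differentiable_pi]
  intro i
  exact diff_ev (T i) hf

theorem cont_ev [Algebra 𝕜 ℂ] {n : ℕ} (p : MvPolynomial (Fin (n + 1)) 𝕜) :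
    Continuous fun x : Fin (n + 1) → ℂ => aeval x p := by
  have h1 : (fun x : Fin (n + 1) → ℂ => aeval x p) =
      fun x => eval x (map (algebraMap 𝕜 ℂ) p) := by
    funext x
    rw [eval_map]
    rfl
  rw [h1]
  exact MvPolynomial.continuous_eval _

theorem ec_idl [Algebra 𝕜 ℂ] (n : ℕ) (S : Set (MvPolynomial (Fin (n + 1)) 𝕜)) : Idl (OnCurves S) where
  zero := fun f _ _ _ => Or.inr fun z => map_zero _
  add := fun e G G' _ _ h h' f hf h0 hS => by
    rcases h f hf h0 hS with h1 | h1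
    · exact Or.inl h1
    rcases h' f hf h0 hS with h2 | h2
    · exact Or.inl h2
    exact Or.inr fun z => by rw [map_add, h1 z, h2 z, add_zero]
  mul := fun G F _ _ h f hf h0 hS => by
    rcases h f hf h0 hS with h1 | h1
    · exact Or.inl h1
    exact Or.inr fun z => by rw [map_mul, h1 z, zero_mul]
  rad := fun G r _ h f hf h0 hS => by
    rcases h f hf h0 hS with h1 | h1
    · exact Or.inl h1
    refine Or.inr fun z => ?_
    have h2 := h1 z
    rw [map_pow] at h2
    exact Pool.Agent.N254.SQ.qc_pow h2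

theorem ec_restr [Algebra 𝕜 ℂ] (n : ℕ) (S : Set (MvPolynomial (Fin (n + 1)) 𝕜)) (L : Type) [Field L]
    [Algebra 𝕜 L] (y : Fin (n + 1) → L) (G H : MvPolynomial (Fin (n + 1)) 𝕜)
    (hF : ∀ F, IsForm F → aeval y F = 0 → OnCurves S (F * H)) (hG : OnCurves (Eqs 𝕜 y) G) :
    OnCurves S (G * H) := by
  intro f hf hf0 hfS
  by_cases hcon : ∀ z w, ∃ c : ℂ, f w = c • f z
  · exact Or.inl hcon
  right
  by_cases hH0 : ∀ z, aeval (f z) H = 0
  · intro z
    rw [map_mul, hH0 z, mul_zero]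
  have hE : ∀ z, ∀ p ∈ Eqs 𝕜 y, aeval (f z) p = 0 := by
    intro z p hp
    have h1 := (hF p hp.1 hp.2 f hf hf0 hfS).resolve_left hcon
    have ha : AnalyticOnNhd ℂ (fun z => aeval (f z) p) Set.univ :=
      (diff_ev p hf).differentiableOn.analyticOnNhd isOpen_univ
    have hb : AnalyticOnNhd ℂ (fun z => aeval (f z) H) Set.univ :=
      (diff_ev H hf).differentiableOn.analyticOnNhd isOpen_univ
    rcases ha.eq_zero_or_eq_zero_of_mul_eq_zero hb (fun z _ => by
        have := h1 z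
        rwa [map_mul] at this) isPreconnected_univ with h2 | h2
    · exact h2 z (Set.mem_univ z)
    · exact absurd (fun z => h2 z (Set.mem_univ z)) hH0
  intro z
  have h3 := (hG f hf hf0 hE).resolve_left hcon
  rw [map_mul, h3 z, zero_mul]

theorem typ_curves [Algebra 𝕜 ℂ] : Typ (𝕜 := 𝕜) (fun _ S G => OnCurves S G) where
  idl := ec_idl
  van := fun n S G _ h f hf hf0 hfS => Or.inr fun z => h ℂ (f z) (hfS z)
  restr := fun n S L _ _ y G H _ _ hF hG => ec_restr n S L y G H hF hG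
  mono := fun n S S' h G hG f hf hf0 hfS => hG f hf hf0 fun z => h ℂ (f z) (hfS z)
  coord := fun n S G _ h f hf hf0 hfS => by
    by_cases hcon : ∀ z w, ∃ c : ℂ, f w = c • f z
    · exact Or.inl hcon
    right
    intro z
    obtain ⟨j, hj⟩ : ∃ j, f z j ≠ 0 := by
      by_contra h1
      push Not at h1
      exact hf0 z (funext h1)
    have h1 := ((h j f hf hf0 hfS).resolve_left hcon) z
    rw [map_mul, aeval_X] at h1
    exact (mul_eq_zero.1 h1).resolve_right hj

/-- a linear projection which is regular on the variety does not contract -/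
theorem norm_bound [Algebra 𝕜 ℂ] {n N : ℕ} {L : Type} [Field L] [Algebra 𝕜 L] {y : Fin (n + 1) → L}
    {A : Fin (N + 1) → MvPolynomial (Fin (n + 1)) 𝕜} (hA : ∀ i, (A i).IsHomogeneous 1)
    (hreg : Regular y A) : ∃ K : ℝ, ∀ x : Fin (n + 1) → ℂ, (∀ p ∈ Eqs 𝕜 y, aeval x p = 0) →
      ‖x‖ ≤ K * ‖fun i => aeval x (A i)‖ := by
  obtain ⟨S, hS⟩ : ∃ S : Set (Fin (n + 1) → ℂ), S = {x | ∀ p ∈ Eqs 𝕜 y, aeval x p = 0} ∩
    sphere 0 1 := ⟨_, rfl⟩
  have hcl : IsClosed {x : Fin (n + 1) → ℂ | ∀ p ∈ Eqs 𝕜 y, aeval x p = 0} := by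
    have h1 : {x : Fin (n + 1) → ℂ | ∀ p ∈ Eqs 𝕜 y, aeval x p = 0} =
        ⋂ p ∈ Eqs 𝕜 y, {x | aeval x p = 0} := by
      ext x
      simp
    rw [h1]
    exact isClosed_biInter fun p _ => isClosed_singleton.preimage (cont_ev p)
  have hcomp : IsCompact S := by
    rw [hS]
    exact (isCompact_sphere _ _).inter_left hcl
  obtain ⟨φ, hφ⟩ : ∃ φ : (Fin (n + 1) → ℂ) → ℝ, φ = fun x => ‖fun i => aeval x (A i)‖ := ⟨_, rfl⟩
  have hφc : Continuous φ := by
    rw [hφ]
    exact (continuous_pi fun i => cont_ev (A i)).norm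
  rcases S.eq_empty_or_nonempty with h0 | hne
  · refine ⟨0, fun x hx => ?_⟩
    by_cases hx0 : x = 0
    · rw [hx0, norm_zero, zero_mul]
    · exfalso
      have hn : ‖x‖ ≠ 0 := norm_ne_zero_iff.2 hx0
      have h1 : ((‖x‖⁻¹ : ℝ) : ℂ) • x ∈ S := by
        rw [hS]
        refine ⟨fun p hp => ?_, ?_⟩
        · have h2 : ((‖x‖⁻¹ : ℝ) : ℂ) ≠ 0 := by
            rw [Complex.ofReal_ne_zero]
            exact inv_ne_zero hn
          exact (aeval_zero_of (Ω := ℂ) hp.1 h2 x).2 (hx p hp)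
        · rw [mem_sphere_zero_iff_norm, norm_smul, Complex.norm_real, norm_inv, norm_norm,
            inv_mul_cancel₀ hn]
      rw [h0] at h1
      exact h1
  · obtain ⟨x0, hx0, hmin⟩ := hcomp.exists_isMinOn hne hφc.continuousOn
    have hpos : 0 < φ x0 := by
      rw [hS] at hx0
      obtain ⟨i, hi⟩ := hreg ℂ x0 (by
        intro h
        have h1 := mem_sphere_zero_iff_norm.1 hx0.2
        rw [h, norm_zero] at h1
        exact zero_ne_one h1) hx0.1
      rw [hφ]
      refine norm_pos_iff.2 fun h => hi ?_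
      exact congrFun h i
    refine ⟨(φ x0)⁻¹, fun x hx => ?_⟩
    by_cases hx0' : x = 0
    · rw [hx0', norm_zero]
      exact mul_nonneg (inv_nonneg.2 hpos.le) (norm_nonneg _)
    · have hn : ‖x‖ ≠ 0 := norm_ne_zero_iff.2 hx0'
      have h1 : ((‖x‖⁻¹ : ℝ) : ℂ) • x ∈ S := by
        rw [hS]
        refine ⟨fun p hp => ?_, ?_⟩
        · have h2 : ((‖x‖⁻¹ : ℝ) : ℂ) ≠ 0 := by
            rw [Complex.ofReal_ne_zero]
            exact inv_ne_zero hn
          exact (aeval_zero_of (Ω := ℂ) hp.1 h2 x).2 (hx p hp)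
        · rw [mem_sphere_zero_iff_norm, norm_smul, Complex.norm_real, norm_inv, norm_norm,
            inv_mul_cancel₀ hn]
      have h2 : φ x0 ≤ φ (((‖x‖⁻¹ : ℝ) : ℂ) • x) := hmin h1
      have h3 : φ (((‖x‖⁻¹ : ℝ) : ℂ) • x) = ‖x‖⁻¹ * φ x := by
        rw [hφ]
        simp only
        have h4 : (fun i => aeval (((‖x‖⁻¹ : ℝ) : ℂ) • x) (A i)) =
            ((‖x‖⁻¹ : ℝ) : ℂ) • fun i => aeval x (A i) := by
          funext i
          have h5 := aeval_scale (Ω := ℂ) (hA i) ((‖x‖⁻¹ : ℝ) : ℂ) x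
          rw [pow_one] at h5
          exact h5
        rw [h4, norm_smul, Complex.norm_real, norm_inv, norm_norm]
      rw [h3] at h2
      have h4 : ‖x‖ * φ x0 ≤ φ x := by
        calc ‖x‖ * φ x0 ≤ ‖x‖ * (‖x‖⁻¹ * φ x) := mul_le_mul_of_nonneg_left h2 (norm_nonneg x)
          _ = φ x := by rw [← mul_assoc, mul_inv_cancel₀ hn, one_mul]
      have h5 : φ x = ‖fun i => aeval x (A i)‖ := by rw [hφ]
      rw [← h5, inv_mul_eq_div, le_div_iff₀ hpos]
      exact h4

section

variable [CharZero 𝕜] [Algebra 𝕜 ℂ] {n N : ℕ} {L : Type} [Field L] [Algebra 𝕜 L] {y : Fin (n + 1) → L}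
  {z : Fin (N + 1) → L} {A : Fin (N + 1) → MvPolynomial (Fin (n + 1)) 𝕜}
  {R : Fin (n + 1) → MvPolynomial (Fin (N + 1)) 𝕜} {H : MvPolynomial (Fin (N + 1)) 𝕜}
  (hP : Pair y z A R H)
include hP

theorem curves_pull {G : MvPolynomial (Fin (N + 1)) 𝕜} (hG : OnCurves (Eqs 𝕜 z) G) :
    OnCurves (Eqs 𝕜 y) (bind₁ A (G * H)) := by
  obtain ⟨r, hH, hR⟩ := hP.homR
  intro f hf hf0 hfS
  have hbe : ∀ w (Q : MvPolynomial (Fin (N + 1)) 𝕜),
      aeval (f w) (bind₁ A Q) = aeval (fun i => aeval (f w) (A i)) Q :=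
    fun w Q => bind_eval (Ω := ℂ) A (f w) Q
  have hRA : ∀ w j, aeval (fun i => aeval (f w) (A i)) (R j) =
      aeval (fun i => aeval (f w) (A i)) H * f w j := fun w j => hP.RA (Ω := ℂ) (hfS w) j
  have hg0 : ∀ w, (fun i => aeval (f w) (A i)) ≠ 0 := by
    intro w h
    obtain ⟨i, hi⟩ := hP.reg ℂ (f w) (hf0 w) (hfS w)
    exact hi (congrFun h i)
  rcases hG (fun w i => aeval (f w) (A i)) (diff_map A hf) hg0
    (fun w => hP.mapA (Ω := ℂ) (hfS w)) with h1 | h1
  · by_cases hH0 : ∃ z0, aeval (fun i => aeval (f z0) (A i)) H ≠ 0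
    · left
      obtain ⟨z0, hz0⟩ := hH0
      have key : ∀ w, ∃ c : ℂ, c ≠ 0 ∧ f w = c • f z0 := by
        intro w
        obtain ⟨c, hc⟩ := h1 z0 w
        have hc0 : c ≠ 0 := by
          rintro rfl
          exact hg0 w (by rw [hc, zero_smul])
        refine ⟨c, hc0, ?_⟩
        have h2 : aeval (fun i => aeval (f w) (A i)) H =
            c ^ r * aeval (fun i => aeval (f z0) (A i)) H := by
          rw [hc]
          exact aeval_scale (Ω := ℂ) hH c _
        have h3 : ∀ j, aeval (fun i => aeval (f w) (A i)) (R j) =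
            c ^ (r + 1) * aeval (fun i => aeval (f z0) (A i)) (R j) := by
          intro j
          rw [hc]
          exact aeval_scale (Ω := ℂ) (hR j) c _
        funext j
        have h4 := hRA w j
        rw [h2, h3, hRA z0] at h4
        rw [Pi.smul_apply, smul_eq_mul]
        apply mul_left_cancel₀ (mul_ne_zero (pow_ne_zero r hc0) hz0)
        rw [pow_succ] at h4
        linear_combination -h4
      intro a b
      obtain ⟨c, hc0, hc⟩ := key a
      obtain ⟨d, -, hd⟩ := key b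
      refine ⟨d / c, ?_⟩
      rw [hc, hd, smul_smul, div_mul_cancel₀ _ hc0]
    · right
      push Not at hH0
      intro w
      rw [hbe, map_mul, hH0 w, mul_zero]
  · right
    intro w
    have h2 := h1 w
    rw [hbe, map_mul, h2, zero_mul]

theorem curves_push {G : MvPolynomial (Fin (n + 1)) 𝕜} (hGf : IsForm G)
    (hG : OnCurves (Eqs 𝕜 y) G) : OnCurves (Eqs 𝕜 z) (bind₁ R G * H) := by
  obtain ⟨r, hH, hR⟩ := hP.homR
  intro f hf hf0 hfS
  have hbe : ∀ w (Q : MvPolynomial (Fin (n + 1)) 𝕜),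
      aeval (f w) (bind₁ R Q) = aeval (fun j => aeval (f w) (R j)) Q :=
    fun w Q => bind_eval (Ω := ℂ) R (f w) Q
  have hAR : ∀ w i, aeval (fun j => aeval (f w) (R j)) (A i) = aeval (f w) H * f w i :=
    fun w i => hP.AR (Ω := ℂ) (hfS w) i
  by_cases hH0 : ∀ w, aeval (f w) H = 0
  · right
    intro w
    rw [map_mul, hH0 w, mul_zero]
  push Not at hH0
  obtain ⟨K, hK⟩ := norm_bound hP.homA hP.reg
  have hfE : ∀ w, ∀ p ∈ Eqs 𝕜 y, aeval (fun j => aeval (f w) (R j)) p = 0 :=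
    fun w => hP.mapR (Ω := ℂ) (hfS w)
  have hHd : Differentiable ℂ fun w => aeval (f w) H := by
    exact diff_ev H hf
  have hbound : ∀ j w, ‖aeval (f w) (R j)‖ ≤ (K * ‖f w‖) * ‖aeval (f w) H‖ := by
    intro j w
    have h1 := hK _ (hfE w)
    have h2 : (fun i => aeval (fun j => aeval (f w) (R j)) (A i)) = aeval (f w) H • f w := by
      funext i
      rw [hAR, Pi.smul_apply, smul_eq_mul]
    rw [h2, norm_smul] at h1
    calc ‖aeval (f w) (R j)‖ ≤ ‖fun j => aeval (f w) (R j)‖ :=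
          norm_le_pi_norm (fun j => aeval (f w) (R j)) j
      _ ≤ K * (‖aeval (f w) H‖ * ‖f w‖) := h1
      _ = (K * ‖f w‖) * ‖aeval (f w) H‖ := by ring
  have hquot : ∀ j, ∃ g : ℂ → ℂ, Differentiable ℂ g ∧ ∀ w, aeval (f w) H * g w =
      aeval (f w) (R j) := by
    intro j
    refine exists_quot ?_ hHd hH0 (fun w => K * ‖f w‖) ?_ (hbound j)
    · exact diff_ev (R j) hf
    · exact continuous_const.mul hf.continuous.norm
  choose g hg hgR using hquot
  obtain ⟨F, hF⟩ : ∃ F : ℂ → Fin (n + 1) → ℂ, F = fun w j => g j w := ⟨_, rfl⟩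
  have hFd : Differentiable ℂ F := by
    rw [differentiable_pi, hF]
    exact hg
  have hFR : ∀ w, aeval (f w) H • F w = fun j => aeval (f w) (R j) := by
    intro w
    funext j
    rw [Pi.smul_apply, smul_eq_mul, hF, hgR]
  -- identities which hold off the zeros of `H`
  have hHan : AnalyticOnNhd ℂ (fun w => aeval (f w) H) Set.univ := fun w _ => hHd.analyticAt w
  have hcancel : ∀ u : ℂ → ℂ, Differentiable ℂ u → (∀ w, aeval (f w) H * u w = 0) →
      ∀ w, u w = 0 := by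
    intro u hu h w
    have hua : AnalyticOnNhd ℂ u Set.univ := fun w _ => hu.analyticAt w
    rcases hHan.eq_zero_or_eq_zero_of_mul_eq_zero hua (fun w _ => h w) isPreconnected_univ
      with h2 | h2
    · obtain ⟨w0, hw0⟩ := hH0
      exact absurd (h2 w0 (Set.mem_univ w0)) hw0
    · exact h2 w (Set.mem_univ w)
  have hAF : ∀ w i, aeval (F w) (A i) = f w i := by
    intro w i
    have h1 := hcancel (fun w => aeval (F w) (A i) - f w i) (by
      refine Differentiable.sub ?_ (differentiable_pi.1 hf i)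
      exact diff_ev (A i) hFd) (by
      intro w
      have h2 := aeval_scale (Ω := ℂ) (hP.homA i) (aeval (f w) H) (F w)
      rw [hFR w, pow_one] at h2
      have h3 : aeval (fun j => aeval (f w) (R j)) (A i) = aeval (f w) H * aeval (F w) (A i) := h2
      rw [hAR] at h3
      linear_combination -h3) w
    exact sub_eq_zero.1 h1
  have hF0 : ∀ w, F w ≠ 0 := by
    intro w h
    apply hf0 w
    funext i
    rw [← hAF w i, h]
    have h2 := aeval_scale (Ω := ℂ) (hP.homA i) (0 : ℂ) (0 : Fin (n + 1) → ℂ)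
    rw [smul_zero, pow_one, zero_mul] at h2
    exact h2
  have hFS : ∀ w, ∀ p ∈ Eqs 𝕜 y, aeval (F w) p = 0 := by
    rintro w p ⟨⟨e, he⟩, hp⟩
    refine hcancel (fun w => aeval (F w) p) ?_ ?_ w
    · exact diff_ev p hFd
    · intro w
      by_cases hw : aeval (f w) H = 0
      · rw [hw, zero_mul]
      · have h1 : aeval (F w) p = 0 := by
          have h2 := hfE w p ⟨⟨e, he⟩, hp⟩
          rw [← hFR w] at h2
          exact (aeval_zero_of (Ω := ℂ) ⟨e, he⟩ hw (F w)).1 h2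
        rw [h1, mul_zero]
  rcases hG F hFd hF0 hFS with h1 | h1
  · left
    intro a b
    obtain ⟨c, hc⟩ := h1 a b
    refine ⟨c, ?_⟩
    funext i
    rw [Pi.smul_apply, ← hAF, ← hAF, hc, smul_eq_mul]
    have h2 := aeval_scale (Ω := ℂ) (hP.homA i) c (F a)
    rw [pow_one] at h2
    exact h2
  · right
    intro w
    obtain ⟨e, he⟩ := hGf
    rw [map_mul, hbe, ← hFR w]
    have h2 : aeval (aeval (f w) H • F w) G = aeval (f w) H ^ e * aeval (F w) G :=
      aeval_scale (Ω := ℂ) he _ _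
    rw [h2, h1 w, mul_zero, zero_mul]

end

theorem transfer_curves [CharZero 𝕜] [Algebra 𝕜 ℂ] :
    Transfer (𝕜 := 𝕜) (fun _ S G => OnCurves S G) := by
  intro n N L _ _ y z A R H hP
  constructor
  · rintro ⟨G, hG, hGz, hPG⟩
    obtain ⟨h1, h2⟩ := hP.pull_ne hG hGz
    exact ⟨_, h1, h2, curves_pull hP hPG⟩
  · rintro ⟨G, hG, hGy, hPG⟩
    obtain ⟨h1, h2⟩ := hP.push_ne hG hGy
    exact ⟨_, h1, h2, curves_push hP hG hPG⟩

end Pool.Agent.H911.KR
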