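import Pool.Graph.R_pool_sql_team_seeded_63374d34.N254.SQ.Spec
import Pool.Graph.R_pool_sql_team_seeded_63374d34.N254.SQ.Count
import Pool.Agent.H911.KR.Base

/-!
General linear combinations of forms have no common zeros on a projective variety.
-/

set_option autoImplicit false

namespace Pool.Agent.H911.KR

open MvPolynomial
open Pool.Agent.N254.SQ (comp_trdeg t_spec t_count)
open Pool.Agent.W602.GT (coords)
open Pool.Agent.H911.QR (homb homb_hom homb_eval hatc hatc_adjoin hatc_aeval)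
open Pool.Agent.H911.QD (spec_map surj_inj)

variable {𝕜 : Type} [Field 𝕜] [CharZero 𝕜]

section

variable {n : ℕ} {L : Type} [Field L] [Algebra 𝕜 L] {w : ℕ} {y : Fin (n + 1) → L}

/-- the affine coordinate ring of the generic point -/
theorem gen_trdeg (hy : Gen 𝕜 L w y) (a : Fin (n + 1)) (ha : y a ≠ 0) :
    Algebra.trdeg 𝕜 (Algebra.adjoin 𝕜 (Set.range ((y a)⁻¹ • y))) = (w : Cardinal) := by
  have hu' : (y a)⁻¹ • y = fun j => y j / y a := by
    funext j
    rw [Pi.smul_apply, smul_eq_mul, div_eq_inv_mul]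
  rw [hu', ← comp_trdeg, ← coords_affine _ a ha, hy.gen]
  rw [(IntermediateField.topEquiv (F := 𝕜) (E := L)).trdeg_eq, hy.dim]

/-- the specialization of the generic point at a point of the variety -/
theorem pt_spec (a : Fin (n + 1)) {Ω : Type} [Field Ω] [Algebra 𝕜 Ω]
    (x : Fin (n + 1) → Ω) (ha : x a = 1) (hx : ∀ p ∈ Eqs 𝕜 y, aeval x p = 0) :
    y a ≠ 0 ∧ ∃ ψ : Algebra.adjoin 𝕜 (Set.range ((y a)⁻¹ • y)) →ₐ[𝕜]
        Algebra.adjoin 𝕜 (Set.range x), Function.Surjective ψ ∧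
        ∀ Q : MvPolynomial (Fin (n + 1)) 𝕜, ψ (aeval (hatc 𝕜 ((y a)⁻¹ • y)) Q) =
          aeval (hatc 𝕜 x) Q := by
  have hya : y a ≠ 0 := by
    intro h0
    have h1 := hx (X a) ⟨⟨1, isHomogeneous_X 𝕜 a⟩, by rw [aeval_X, h0]⟩
    rw [aeval_X, ha] at h1
    exact one_ne_zero h1
  refine ⟨hya, spec_map (K := 𝕜) _ x ?_⟩
  intro P hP
  have hz : ((y a)⁻¹ • y) a = 1 := by
    rw [Pi.smul_apply, smul_eq_mul, inv_mul_cancel₀ hya]
  have h1 : IsForm (homb a P) := ⟨_, homb_hom a P⟩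
  rw [← homb_eval _ hz, aeval_zero_of h1 (inv_ne_zero hya)] at hP
  rw [← homb_eval x ha]
  exact hx _ ⟨h1, hP⟩

theorem pt_trdeg (hy : Gen 𝕜 L w y) (a : Fin (n + 1)) {Ω : Type} [Field Ω] [Algebra 𝕜 Ω]
    (x : Fin (n + 1) → Ω) (ha : x a = 1) (hx : ∀ p ∈ Eqs 𝕜 y, aeval x p = 0) :
    Algebra.trdeg 𝕜 (Algebra.adjoin 𝕜 (Set.range x)) ≤ (w : Cardinal) := by
  obtain ⟨hya, ψ, hψ, -⟩ := pt_spec a x ha hx
  exact (trdeg_le_of_surjective ψ hψ).trans_eq (gen_trdeg hy a hya)

theorem pt_trdeg_lt (hy : Gen 𝕜 L w y) (a : Fin (n + 1)) {Ω : Type} [Field Ω] [Algebra 𝕜 Ω]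
    (x : Fin (n + 1) → Ω) (ha : x a = 1) (hx : ∀ p ∈ Eqs 𝕜 y, aeval x p = 0)
    {G : MvPolynomial (Fin (n + 1)) 𝕜} (hG : IsForm G) (hyG : aeval y G ≠ 0)
    (hxG : aeval x G = 0) :
    Algebra.trdeg 𝕜 (Algebra.adjoin 𝕜 (Set.range x)) < (w : Cardinal) := by
  obtain ⟨hya, ψ, hψ, hψ2⟩ := pt_spec a x ha hx
  by_contra hcon
  push Not at hcon
  have h1 := surj_inj ψ hψ ((gen_trdeg hy a hya).trans_lt Cardinal.natCast_lt_aleph0)
    ((gen_trdeg hy a hya).trans_le hcon)
  apply hyG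
  rw [← aeval_zero_of hG (inv_ne_zero hya) y]
  have h3 : aeval (hatc 𝕜 ((y a)⁻¹ • y)) G = 0 := by
    apply h1
    rw [hψ2, map_zero]
    apply Subtype.ext
    rw [hatc_aeval, hxG]
    rfl
  rw [← hatc_aeval, h3]
  rfl

end

/-- general linear combinations of the forms `h k` have only the zeros of all `h k` -/
theorem gen_forms {n : ℕ} (S : Set (MvPolynomial (Fin (n + 1)) 𝕜)) (hS : ∀ p ∈ S, IsForm p)
    (r : ℕ) (hr : ∀ (Ω : Type) [Field Ω] [Algebra 𝕜 Ω] (x : Fin (n + 1) → Ω) (a : Fin (n + 1)),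
      x a = 1 → (∀ p ∈ S, aeval x p = 0) →
      Algebra.trdeg 𝕜 (Algebra.adjoin 𝕜 (Set.range x)) < (r : Cardinal))
    {κ : Type} [Fintype κ] (h : κ → MvPolynomial (Fin (n + 1)) 𝕜) (d : ℕ)
    (hh : ∀ k, (h k).IsHomogeneous d) :
    ∃ Δ : MvPolynomial (Fin r × κ) 𝕜, Δ ≠ 0 ∧ ∀ c : Fin r × κ → 𝕜, eval c Δ ≠ 0 →
      ∀ (Ω : Type) [Field Ω] [Algebra 𝕜 Ω] (x : Fin (n + 1) → Ω), x ≠ 0 →
        (∀ p ∈ S, aeval x p = 0) → (∀ i, ∑ k, algebraMap 𝕜 Ω (c (i, k)) * aeval x (h k) = 0) →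
        ∀ k, aeval x (h k) = 0 := by
  classical
  have key : ∀ T : Fin (n + 1) × κ, ∃ Δ : MvPolynomial (Fin r × κ) 𝕜, Δ ≠ 0 ∧
      ∀ (Ω : Type) [Field Ω] [Algebra 𝕜 Ω] (c : Fin r × κ → Ω) (x : Fin (n + 1) → Ω),
        aeval c Δ ≠ 0 → (∀ p ∈ S, aeval x p = 0) → (∀ i, ∑ k, c (i, k) * aeval x (h k) = 0) →
        x T.1 * aeval x (h T.2) = 0 := by
    rintro ⟨a, k₀⟩
    obtain ⟨Δ, hΔ, hD⟩ := t_spec 𝕜 (Fin r × κ) (Fin (n + 1)) (S ⊕ Fin r)
      (Sum.elim (fun p : S => rename Sum.inr (p : MvPolynomial (Fin (n + 1)) 𝕜))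
        fun i => ∑ k, X (Sum.inl (i, k)) * rename Sum.inr (h k))
      (X (Sum.inr a) * rename Sum.inr (h k₀)) (by
      intro Ω _ _ c x hc hP
      rw [map_mul, aeval_X, aeval_rename, Sum.elim_comp_inr, Sum.elim_inr]
      by_contra hcon
      have hxa := left_ne_zero_of_mul hcon
      have hxh := right_ne_zero_of_mul hcon
      obtain ⟨x', hx'⟩ : ∃ x' : Fin (n + 1) → Ω, x' = (x a)⁻¹ • x := ⟨_, rfl⟩
      have hx'a : x' a = 1 := by
        rw [hx', Pi.smul_apply, smul_eq_mul, inv_mul_cancel₀ hxa]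
      have hS' : ∀ p ∈ S, aeval x' p = 0 := by
        intro p hp
        rw [hx', aeval_zero_of (hS p hp) (inv_ne_zero hxa)]
        have h1 := hP (Sum.inl ⟨p, hp⟩)
        simp only [Sum.elim_inl] at h1
        rwa [aeval_rename, Sum.elim_comp_inr] at h1
      have hsc : ∀ k, aeval x' (h k) = (x a)⁻¹ ^ d * aeval x (h k) := by
        intro k
        rw [hx']
        exact aeval_scale (hh k) _ _
      have hl : ∀ i, ∑ k, c (i, k) * aeval x' (h k) = 0 := by
        intro i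
        have h1 := hP (Sum.inr i)
        simp only [Sum.elim_inr] at h1
        rw [map_sum] at h1
        have h2 : ∑ k, c (i, k) * aeval x' (h k) =
            (x a)⁻¹ ^ d * ∑ k, c (i, k) * aeval x (h k) := by
          rw [Finset.mul_sum]
          refine Finset.sum_congr rfl fun k _ => ?_
          rw [hsc]
          ring
        rw [h2]
        have h3 : ∑ k, c (i, k) * aeval x (h k) = 0 := by
          rw [← h1]
          refine Finset.sum_congr rfl fun k _ => ?_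
          rw [map_mul, aeval_X, Sum.elim_inl, aeval_rename, Sum.elim_comp_inr]
        rw [h3, mul_zero]
      obtain ⟨P, hPdef⟩ : ∃ P : Matrix (Fin r) (Fin r × κ) (MvPolynomial (Fin (n + 1)) 𝕜),
        P = Matrix.of fun b s => if b = s.1 then h s.2 else 0 := ⟨_, rfl⟩
      have h1 := t_count 𝕜 Ω (Fin r) (Fin r × κ) (Fin (n + 1)) x' c hc P (by
        intro b
        rw [Fintype.sum_prod_type, Finset.sum_eq_single b]
        · rw [← hl b]
          refine Finset.sum_congr rfl fun k _ => ?_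
          rw [hPdef, Matrix.of_apply, if_pos rfl, mul_comm]
        · intro b' _ hb'
          refine Finset.sum_eq_zero fun k _ => ?_
          rw [hPdef, Matrix.of_apply, if_neg (fun h => hb' h.symm), map_zero, zero_mul]
        · intro hb
          exact absurd (Finset.mem_univ b) hb)
      have h2 := h1.trans_lt (hr Ω x' a hx'a hS')
      have h3 : (P.map fun p => (aeval x' p : Ω)).rank < r := by exact_mod_cast h2
      have h4 : ((P.map fun p => (aeval x' p : Ω)).submatrix (fun b : Fin r => b)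
          (fun b : Fin r => (b, k₀))) = Matrix.diagonal fun _ => aeval x' (h k₀) := by
        ext i j
        rw [Matrix.submatrix_apply, Matrix.map_apply, hPdef, Matrix.of_apply,
          Matrix.diagonal_apply]
        by_cases hij : i = j
        · rw [if_pos hij, if_pos hij]
        · rw [if_neg hij, if_neg hij, map_zero]
      have h5 := Matrix.rank_submatrix_le (P.map fun p => (aeval x' p : Ω))
        (fun b : Fin r => b) (fun b : Fin r => (b, k₀))
      rw [h4, Matrix.rank_diagonal] at h5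
      have h6 : Fintype.card {i : Fin r // aeval x' (h k₀) ≠ 0} = r := by
        have h7 : ∀ i : Fin r, aeval x' (h k₀) ≠ 0 := by
          intro _
          rw [hsc]
          exact mul_ne_zero (pow_ne_zero _ (inv_ne_zero hxa)) hxh
        rw [Fintype.card_congr (Equiv.subtypeUnivEquiv h7), Fintype.card_fin]
      rw [h6] at h5
      omega)
    refine ⟨Δ, hΔ, fun Ω _ _ c x hc hS' hl => ?_⟩
    have h1 := hD Ω c x hc (by
      rintro (p | i)
      · simp only [Sum.elim_inl]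
        rw [aeval_rename, Sum.elim_comp_inr]
        exact hS' p p.2
      · simp only [Sum.elim_inr]
        rw [map_sum, ← hl i]
        refine Finset.sum_congr rfl fun k _ => ?_
        rw [map_mul, aeval_X, Sum.elim_inl, aeval_rename, Sum.elim_comp_inr])
    rwa [map_mul, aeval_X, aeval_rename, Sum.elim_comp_inr, Sum.elim_inr] at h1
  choose Δ hΔ hD using key
  refine ⟨∏ T, Δ T, Finset.prod_ne_zero_iff.2 fun T _ => hΔ T, ?_⟩
  intro c hc Ω _ _ x hx hxS hl k
  obtain ⟨a, ha⟩ : ∃ a, x a ≠ 0 := by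
    by_contra hcon
    push Not at hcon
    exact hx (funext hcon)
  rw [map_prod, Finset.prod_ne_zero_iff] at hc
  have h1 := hD (a, k) Ω (fun s => algebraMap 𝕜 Ω (c s)) x (by
    have h3 : aeval (fun s => algebraMap 𝕜 Ω (c s)) (Δ (a, k)) =
      algebraMap 𝕜 Ω (aeval c (Δ (a, k))) := aeval_algebraMap_apply Ω c _
    rw [h3]
    intro h0
    apply hc (a, k) (Finset.mem_univ _)
    exact (algebraMap 𝕜 Ω).injective (h0.trans (map_zero _).symm)) hxS hl
  exact (mul_eq_zero.1 h1).resolve_left ha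

end Pool.Agent.H911.KR
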