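import Pool.Agent.H911.KR.BaseL
import Pool.Agent.H911.KR.Pair
import Pool.Agent.H911.KD.Main

/-!
A hypersurface over a field `𝕜` of characteristic zero, with a small singular locus, through a given
variety over `𝕜` in a linear subspace: for all embeddings of `𝕜` in `ℂ` its entire curves and its closed
subvarieties of positive dimension which are not of general type are in the variety.
-/

set_option autoImplicit false

namespace Pool.Agent.H911.KR

open MvPolynomial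
open Pool.Agent.N254.SQ (leaves4 hyp powerFormOver SmoothOver)
open Pool.Agent.W602.GT (SubVar GeneralType val coords)
open Pool.Agent.H911.QD (emb emb_inj emb_surj emb_val ext_apply ext_smul)

variable {𝕜 : Type} [Field 𝕜] [CharZero 𝕜]

omit [CharZero 𝕜] in
/-- The singular locus of the hypersurface `A = 0` over `𝕜` is of dimension less than `k`: some `k`
linear forms over `𝕜` have no common zero on it (over any field extension). For `k = 0` the hypersurface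
is smooth. -/
def SmallSing {N : ℕ} (k : ℕ) (A : MvPolynomial (Fin (N + 1)) 𝕜) : Prop :=
  ∃ l : Fin k → Fin (N + 1) → 𝕜, ∀ (Ω : Type) [Field Ω] (τ : 𝕜 →+* Ω) (x : Fin (N + 1) → Ω),
    x ≠ 0 → (∀ i, ∑ j, τ (l i j) * x j = 0) → ∃ j, eval₂ τ x (pderiv j A) ≠ 0

/-- the properties of the hypersurface `A = 0` through the variety with generic point `z` -/
structure PropK {N : ℕ} (k : ℕ) {L : Type} [Field L] [Algebra 𝕜 L] (z : Fin (N + 1) → L)
    (A : MvPolynomial (Fin (N + 1)) 𝕜) : Prop where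
  form : IsForm A
  sing : SmallSing k A
  out : ∀ (Ω : Type) [Field Ω] [Algebra 𝕜 Ω] (x : Fin (N + 1) → Ω), x ≠ 0 →
    (∀ j, aeval x (pderiv j A) = 0) → ∀ p ∈ Eqs 𝕜 z, aeval x p = 0
  van : ∀ (Ω : Type) [Field Ω] [Algebra 𝕜 Ω] (x : Fin (N + 1) → Ω),
    (∀ p ∈ Eqs 𝕜 z, aeval x p = 0) → aeval x A = 0
  sub : ∀ (σ : 𝕜 →+* ℂ) (L' : Type) [Field L'] [Algebra ℂ L'] (w : ℕ) (y : Fin (N + 1) → L'),
    1 ≤ w → SubVar (fun _ : Unit => map σ A) L' w y →
      GeneralType ℂ L' w ∨ ∀ p ∈ Eqs 𝕜 z, aeval y (map σ p) = 0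
  curves : ∀ (σ : 𝕜 →+* ℂ) (f : ℂ → Fin (N + 1) → ℂ), Differentiable ℂ f → (∀ w, f w ≠ 0) →
    (∀ w, eval₂ σ (f w) A = 0) →
    (∀ a b, ∃ c : ℂ, f b = c • f a) ∨ ∀ w, ∀ p ∈ Eqs 𝕜 z, eval₂ σ (f w) p = 0

omit [CharZero 𝕜] in
/-- the hypersurface is not the whole space -/
theorem small_ne {N k : ℕ} (hk : k ≤ N) {A : MvPolynomial (Fin (N + 1)) 𝕜} (hA : SmallSing k A) :
    A ≠ 0 := by
  obtain ⟨l, hl⟩ := hA
  rintro rfl
  let φ : (Fin (N + 1) → 𝕜) →ₗ[𝕜] (Fin k → 𝕜) := (Matrix.of l).mulVecLin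
  have h1 : 0 < Module.finrank 𝕜 (LinearMap.ker φ) := by
    have h2 := LinearMap.finrank_range_add_finrank_ker φ
    have h3 := Submodule.finrank_le (LinearMap.range φ)
    rw [Module.finrank_fin_fun] at h2 h3
    omega
  have h4 := Module.nontrivial_of_finrank_pos h1
  obtain ⟨⟨x, hx⟩, hx0⟩ := exists_ne (0 : LinearMap.ker φ)
  obtain ⟨j, hj⟩ := hl 𝕜 (RingHom.id 𝕜) x (fun h => hx0 (Subtype.ext h)) (fun i => by
    have h2 := congrFun (LinearMap.mem_ker.1 hx) i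
    exact h2)
  rw [map_zero, eval₂_zero] at hj
  exact hj rfl

omit [CharZero 𝕜] in
/-- smooth hypersurfaces -/
theorem small_zero {N : ℕ} {A : MvPolynomial (Fin (N + 1)) 𝕜} : SmallSing 0 A ↔ SmoothOver A := by
  constructor
  · rintro ⟨l, hl⟩ Ω _ τ x hx
    exact hl Ω τ x hx fun i => i.elim0
  · intro h
    exact ⟨fun i => i.elim0, fun Ω _ τ x hx _ => h Ω τ x hx⟩

section

variable {κ : Type} {n N : ℕ} (h : n ≤ N) {e : ℕ} {F : κ → MvPolynomial (Fin (n + 1)) 𝕜}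

/-- the pointwise condition -/
theorem bases_ptk [Fintype κ] {L : Type} [Field L] [Algebra 𝕜 L] {w k : ℕ}
    {z : Fin (n + 1) → L} (hz : Gen 𝕜 L w z) (hN : n + w ≤ N + k)
    (hV : ∀ (Ω : Type) [Field Ω] [Algebra 𝕜 Ω] (x : Fin (n + 1) → Ω),
      (∀ k, aeval x (F k) = 0) → ∀ p ∈ Eqs 𝕜 z, aeval x p = 0)
    (hF : ∀ k, (F k).IsHomogeneous e)
    (hd : ∃ k i, aeval z (pderiv i (F k)) ≠ 0) (Ω : Type) [Field Ω] [Algebra 𝕜 Ω]
    (x : Fin (N + 1) → Ω) (a : Fin (N + 1)) (ha : x a = 1)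
    (hq : ∀ i, aeval x (bqs h e F i) = 0) :
    Algebra.trdeg 𝕜 (Algebra.adjoin 𝕜 (Set.range x)) <
      (((Matrix.of fun i j => (aeval x (pderiv j (bqs h e F i)) : Ω)).rank + k : ℕ) :
        Cardinal) := by
  have hx0 : x ≠ 0 := by
    intro h1
    rw [h1] at ha
    exact zero_ne_one ha
  obtain ⟨h1, h2⟩ := bqs_zero h x hx0 hq
  rw [QD.range_eq h x h1]
  obtain ⟨b, hb⟩ := emb_surj h a (by
    by_contra hcon
    push Not at hcon
    rw [h1 a hcon] at ha
    exact zero_ne_one ha)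
  have hb1 : x (emb h b) = 1 := by rw [hb, ha]
  have hE := hV Ω _ h2
  change _ < (((jacs h e F x).rank + k : ℕ) : Cardinal)
  obtain ⟨k₀, i, hki⟩ := hd
  by_cases hki' : aeval (fun j => x (emb h j)) (pderiv i (F k₀)) = 0
  · have h3 := pt_trdeg_lt hz b (fun j => x (emb h j)) hb1 hE
      ⟨_, (hF k₀).pderiv⟩ hki hki'
    have h4 := jacs_rank (e := e) (F := F) h x a ha h1
    refine h3.trans_le ?_
    have h5 : w ≤ (jacs h e F x).rank + k := by omega
    exact_mod_cast h5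
  · have h3 := pt_trdeg hz b (fun j => x (emb h j)) hb1 hE
    have h4 := jacs_rank2 (e := e) h x a ha h1 k₀ i hki'
    refine h3.trans_lt ?_
    have h5 : w < (jacs h e F x).rank + k := by omega
    exact_mod_cast h5

end

/-- values under an embedding of the ground field -/
theorem map_val {n : ℕ} {Ω : Type} [Field Ω] (σ : 𝕜 →+* ℂ) [Algebra ℂ Ω] [Algebra 𝕜 Ω]
    (hσ : algebraMap 𝕜 Ω = (algebraMap ℂ Ω).comp σ) (x : Fin (n + 1) → Ω)
    (p : MvPolynomial (Fin (n + 1)) 𝕜) : aeval x (map σ p) = aeval x p := by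
  rw [aeval_def, aeval_def, eval₂_map, hσ]

/-- extension by zero and equations -/
theorem ext_eqs {M N : ℕ} (h : M ≤ N) {L : Type} [Field L] [Algebra 𝕜 L] {z : Fin (M + 1) → L}
    {Ω : Type} [Field Ω] [Algebra 𝕜 Ω] {x : Fin (N + 1) → Ω}
    (h1 : ∀ i : Fin (N + 1), M < (i : ℕ) → x i = 0)
    (h2 : ∀ p ∈ Eqs 𝕜 z, aeval (fun j => x (emb h j)) p = 0) :
    ∀ p ∈ Eqs 𝕜 (QD.ext N z), aeval x p = 0 := by
  rintro p ⟨hp, hpz⟩
  have hT : ∀ i, ((QD.ext N (X : Fin (M + 1) → MvPolynomial (Fin (M + 1)) 𝕜)) i).IsHomogeneous 1 := by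
    intro i
    unfold Pool.Agent.H911.QD.ext
    split_ifs
    · exact isHomogeneous_X 𝕜 _
    · exact isHomogeneous_zero _ _ _
  have hev : ∀ (Ω : Type) [Field Ω] [Algebra 𝕜 Ω] (u : Fin (M + 1) → Ω),
      (fun i => aeval u (QD.ext N (X : Fin (M + 1) → MvPolynomial (Fin (M + 1)) 𝕜) i)) =
        QD.ext N u := by
    intro Ω _ _ u
    funext i
    unfold Pool.Agent.H911.QD.ext
    split_ifs
    · rw [aeval_X]
    · rw [map_zero]
  have h3 := h2 (bind₁ (QD.ext N X) p) ⟨bind_form hT hp, by rw [bind_eval, hev]; exact hpz⟩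
  rw [bind_eval, hev] at h3
  have h4 : QD.ext N (fun j => x (emb h j)) = x := by
    funext i
    unfold Pool.Agent.H911.QD.ext
    split_ifs with hi
    · rfl
    · exact (h1 i (by omega)).symm
  rwa [h4] at h3

theorem eqs_ext {M N : ℕ} (h : M ≤ N) {L : Type} [Field L] [Algebra 𝕜 L] {z : Fin (M + 1) → L}
    {Ω : Type} [Field Ω] [Algebra 𝕜 Ω] {x : Fin (N + 1) → Ω}
    (hx : ∀ p ∈ Eqs 𝕜 (QD.ext N z), aeval x p = 0) :
    (∀ i : Fin (N + 1), M < (i : ℕ) → x i = 0) ∧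
      ∀ p ∈ Eqs 𝕜 z, aeval (fun j => x (emb h j)) p = 0 := by
  constructor
  · intro i hi
    have h1 := hx (X i) ⟨⟨1, isHomogeneous_X 𝕜 i⟩, by
      rw [aeval_X]
      unfold Pool.Agent.H911.QD.ext
      rw [dif_neg (by omega)]⟩
    rwa [aeval_X] at h1
  · rintro p ⟨⟨e, he⟩, hpz⟩
    have h1 := hx (rename (emb h) p) ⟨⟨e, he.rename_isHomogeneous⟩, by
      rw [aeval_rename]
      have h2 : (QD.ext N z) ∘ (emb h) = z := funext fun i => ext_apply h z i
      rw [h2]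
      exact hpz⟩
    rwa [aeval_rename] at h1

/-- the generic point in a larger projective space -/
theorem gen_ext {M N : ℕ} (h : M ≤ N) {L : Type} [Field L] [Algebra 𝕜 L] {w : ℕ}
    {z : Fin (M + 1) → L} (hz : Gen 𝕜 L w z) : Gen 𝕜 L w (QD.ext N z) := by
  have hem : ∀ i, QD.ext N z (emb h i) = z i := fun i => ext_apply h z i
  refine ⟨?_, ?_, hz.dim⟩
  · intro h0
    apply hz.ne
    funext i
    rw [← hem i, h0]
    rfl
  · rw [eq_top_iff, ← hz.gen]
    refine IntermediateField.adjoin_le_iff.2 ?_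
    rintro _ ⟨i, j, hj, rfl⟩
    refine IntermediateField.subset_adjoin 𝕜 _ ⟨emb h i, emb h j, ?_, ?_⟩
    · rw [hem]
      exact hj
    · rw [hem, hem]

/-- the generic point of the projection -/
theorem gen_mdl {n M : ℕ} {L : Type} [Field L] [Algebra 𝕜 L] {w : ℕ} {y : Fin (n + 1) → L}
    (hy : Gen 𝕜 L w y) {A : Fin (M + 1) → MvPolynomial (Fin (n + 1)) 𝕜} (hA : Mdl y A) :
    Gen 𝕜 L w (fun i => aeval y (A i)) := by
  refine ⟨?_, hA.bir, hy.dim⟩
  obtain ⟨i, hi⟩ := hA.reg L y hy.ne (fun p hp => hp.2)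
  intro h
  exact hi (congrFun h i)

theorem exists_hypk (N e k : ℕ) (hN1 : 1 ≤ N) (he : 1 ≤ e) : ∃ D₁ : ℕ, ∀ D, D₁ ≤ D →
    ∀ (𝕜 : Type) [Field 𝕜] [CharZero 𝕜]
      (M : ℕ) (_ : M ≤ N) (w : ℕ) (L : Type) [Field L] [Algebra 𝕜 L] (z : Fin (M + 1) → L),
      Gen 𝕜 L w z → M + w ≤ N + k → ∀ (κ : Type) [Fintype κ]
      (F : κ → MvPolynomial (Fin (M + 1)) 𝕜),
      (∀ k, (F k).IsHomogeneous e) → (∀ k, aeval z (F k) = 0) →
      (∀ (Ω : Type) [Field Ω] [Algebra 𝕜 Ω] (x : Fin (M + 1) → Ω), (∀ k, aeval x (F k) = 0) →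
        ∀ p ∈ Eqs 𝕜 z, aeval x p = 0) → (∃ k i, aeval z (pderiv i (F k)) ≠ 0) →
      ∃ Q : Fin (N * (2 * N + 1)) → MvPolynomial (Fin (N + 1)) 𝕜,
        (∀ t, (Q t).IsHomogeneous e) ∧ PropK k (QD.ext N z) (powerFormOver D Q) := by
  obtain ⟨D₁, H⟩ := Pool.Agent.H911.KD.main_fourk leaves4 N e k hN1 he
  refine ⟨D₁, fun D hD 𝕜 _ _ M h w L _ _ z hz hNw κ _ F hF hFz hV hd => ?_⟩
  obtain ⟨c, l, hc1, hc0, hc2⟩ := H D hD 𝕜 _ (bqs h e F) (bqs_hom h he hF)
    (fun Ω _ _ x a ha hq => bases_ptk h hz hNw hV hF hd Ω x a ha hq)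
  have hhom : ∀ t, (∑ i, C (c (t, i)) * bqs h e F i).IsHomogeneous e := by
    intro t
    refine IsHomogeneous.sum _ _ _ fun i _ => ?_
    have h2 := (isHomogeneous_C (Fin (N + 1)) (c (t, i))).mul (bqs_hom h he hF i)
    rwa [zero_add] at h2
  have hA : powerFormOver D (fun t => ∑ i, C (c (t, i)) * bqs h e F i) = hyp (bqs h e F) D c := rfl
  -- zeros of all `q i`
  have hzero : ∀ (Ω : Type) [Field Ω] [Algebra 𝕜 Ω] (x : Fin (N + 1) → Ω), x ≠ 0 →
      (∀ i, aeval x (bqs h e F i) = 0) → ∀ p ∈ Eqs 𝕜 (QD.ext N z), aeval x p = 0 := by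
    intro Ω _ _ x hx hq
    obtain ⟨h1, h2⟩ := bqs_zero h x hx hq
    exact ext_eqs h h1 (hV Ω _ h2)
  refine ⟨fun t => ∑ i, C (c (t, i)) * bqs h e F i, hhom, ?_⟩
  rw [hA]
  refine ⟨?_, ?_, ?_, ?_, ?_, ?_⟩
  · refine ⟨e + D, ?_⟩
    rw [← hA]
    refine IsHomogeneous.sum _ _ _ fun t _ => ?_
    refine (hhom t).mul ?_
    have h1 : (∑ j : Fin (N + 1), C (((t : ℕ) : 𝕜) ^ (j : ℕ)) * X j :
        MvPolynomial (Fin (N + 1)) 𝕜).IsHomogeneous 1 := by
      refine IsHomogeneous.sum _ _ _ fun j _ => ?_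
      have h2 := (isHomogeneous_C (Fin (N + 1)) (((t : ℕ) : 𝕜) ^ (j : ℕ))).mul
        (isHomogeneous_X 𝕜 j)
      rwa [zero_add] at h2
    have h2 := h1.pow D
    rwa [one_mul] at h2
  · refine ⟨l, fun Ω _ τ y hy hly => ?_⟩
    obtain ⟨j, hj⟩ := hc1 Ω τ y hy hly
    refine ⟨j, ?_⟩
    rw [pderiv_map, eval_map] at hj
    exact hj
  · intro Ω _ _ x hx hs
    refine hzero Ω x hx fun i => ?_
    have h1 := hc0 Ω (algebraMap 𝕜 Ω) x hx (fun j => by
      rw [pderiv_map, eval_map]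
      exact hs j) i
    rw [eval_map] at h1
    exact h1
  · intro Ω _ _ x hx
    obtain ⟨h1, h2⟩ := eqs_ext h hx
    have h3 := bqs_of h (e := e) x h1 (fun k => h2 (F k) ⟨⟨e, hF k⟩, hFz k⟩)
    unfold hyp
    rw [map_sum]
    refine Finset.sum_eq_zero fun t _ => ?_
    rw [map_mul, map_sum, Finset.sum_eq_zero, zero_mul]
    intro i _
    rw [map_mul, h3 i, mul_zero]
  · intro σ L' _ _ w' y' hw' hy'
    rcases (hc2 σ).2.1 L' w' y' hw' hy' with h1 | h1
    · right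
      let _ : Algebra 𝕜 L' := ((algebraMap ℂ L').comp σ).toAlgebra
      intro p hp
      rw [map_val σ rfl]
      refine hzero L' y' hy'.ne (fun i => ?_) p hp
      rw [← map_val σ rfl]
      exact h1 i
    · exact Or.inl h1
  · intro σ f hf hf0 hfA
    by_cases hcon : ∀ a b, ∃ c : ℂ, f b = c • f a
    · exact Or.inl hcon
    · right
      intro w
      have hnc : ∃ i j z w, f z i * f w j ≠ f z j * f w i := by
        by_contra h2
        push Not at h2
        apply hcon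
        intro z w
        obtain ⟨j0, hj0⟩ : ∃ j, f z j ≠ 0 := by
          by_contra h3
          push Not at h3
          exact hf0 z (funext h3)
        refine ⟨f w j0 / f z j0, funext fun i => ?_⟩
        rw [Pi.smul_apply, smul_eq_mul, div_mul_eq_mul_div, eq_div_iff hj0]
        exact h2 i j0 w z
      have h1 := (hc2 σ).1 (fun j z => f z j) (fun j => (differentiable_pi.1 hf) j)
        (fun z => by
          by_contra h2
          push Not at h2
          exact hf0 z (funext h2)) (fun z => by rw [eval_map]; exact hfA z) hnc w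
      let _ : Algebra 𝕜 ℂ := σ.toAlgebra
      have h2 := hzero ℂ (f w) (hf0 w) (fun i => by
        have h3 := h1 i
        rw [eval_map] at h3
        exact h3)
      exact fun p hp => h2 p hp

end Pool.Agent.H911.KR
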