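import Pool.Agent.H911.KR.Typ
import Pool.Agent.H911.EM.Lang

/-!
Points over field extensions of closed subsets of projective spaces over a field `𝕜`, and finite
birational projections over `𝕜`.
-/

set_option autoImplicit false

namespace Pool.Agent.H911.KR

open MvPolynomial
open scoped LinearAlgebra.Projectivization
open Pool.Agent.N254.SQ (projPoints ProjectiveBLV reduce)
open Pool.Agent.W602.GT (coords)
open Pool.Agent.H911.EM (rep_iff)

variable {𝕜 : Type} [Field 𝕜]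

/-- the points of `V(S)` over `L` outside of `G = 0` -/
def offPts (L : Type) [Field L] [Algebra 𝕜 L] {n : ℕ} (S : Set (MvPolynomial (Fin (n + 1)) 𝕜))
    (G : MvPolynomial (Fin (n + 1)) 𝕜) : Set (ℙ L (Fin (n + 1) → L)) :=
  {P | (∀ p ∈ S, aeval P.rep p = 0) ∧ aeval P.rep G ≠ 0}

/-- only finitely many points of `V(S)` over `L` are outside of `G = 0` -/
def FinOver (L : Type) [Field L] [Algebra 𝕜 L] {n : ℕ} (S : Set (MvPolynomial (Fin (n + 1)) 𝕜))
    (G : MvPolynomial (Fin (n + 1)) 𝕜) : Prop := (offPts L S G).Finite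

section typ

variable (L : Type) [Field L] [Algebra 𝕜 L]

theorem fo_idl (n : ℕ) (S : Set (MvPolynomial (Fin (n + 1)) 𝕜)) : Idl (FinOver L S) where
  zero := by
    refine Set.Finite.subset Set.finite_empty ?_
    rintro P ⟨-, hP⟩
    exact hP (map_zero _)
  add := fun e G G' _ _ h h' => by
    refine (Set.Finite.union h h').subset ?_
    rintro P ⟨hP, hG⟩
    by_cases h1 : aeval P.rep G = 0
    · right
      refine ⟨hP, fun h2 => hG ?_⟩
      rw [map_add, h1, h2, add_zero]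
    · exact Or.inl ⟨hP, h1⟩
  mul := fun G F _ _ h => by
    refine Set.Finite.subset h ?_
    rintro P ⟨hP, hG⟩
    refine ⟨hP, fun h1 => hG ?_⟩
    rw [map_mul, h1, zero_mul]
  rad := fun G r _ h => by
    refine Set.Finite.subset h ?_
    rintro P ⟨hP, hG⟩
    refine ⟨hP, ?_⟩
    rw [map_pow]
    exact pow_ne_zero r hG

theorem fo_restr (n : ℕ) (S : Set (MvPolynomial (Fin (n + 1)) 𝕜)) (L' : Type) [Field L']
    [Algebra 𝕜 L'] (y : Fin (n + 1) → L') (G H : MvPolynomial (Fin (n + 1)) 𝕜)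
    (hF : ∀ F, IsForm F → aeval y F = 0 → FinOver L S (F * H)) (hG : FinOver L (Eqs 𝕜 y) G) :
    FinOver L S (G * H) := by
  obtain ⟨T, hT, hTS⟩ := reduce (Eqs 𝕜 y)
  have h1 : (⋃ F ∈ T, offPts L S (F * H)).Finite := by
    refine Set.Finite.biUnion (Finset.finite_toSet T) fun F hFT => ?_
    exact hF F (hT hFT).1 (hT hFT).2
  refine (h1.union hG).subset ?_
  rintro P ⟨hP, hGH⟩
  rw [map_mul] at hGH
  by_cases h2 : ∀ F ∈ T, aeval P.rep F = 0
  · right
    refine ⟨fun p hp => ?_, left_ne_zero_of_mul hGH⟩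
    have h3 := hTS L (algebraMap 𝕜 L) P.rep (fun q hq => by
      rw [eval_map]
      exact h2 q hq) p hp
    rw [eval_map] at h3
    exact h3
  · left
    push Not at h2
    obtain ⟨F, hFT, hF0⟩ := h2
    rw [Set.mem_iUnion₂]
    refine ⟨F, hFT, hP, ?_⟩
    rw [map_mul]
    exact mul_ne_zero hF0 (right_ne_zero_of_mul hGH)

theorem fo_van (n : ℕ) (S : Set (MvPolynomial (Fin (n + 1)) 𝕜)) (G : MvPolynomial (Fin (n + 1)) 𝕜)
    (h : ∀ (L : Type) [Field L] [Algebra 𝕜 L] (x : Fin (n + 1) → L),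
      (∀ p ∈ S, aeval x p = 0) → aeval x G = 0) : FinOver L S G := by
  refine Set.Finite.subset Set.finite_empty ?_
  rintro P ⟨hP, hG⟩
  exact hG (h L P.rep hP)

theorem fo_mono (n : ℕ) (S S' : Set (MvPolynomial (Fin (n + 1)) 𝕜))
    (h : ∀ (L : Type) [Field L] [Algebra 𝕜 L] (x : Fin (n + 1) → L),
      (∀ p ∈ S', aeval x p = 0) → ∀ p ∈ S, aeval x p = 0) (G : MvPolynomial (Fin (n + 1)) 𝕜)
    (hG : FinOver L S G) : FinOver L S' G := by
  refine Set.Finite.subset hG ?_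
  rintro P ⟨hP, hG⟩
  exact ⟨h L P.rep hP, hG⟩

theorem fo_coord (n : ℕ) (S : Set (MvPolynomial (Fin (n + 1)) 𝕜))
    (G : MvPolynomial (Fin (n + 1)) 𝕜) (h : ∀ j, FinOver L S (G * X j)) : FinOver L S G := by
  refine (Set.finite_iUnion h).subset ?_
  rintro P ⟨hP, hG⟩
  obtain ⟨j, hj⟩ : ∃ j, P.rep j ≠ 0 := by
    by_contra h1
    push Not at h1
    exact P.rep_nonzero (funext h1)
  rw [Set.mem_iUnion]
  refine ⟨j, hP, ?_⟩
  rw [map_mul, aeval_X]
  exact mul_ne_zero hG hj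

theorem typ_fin : Typ (𝕜 := 𝕜) (fun _ S G => FinOver L S G) where
  idl := fo_idl L
  van := fun n S G _ h => fo_van L n S G h
  restr := fun n S L' _ _ y G H _ _ hF hG => fo_restr L n S L' y G H hF hG
  mono := fo_mono L
  coord := fun n S G _ h => fo_coord L n S G h

/-- finitely many points of `V(S)` outside of `G = 0` over all finite extensions of a number field -/
def FinAll {n : ℕ} (S : Set (MvPolynomial (Fin (n + 1)) 𝕜))
    (G : MvPolynomial (Fin (n + 1)) 𝕜) : Prop :=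
  ∀ (L : Type) [Field L] [NumberField L] [Algebra 𝕜 L], FinOver L S G

omit [Field L] [Algebra 𝕜 L] L in
theorem typ_all : Typ (𝕜 := 𝕜) (fun _ S G => FinAll S G) where
  idl := fun n S =>
    ⟨fun L _ _ _ => (fo_idl L n S).zero,
      fun e G G' hG hG' h h' L _ _ _ => (fo_idl L n S).add e G G' hG hG' (h L) (h' L),
      fun G F hG hF h L _ _ _ => (fo_idl L n S).mul G F hG hF (h L),
      fun G r hG h L _ _ _ => (fo_idl L n S).rad G r hG (h L)⟩
  van := fun n S G _ h L _ _ _ => fo_van L n S G h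
  restr := fun n S L' _ _ y G H _ _ hF hG L _ _ _ =>
    fo_restr L n S L' y G H (fun F h1 h2 => hF F h1 h2 L) (hG L)
  mono := fun n S S' h G hG L _ _ _ => fo_mono L n S S' h G (hG L)
  coord := fun n S G _ h L _ _ _ => fo_coord L n S G fun j => h j L

end typ

/-- finiteness under injective maps given by forms -/
theorem fin_map (L : Type) [Field L] [Algebra 𝕜 L] {n N : ℕ}
    (B : Fin (N + 1) → MvPolynomial (Fin (n + 1)) 𝕜) {U : Set (ℙ L (Fin (n + 1) → L))}
    {W : Set (ℙ L (Fin (N + 1) → L))} (hW : W.Finite)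
    (h1 : ∀ P ∈ U, ∃ h : (fun i => aeval P.rep (B i)) ≠ (0 : Fin (N + 1) → L),
      Projectivization.mk L _ h ∈ W)
    (h2 : ∀ P ∈ U, ∀ P' ∈ U, ∀ c : L, (fun i => aeval P.rep (B i)) =
      c • (fun i => (aeval P'.rep (B i) : L)) → ∃ c' : L, P.rep = c' • P'.rep) : U.Finite := by
  classical
  obtain ⟨φ, hφ⟩ : ∃ φ : ℙ L (Fin (n + 1) → L) → ℙ L (Fin (N + 1) → L),
      ∀ P : ℙ L (Fin (n + 1) → L), ∀ h : (fun i => aeval P.rep (B i)) ≠ (0 : Fin (N + 1) → L),
        φ P = Projectivization.mk L (fun i => aeval P.rep (B i)) h := by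
    refine ⟨fun P => if hP : (fun i => aeval P.rep (B i)) = (0 : Fin (N + 1) → L) then
      Projectivization.mk L (fun _ => 1) (fun h2 => one_ne_zero (congrFun h2 0)) else
      Projectivization.mk L (fun i => aeval P.rep (B i)) hP, fun P h => ?_⟩
    simp only [dif_neg h]
  refine Set.Finite.of_finite_image (f := φ) (hW.subset ?_) ?_
  · rintro _ ⟨P, hP, rfl⟩
    obtain ⟨h, hm⟩ := h1 P hP
    rw [hφ P h]
    exact hm
  · intro P hP P' hP' hPP
    obtain ⟨h, -⟩ := h1 P hP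
    obtain ⟨h', -⟩ := h1 P' hP'
    rw [hφ P h, hφ P' h'] at hPP
    obtain ⟨a, ha⟩ := (Projectivization.mk_eq_mk_iff L _ _ _ _).1 hPP
    obtain ⟨c, hc⟩ := h2 P hP P' hP' (a : L) ha.symm
    have hc0 : c ≠ 0 := by
      rintro rfl
      rw [zero_smul] at hc
      exact P.rep_nonzero hc
    rw [← P.mk_rep, ← P'.mk_rep, Projectivization.mk_eq_mk_iff]
    exact ⟨Units.mk0 c hc0, hc.symm⟩

section

variable [CharZero 𝕜] {n N : ℕ} {L' : Type} [Field L'] [Algebra 𝕜 L'] {y : Fin (n + 1) → L'}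
  {z : Fin (N + 1) → L'} {A : Fin (N + 1) → MvPolynomial (Fin (n + 1)) 𝕜}
  {R : Fin (n + 1) → MvPolynomial (Fin (N + 1)) 𝕜} {H : MvPolynomial (Fin (N + 1)) 𝕜}
  (hP : Pair y z A R H) (L : Type) [Field L] [Algebra 𝕜 L]
include hP

theorem fin_pull {G : MvPolynomial (Fin (N + 1)) 𝕜} (hGf : IsForm G)
    (hG : FinOver L (Eqs 𝕜 z) G) : FinOver L (Eqs 𝕜 y) (bind₁ A (G * H)) := by
  obtain ⟨r, hH, hR⟩ := hP.homR
  have hRA : ∀ P ∈ offPts L (Eqs 𝕜 y) (bind₁ A (G * H)), ∀ j,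
      aeval (fun i => aeval P.rep (A i)) (R j) =
      (aeval (fun i => aeval P.rep (A i)) H : L) * P.rep j := fun P hPm j => hP.RA hPm.1 j
  have hne : ∀ P ∈ offPts L (Eqs 𝕜 y) (bind₁ A (G * H)),
      (aeval (fun i => aeval P.rep (A i)) G : L) ≠ 0 ∧
      (aeval (fun i => aeval P.rep (A i)) H : L) ≠ 0 := by
    rintro P ⟨-, h1⟩
    rw [bind_eval, map_mul] at h1
    exact ⟨left_ne_zero_of_mul h1, right_ne_zero_of_mul h1⟩
  refine fin_map L A hG ?_ ?_
  · intro P hPm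
    obtain ⟨i, hi⟩ := hP.reg L P.rep P.rep_nonzero hPm.1
    have h0 : (fun i => aeval P.rep (A i)) ≠ (0 : Fin (N + 1) → L) := fun h => hi (congrFun h i)
    refine ⟨h0, fun p hp => ?_, ?_⟩
    · rw [rep_iff hp.1]
      exact hP.mapA hPm.1 p hp
    · rw [Ne, rep_iff hGf]
      exact (hne P hPm).1
  · intro P hPm P' hPm' c hc
    have hc0 : c ≠ 0 := by
      rintro rfl
      obtain ⟨i, hi⟩ := hP.reg L P.rep P.rep_nonzero hPm.1
      apply hi
      have h1 := congrFun hc i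
      rw [zero_smul] at h1
      exact h1
    refine ⟨c, funext fun j => ?_⟩
    have h2 := hRA P hPm j
    have h3 := hRA P' hPm' j
    rw [hc, aeval_scale (hR j), aeval_scale hH, h3, pow_succ] at h2
    rw [Pi.smul_apply, smul_eq_mul]
    apply mul_left_cancel₀ (mul_ne_zero (pow_ne_zero r hc0) (hne P' hPm').2)
    linear_combination -h2

theorem fin_push {G : MvPolynomial (Fin (n + 1)) 𝕜} (hGf : IsForm G)
    (hG : FinOver L (Eqs 𝕜 y) G) : FinOver L (Eqs 𝕜 z) (bind₁ R G * H) := by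
  obtain ⟨r, hH, hR⟩ := hP.homR
  have hAR : ∀ P ∈ offPts L (Eqs 𝕜 z) (bind₁ R G * H), ∀ i,
      aeval (fun j => aeval P.rep (R j)) (A i) = (aeval P.rep H : L) * P.rep i :=
    fun P hPm i => hP.AR hPm.1 i
  have hne : ∀ P ∈ offPts L (Eqs 𝕜 z) (bind₁ R G * H),
      (aeval (fun j => aeval P.rep (R j)) G : L) ≠ 0 ∧ (aeval P.rep H : L) ≠ 0 := by
    rintro P ⟨-, h1⟩
    rw [map_mul, bind_eval] at h1
    exact ⟨left_ne_zero_of_mul h1, right_ne_zero_of_mul h1⟩
  have h0 : ∀ P ∈ offPts L (Eqs 𝕜 z) (bind₁ R G * H),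
      (fun j => aeval P.rep (R j)) ≠ (0 : Fin (n + 1) → L) := by
    intro P hPm h
    obtain ⟨i, hi⟩ : ∃ i, P.rep i ≠ 0 := by
      by_contra h1
      push Not at h1
      exact P.rep_nonzero (funext h1)
    have h1 := hAR P hPm i
    have h2 := aeval_scale (hP.homA i) (0 : L) (0 : Fin (n + 1) → L)
    rw [smul_zero, pow_one, zero_mul] at h2
    rw [h, h2] at h1
    exact mul_ne_zero (hne P hPm).2 hi h1.symm
  refine fin_map L R hG ?_ ?_
  · intro P hPm
    refine ⟨h0 P hPm, fun p hp => ?_, ?_⟩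
    · rw [rep_iff hp.1]
      exact hP.mapR hPm.1 p hp
    · rw [Ne, rep_iff hGf]
      exact (hne P hPm).1
  · intro P hPm P' hPm' c hc
    refine ⟨(aeval P.rep H)⁻¹ * (c * aeval P'.rep H), funext fun i => ?_⟩
    have h2 := hAR P hPm i
    have h3 := hAR P' hPm' i
    rw [hc, aeval_scale (hP.homA i), pow_one, h3] at h2
    rw [Pi.smul_apply, smul_eq_mul]
    have h4 := (hne P hPm).2
    field_simp
    linear_combination -h2

end

theorem transfer_fin [CharZero 𝕜] (L : Type) [Field L] [Algebra 𝕜 L] :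
    Transfer (𝕜 := 𝕜) (fun _ S G => FinOver L S G) := by
  intro n N L' _ _ y z A R H hP
  constructor
  · rintro ⟨G, hG, hGz, hPG⟩
    obtain ⟨h1, h2⟩ := hP.pull_ne hG hGz
    exact ⟨_, h1, h2, fin_pull hP L hG hPG⟩
  · rintro ⟨G, hG, hGy, hPG⟩
    obtain ⟨h1, h2⟩ := hP.push_ne hG hGy
    exact ⟨_, h1, h2, fin_push hP L hG hPG⟩

theorem transfer_all [CharZero 𝕜] : Transfer (𝕜 := 𝕜) (fun _ S G => FinAll S G) := by
  intro n N L' _ _ y z A R H hP
  constructor
  · rintro ⟨G, hG, hGz, hPG⟩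
    obtain ⟨h1, h2⟩ := hP.pull_ne hG hGz
    exact ⟨_, h1, h2, fun L _ _ _ => fin_pull hP L hG (hPG L)⟩
  · rintro ⟨G, hG, hGy, hPG⟩
    obtain ⟨h1, h2⟩ := hP.push_ne hG hGy
    exact ⟨_, h1, h2, fun L _ _ _ => fin_push hP L hG (hPG L)⟩

end Pool.Agent.H911.KR
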