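import Pool.Agent.H911.KR.Curv
import Pool.Agent.H911.KR.Pts
import Pool.Agent.H911.QD.Hyp

/-!
The relative equivalence between entire curves and rational points outside of a closed subset: from
hypersurfaces with a small singular locus to all closed subsets of projective spaces over a number field.
-/

set_option autoImplicit false

namespace Pool.Agent.H911.KR

open MvPolynomial
open scoped LinearAlgebra.Projectivization
open Pool.Agent.N254.SQ (projPoints ProjectiveBLV reduce powerFormOver SmoothOver comp_trdeg)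
open Pool.Agent.H911.QD (cone_trdeg cone_eval surj_inj trdeg_pol)
open Pool.Agent.H911.EM (Dim Forms TangentDim)

section dims

variable {K : Type} [Field K]

theorem dim_le_of {ι : Type} {n m : ℕ} {F : ι → MvPolynomial (Fin (n + 1)) K} (hF : Forms F)
    (h : Dim F m) : DimLe (Set.range F) m := by
  intro L _ _ w y hy hyF
  obtain ⟨a, ha⟩ : ∃ a, y a ≠ 0 := by
    by_contra hcon
    push Not at hcon
    exact hy.ne (funext hcon)
  have h1 := h L ((y a)⁻¹ • y) a (by
    rw [Pi.smul_apply, smul_eq_mul, inv_mul_cancel₀ ha]) (fun i => by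
    rw [aeval_zero_of (hF i) (inv_ne_zero ha)]
    exact hyF _ ⟨i, rfl⟩)
  have hu' : (y a)⁻¹ • y = fun j => y j / y a := by
    funext j
    rw [Pi.smul_apply, smul_eq_mul, div_eq_inv_mul]
  rw [hu', ← comp_trdeg, ← coords_affine _ a ha, hy.gen] at h1
  rw [(IntermediateField.topEquiv (F := K) (E := L)).trdeg_eq, hy.dim] at h1
  exact_mod_cast h1

/-- hypersurfaces of dimension `N - 1` -/
theorem dim_hyp {N : ℕ} {A : MvPolynomial (Fin (N + 1)) K} (hA : IsForm A) (hA0 : A ≠ 0) :
    Dim (fun _ : Unit => A) (N - 1) := by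
  intro Ω _ _ u a hua huA
  obtain ⟨e, he⟩ := hA
  have h2 := cone_trdeg (K := K) u a hua
  by_contra hcon
  push Not at hcon
  have hN : (N : Cardinal) ≤ Algebra.trdeg K (Algebra.adjoin K (Set.range u)) := by
    by_contra h1
    push Not at h1
    obtain ⟨w, hw, hwN⟩ := Pool.Agent.H911.QD.nat_of_lt h1
    rw [hw] at hcon
    have h3 : N - 1 < w := by exact_mod_cast hcon
    omega
  -- the coordinate ring of the cone
  obtain ⟨v, hv⟩ : ∃ v : Fin (N + 1) → Polynomial Ω, v = fun j =>
    (Polynomial.C (u j) * Polynomial.X : Polynomial Ω) := ⟨_, rfl⟩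
  rw [← hv] at h2
  have hsur : Function.Surjective (aeval (Pool.Agent.H911.QR.hatc K v) :
      MvPolynomial (Fin (N + 1)) K →ₐ[K] Algebra.adjoin K (Set.range v)) := by
    rw [← AlgHom.range_eq_top, ← Algebra.adjoin_range_eq_range_aeval,
      Pool.Agent.H911.QR.hatc_adjoin]
  have h3 := surj_inj _ hsur (by rw [trdeg_pol]; exact Cardinal.natCast_lt_aleph0) (by
    rw [trdeg_pol]
    refine le_trans ?_ h2
    push_cast
    exact add_le_add_left hN 1)
  apply hA0
  apply h3
  rw [map_zero]
  apply Subtype.ext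
  rw [Pool.Agent.H911.QR.hatc_aeval, hv, cone_eval u he, huA (), map_zero, zero_mul]
  rfl

end dims

section families

variable {K : Type} [Field K] {ι κ : Type} {n : ℕ}

/-- the points outside of a closed subset given by many forms -/
theorem off_family (L : Type) [Field L] [Algebra K L] (F : ι → MvPolynomial (Fin (n + 1)) K)
    (G : κ → MvPolynomial (Fin (n + 1)) K) :
    (projPoints F L \ projPoints G L).Finite ↔ ∀ k, FinOver L (Set.range F) (G k) := by
  constructor
  · intro h k
    refine Set.Finite.subset h ?_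
    rintro P ⟨hP, hG⟩
    exact ⟨fun i => hP _ ⟨i, rfl⟩, fun h1 => hG (h1 k)⟩
  · intro h
    obtain ⟨T, hT, hTS⟩ := reduce (Set.range G)
    have h1 : (⋃ p ∈ T, offPts L (Set.range F) p).Finite := by
      refine Set.Finite.biUnion (Finset.finite_toSet T) fun p hp => ?_
      obtain ⟨k, rfl⟩ := hT hp
      exact h k
    refine h1.subset ?_
    rintro P ⟨hP, hG⟩
    by_contra hcon
    apply hG
    intro k
    have h2 := hTS L (algebraMap K L) P.rep (fun q hq => by
      by_contra h3
      apply hcon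
      rw [Set.mem_iUnion₂]
      refine ⟨q, hq, ?_, ?_⟩
      · rintro _ ⟨i, rfl⟩
        exact hP i
      · rw [eval_map] at h3
        exact h3) (G k) ⟨k, rfl⟩
    rw [eval_map] at h2
    exact h2

/-- all nonconstant entire curves of `X_σ` lie in `Z_σ` -/
def CurvesIn (σ : K →+* ℂ) (F : ι → MvPolynomial (Fin (n + 1)) K)
    (G : κ → MvPolynomial (Fin (n + 1)) K) : Prop :=
  ∀ f : ℂ → Fin (n + 1) → ℂ, Differentiable ℂ f → (∀ z, f z ≠ 0) →
    (∀ z i, eval₂ σ (f z) (F i) = 0) → (∃ z w, ∀ c : ℂ, f w ≠ c • f z) →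
    ∀ z k, eval₂ σ (f z) (G k) = 0

theorem curves_family (σ : K →+* ℂ) (F : ι → MvPolynomial (Fin (n + 1)) K)
    (G : κ → MvPolynomial (Fin (n + 1)) K) :
    CurvesIn σ F G ↔ ∀ k, @OnCurves K _ σ.toAlgebra n (Set.range F) (G k) := by
  let _ : Algebra K ℂ := σ.toAlgebra
  constructor
  · intro h k f hf hf0 hfS
    by_cases hcon : ∀ z w, ∃ c : ℂ, f w = c • f z
    · exact Or.inl hcon
    · right
      push Not at hcon
      intro z
      exact h f hf hf0 (fun z i => hfS z _ ⟨i, rfl⟩) hcon z k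
  · intro h f hf hf0 hfF hfn z k
    rcases h k f hf hf0 (fun z p hp => by
      obtain ⟨i, rfl⟩ := hp
      exact hfF z i) with h1 | h1
    · obtain ⟨a, b, hab⟩ := hfn
      obtain ⟨c, hc⟩ := h1 a b
      exact absurd hc (hab c)
    · exact h1 z

theorem blv_iff (σ : K →+* ℂ) (F : ι → MvPolynomial (Fin (n + 1)) K)
    (G : κ → MvPolynomial (Fin (n + 1)) K) : ProjectiveBLV σ F G ↔
      ((∀ k, @OnCurves K _ σ.toAlgebra n (Set.range F) (G k)) ↔ ∀ k, FinAll (Set.range F) (G k)) := by
  unfold ProjectiveBLV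
  refine iff_congr (curves_family σ F G) ?_
  constructor
  · intro h k L _ _ _
    exact (off_family L F G).1 (h L) k
  · intro h L _ _ _
    exact (off_family L F G).2 fun k => h k L

end families

section main

variable {K : Type} [Field K] [CharZero K]

/-- a single form -/
theorem range_unit {N : ℕ} (A : MvPolynomial (Fin (N + 1)) K) :
    Set.range (fun _ : Unit => A) = {A} := Set.range_const

/-- the curves on the hypersurface are in the variety -/
theorem base_curves {N k : ℕ} (σ : K →+* ℂ) {A : MvPolynomial (Fin (N + 1)) K} {L : Type} [Field L]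
    [Algebra K L] {z : Fin (N + 1) → L} (hA : PropK k z A) {F : MvPolynomial (Fin (N + 1)) K}
    (hF : F ∈ Eqs K z) : @OnCurves K _ σ.toAlgebra N {A} F := by
  let _ : Algebra K ℂ := σ.toAlgebra
  intro f hf hf0 hfA
  rcases hA.curves σ f hf hf0 (fun w => hfA w A rfl) with h1 | h1
  · exact Or.inl h1
  · exact Or.inr fun w => h1 w F hF

/-- the relative equivalence -/
theorem relative_iff {N m k : ℕ} (h1 : m + 1 ≤ N) (h2 : 2 * m + 1 ≤ N + k) {D₁ : ℕ → ℕ}
    (H : Bounds N k D₁) {E : ℕ → Set ℕ} (hE : ∀ e, ∃ D ∈ E e, D₁ e ≤ D) (σ : K →+* ℂ)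
    (h : ∀ (e D : ℕ) (Q : Fin (N * (2 * N + 1)) → MvPolynomial (Fin (N + 1)) K), D ∈ E e →
      D₁ e ≤ D → (∀ t, (Q t).IsHomogeneous e) → SmallSing k (powerFormOver D Q) →
      ∀ G, IsForm G → ProjectiveBLV σ (fun _ : Unit => powerFormOver D Q) (fun _ : Unit => G))
    {n : ℕ} {ι κ : Type} {F : ι → MvPolynomial (Fin (n + 1)) K} (hF : Forms F)
    (hd : DimLe (Set.range F) m) {G : κ → MvPolynomial (Fin (n + 1)) K} (hG : Forms G) :
    ProjectiveBLV σ F G := by
  let _ : Algebra K ℂ := σ.toAlgebra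
  have hS : ∀ p ∈ Set.range F, IsForm p := by
    rintro _ ⟨i, rfl⟩
    exact hF i
  have h3 : ∀ (e D : ℕ) (Q : Fin (N * (2 * N + 1)) → MvPolynomial (Fin (N + 1)) K), D ∈ E e →
      D₁ e ≤ D → (∀ t, (Q t).IsHomogeneous e) → SmallSing k (powerFormOver D Q) →
      ∀ G, IsForm G → (OnCurves {powerFormOver D Q} G ↔ FinAll {powerFormOver D Q} G) := by
    intro e D Q hDE hD hQ hsm G hG
    have h4 := (blv_iff σ _ _).1 (h e D Q hDE hD hQ hsm G hG)
    rw [range_unit] at h4
    exact ⟨fun h5 => h4.1 (fun _ => h5) (), fun h5 => h4.2 (fun _ => h5) ()⟩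
  rw [blv_iff]
  constructor
  · intro h4 l
    exact compare (I := fun _ S G => OnCurves S G) (J := fun _ S G => FinAll S G) typ_curves typ_all
      transfer_curves transfer_all h1 h2 H hE (fun e D Q a b c d =>
        ⟨fun G hG => (h3 e D Q a b c d G hG).1, fun L _ _ z hz F hF => base_curves σ hz hF⟩)
      hS hd (G l) (hG l) (h4 l)
  · intro h4 l
    exact compare (I := fun _ S G => FinAll S G) (J := fun _ S G => OnCurves S G) typ_all typ_curves
      transfer_all transfer_curves h1 h2 H hE (fun e D Q a b c d =>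
        ⟨fun G hG => (h3 e D Q a b c d G hG).2, fun L _ _ z hz F hF =>
          (h3 e D Q a b c d F hF.1).1 (base_curves σ hz hF)⟩)
      hS hd (G l) (hG l) (h4 l)

/-- one direction, for the points over one field -/
theorem relative_imp {N m k : ℕ} (h1 : m + 1 ≤ N) (h2 : 2 * m + 1 ≤ N + k) {D₁ : ℕ → ℕ}
    (H : Bounds N k D₁) {E : ℕ → Set ℕ} (hE : ∀ e, ∃ D ∈ E e, D₁ e ≤ D) (σ : K →+* ℂ)
    (L : Type) [Field L]
    [Algebra K L]
    (h : ∀ (e D : ℕ) (Q : Fin (N * (2 * N + 1)) → MvPolynomial (Fin (N + 1)) K), D ∈ E e →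
      D₁ e ≤ D → (∀ t, (Q t).IsHomogeneous e) → SmallSing k (powerFormOver D Q) →
      ∀ G, IsForm G → CurvesIn σ (fun _ : Unit => powerFormOver D Q) (fun _ : Unit => G) →
        (projPoints (fun _ : Unit => powerFormOver D Q) L \ projPoints (fun _ : Unit => G) L).Finite)
    {n : ℕ} {ι κ : Type} {F : ι → MvPolynomial (Fin (n + 1)) K} (hF : Forms F)
    (hd : DimLe (Set.range F) m) {G : κ → MvPolynomial (Fin (n + 1)) K} (hG : Forms G)
    (hc : CurvesIn σ F G) : (projPoints F L \ projPoints G L).Finite := by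
  let _ : Algebra K ℂ := σ.toAlgebra
  have hS : ∀ p ∈ Set.range F, IsForm p := by
    rintro _ ⟨i, rfl⟩
    exact hF i
  rw [off_family]
  rw [curves_family] at hc
  intro l
  refine compare (I := fun _ S G => OnCurves S G) (J := fun _ S G => FinOver L S G) typ_curves
      (typ_fin L) transfer_curves (transfer_fin L) h1 h2 H hE (fun e D Q a b c d =>
        ⟨fun G hG hcG => ?_, fun L _ _ z hz F hF => base_curves σ hz hF⟩)
      hS hd (G l) (hG l) (hc l)
  have h4 := h e D Q a b c d G hG ((curves_family σ _ _).2 fun _ => by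
    rw [range_unit]
    exact hcG)
  rw [off_family, range_unit] at h4
  exact h4 ()

end main

end Pool.Agent.H911.KR
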