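import Mathlib

/-!
General linear combinations of generators are primitive elements.
-/

set_option autoImplicit false

namespace Pool.Agent.H911.KR

open MvPolynomial

variable {𝕜 : Type} [Field 𝕜] [CharZero 𝕜]

theorem prim_poly {L : Type} [Field L] [Algebra 𝕜 L] {κ : Type} [Fintype κ] (u : κ → L)
    (hu : IntermediateField.adjoin 𝕜 (Set.range u) = ⊤) (M : IntermediateField 𝕜 L)
    (hM : Algebra.IsAlgebraic M L) : ∃ Δ : MvPolynomial κ 𝕜, Δ ≠ 0 ∧
      ∀ c : κ → 𝕜, eval c Δ ≠ 0 → ∀ M' : IntermediateField 𝕜 L, M ≤ M' →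
        ∑ j, algebraMap 𝕜 L (c j) * u j ∈ M' → M' = ⊤ := by
  classical
  have hL : CharZero L := charZero_of_injective_algebraMap (algebraMap 𝕜 L).injective
  have htop : IntermediateField.adjoin M (Set.range u) = ⊤ := by
    have h1 : (⊤ : IntermediateField 𝕜 L) ≤
        (IntermediateField.adjoin M (Set.range u)).restrictScalars 𝕜 := by
      rw [← hu, IntermediateField.adjoin_le_iff]
      rintro _ ⟨j, rfl⟩
      exact IntermediateField.subset_adjoin M _ ⟨j, rfl⟩
    rw [eq_top_iff]
    intro z _
    exact h1 (show z ∈ (⊤ : IntermediateField 𝕜 L) from trivial)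
  have hfin : FiniteDimensional M (IntermediateField.adjoin M (Set.range u)) :=
    IntermediateField.finiteDimensional_adjoin fun z _ => (hM.isAlgebraic z).isIntegral
  have hfin2 : FiniteDimensional M L := by
    rw [htop] at hfin
    exact (IntermediateField.topEquiv (F := M) (E := L)).toLinearEquiv.finiteDimensional
  have hsep : Algebra.IsSeparable M L := inferInstance
  have hfi : Finite (IntermediateField M L) :=
    (Field.exists_primitive_element_iff_finite_intermediateField M L).1
      ⟨hM, Field.exists_primitive_element M L⟩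
  have hfi2 : Fintype (IntermediateField M L) := Fintype.ofFinite _
  -- the subspaces of coefficient vectors
  let V : IntermediateField M L → Submodule 𝕜 (κ → 𝕜) := fun M' =>
    { carrier := {c | ∑ j, algebraMap 𝕜 L (c j) * u j ∈ M'}
      add_mem' := by
        intro c d hc hd
        have h1 : ∑ j, algebraMap 𝕜 L ((c + d) j) * u j =
            ∑ j, algebraMap 𝕜 L (c j) * u j + ∑ j, algebraMap 𝕜 L (d j) * u j := by
          rw [← Finset.sum_add_distrib]
          refine Finset.sum_congr rfl fun j _ => ?_
          rw [Pi.add_apply, map_add, add_mul]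
        change ∑ j, algebraMap 𝕜 L ((c + d) j) * u j ∈ M'
        rw [h1]
        exact add_mem hc hd
      zero_mem' := by
        change ∑ j, algebraMap 𝕜 L ((0 : κ → 𝕜) j) * u j ∈ M'
        simp
      smul_mem' := by
        intro r c hc
        have h1 : ∑ j, algebraMap 𝕜 L ((r • c) j) * u j =
            (algebraMap 𝕜 L r) * ∑ j, algebraMap 𝕜 L (c j) * u j := by
          rw [Finset.mul_sum]
          refine Finset.sum_congr rfl fun j _ => ?_
          rw [Pi.smul_apply, smul_eq_mul, map_mul, mul_assoc]
        change ∑ j, algebraMap 𝕜 L ((r • c) j) * u j ∈ M'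
        rw [h1]
        refine mul_mem ?_ hc
        have h2 : algebraMap 𝕜 L r = algebraMap M L (algebraMap 𝕜 M r) := rfl
        rw [h2]
        exact M'.algebraMap_mem _ }
  have hsingle : ∀ k, ∑ i, algebraMap 𝕜 L ((Pi.single k 1 : κ → 𝕜) i) * u i = u k := by
    intro k
    rw [Finset.sum_eq_single k]
    · simp
    · intro i _ hi
      simp [Pi.single_eq_of_ne hi]
    · intro h
      exact absurd (Finset.mem_univ k) h
  have hpoly : ∀ M' : IntermediateField M L, ∃ Δ : MvPolynomial κ 𝕜, Δ ≠ 0 ∧
      (M' ≠ ⊤ → ∀ c : κ → 𝕜, eval c Δ ≠ 0 → ∑ j, algebraMap 𝕜 L (c j) * u j ∉ M') := by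
    intro M'
    by_cases hM' : M' = ⊤
    · exact ⟨1, one_ne_zero, fun h => absurd hM' h⟩
    · have hlt : V M' < ⊤ := by
        rw [lt_top_iff_ne_top]
        intro h
        apply hM'
        rw [eq_top_iff, ← htop, IntermediateField.adjoin_le_iff]
        rintro _ ⟨k, rfl⟩
        have h1 : (Pi.single k 1 : κ → 𝕜) ∈ V M' := by
          rw [h]
          trivial
        have h2 : ∑ i, algebraMap 𝕜 L ((Pi.single k 1 : κ → 𝕜) i) * u i ∈ M' := h1
        rw [hsingle] at h2
        exact h2
      obtain ⟨f, hf0, hf⟩ := Submodule.exists_le_ker_of_lt_top _ hlt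
      have hev : ∀ c, eval c (∑ k, C (f (Pi.single k 1)) * X k : MvPolynomial κ 𝕜) = f c := by
        intro c
        rw [map_sum]
        conv_rhs => rw [← Finset.univ_sum_single c, map_sum]
        refine Finset.sum_congr rfl fun k _ => ?_
        rw [map_mul, eval_C, eval_X]
        have h1 : (Pi.single k (c k) : κ → 𝕜) = c k • Pi.single k 1 := by
          rw [← Pi.single_smul, smul_eq_mul, mul_one]
        rw [h1, map_smul, smul_eq_mul, mul_comm]
      refine ⟨∑ k, C (f (Pi.single k 1)) * X k, ?_, fun _ c hc h1 => ?_⟩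
      · intro h
        apply hf0
        ext c
        rw [h] at hev
        have := hev (Pi.single c 1)
        rw [map_zero] at this
        simpa using this.symm
      · rw [hev] at hc
        exact hc (hf h1)
  choose Δ hΔ hD using hpoly
  refine ⟨∏ M', Δ M', Finset.prod_ne_zero_iff.2 fun M' _ => hΔ M', ?_⟩
  intro c hc M' hMM' hmem
  by_contra hne
  rw [map_prod, Finset.prod_ne_zero_iff] at hc
  refine hD (IntermediateField.extendScalars hMM') ?_ c (hc _ (Finset.mem_univ _)) hmem
  intro h
  apply hne
  rw [eq_top_iff]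
  intro z _
  have h1 : z ∈ IntermediateField.extendScalars hMM' := by
    rw [h]
    trivial
  exact h1

end Pool.Agent.H911.KR
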