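import Pool.Agent.H911.KR.Val
import Pool.Agent.H911.KR.Gen
import Pool.Agent.H911.KR.Prim

/-!
Finite birational linear projections.
-/

set_option autoImplicit false

namespace Pool.Agent.H911.KR

open MvPolynomial
open Pool.Agent.W602.GT (coords)

variable {𝕜 : Type} [Field 𝕜] [CharZero 𝕜]

/-- the linear forms `A i` have no common zeros on the variety -/
def Regular {n M : ℕ} {L : Type} [Field L] [Algebra 𝕜 L] (y : Fin (n + 1) → L)
    (A : Fin (M + 1) → MvPolynomial (Fin (n + 1)) 𝕜) : Prop :=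
  ∀ (Ω : Type) [Field Ω] [Algebra 𝕜 Ω] (x : Fin (n + 1) → Ω), x ≠ 0 →
    (∀ p ∈ Eqs 𝕜 y, aeval x p = 0) → ∃ i, aeval x (A i) ≠ 0

/-- a linear projection which is regular on the variety and birational onto the image -/
structure Mdl {n M : ℕ} {L : Type} [Field L] [Algebra 𝕜 L] (y : Fin (n + 1) → L)
    (A : Fin (M + 1) → MvPolynomial (Fin (n + 1)) 𝕜) : Prop where
  hom : ∀ i, (A i).IsHomogeneous 1
  reg : Regular y A
  bir : coords 𝕜 (fun i => aeval y (A i)) = ⊤

/-- a general point of the coefficients -/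
theorem exists_val {σ : Type} {Δ : MvPolynomial σ 𝕜} (h : Δ ≠ 0) :
    ∃ c : σ → 𝕜, eval c Δ ≠ 0 := by
  by_contra hcon
  push Not at hcon
  exact h (MvPolynomial.funext fun c => by rw [hcon c, map_zero])

theorem lin_hom {n : ℕ} {κ : Type} [Fintype κ] (c : κ → 𝕜)
    {h : κ → MvPolynomial (Fin (n + 1)) 𝕜} {d : ℕ} (hh : ∀ k, (h k).IsHomogeneous d) :
    (∑ k, C (c k) * h k).IsHomogeneous d := by
  refine IsHomogeneous.sum _ _ _ fun k _ => ?_
  have h2 := (isHomogeneous_C (Fin (n + 1)) (c k)).mul (hh k)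
  rwa [zero_add] at h2

theorem lin_eval {n : ℕ} {κ : Type} [Fintype κ] (c : κ → 𝕜)
    (h : κ → MvPolynomial (Fin (n + 1)) 𝕜) {Ω : Type} [CommRing Ω] [Algebra 𝕜 Ω]
    (x : Fin (n + 1) → Ω) :
    aeval x (∑ k, C (c k) * h k) = ∑ k, algebraMap 𝕜 Ω (c k) * aeval x (h k) := by
  rw [map_sum]
  refine Finset.sum_congr rfl fun k _ => ?_
  rw [map_mul, aeval_C]

section

variable {n : ℕ} {L : Type} [Field L] [Algebra 𝕜 L] {w : ℕ} {y : Fin (n + 1) → L}

/-- the ratios of the coordinates of the generic point with another element generate -/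
theorem adjoin_top (hy : Gen 𝕜 L w y) {t : L} (ht : t ≠ 0) :
    IntermediateField.adjoin 𝕜 (Set.range fun j => y j / t) = ⊤ := by
  obtain ⟨b, hb⟩ : ∃ b, y b ≠ 0 := by
    by_contra hcon
    push Not at hcon
    exact hy.ne (funext hcon)
  rw [eq_top_iff, ← hy.gen, coords_affine y b hb, IntermediateField.adjoin_le_iff]
  rintro _ ⟨j, rfl⟩
  have h1 : ∀ j, y j / t ∈ IntermediateField.adjoin 𝕜 (Set.range fun j => y j / t) :=
    fun j => IntermediateField.subset_adjoin 𝕜 _ ⟨j, rfl⟩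
  have h2 : y j / y b = (y j / t) / (y b / t) := by
    rw [div_div_div_cancel_right₀ ht]
  simp only
  rw [h2]
  exact div_mem (h1 j) (h1 b)

/-- one more linear form makes a regular projection birational -/
theorem mdl_snoc (hy : Gen 𝕜 L w y) {r : ℕ} (A : Fin (r + 1) → MvPolynomial (Fin (n + 1)) 𝕜)
    (hA : ∀ i, (A i).IsHomogeneous 1) (hreg : Regular y A) :
    ∃ θ : MvPolynomial (Fin (n + 1)) 𝕜,
      Mdl y (Fin.snoc (α := fun _ => MvPolynomial (Fin (n + 1)) 𝕜) A θ :
        Fin (r + 1 + 1) → MvPolynomial (Fin (n + 1)) 𝕜) := by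
  classical
  obtain ⟨a, ha⟩ := hreg L y hy.ne (fun p hp => hp.2)
  obtain ⟨M, hM⟩ : ∃ M : IntermediateField 𝕜 L, M = IntermediateField.adjoin 𝕜
    (Set.range fun i => aeval y (A i) / aeval y (A a)) := ⟨_, rfl⟩
  have halg : Algebra.IsAlgebraic M L := by
    refine alg_of_reg y hy.gen hy.ne A hA hreg a ha M fun i => ?_
    rw [hM]
    exact IntermediateField.subset_adjoin 𝕜 _ ⟨i, rfl⟩
  obtain ⟨Δ, hΔ, hD⟩ := prim_poly (fun j => y j / aeval y (A a)) (adjoin_top hy ha) M halg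
  obtain ⟨c, hc⟩ := exists_val hΔ
  refine ⟨∑ k, C (c k) * X k, ⟨?_, ?_, ?_⟩⟩
  · intro i
    refine Fin.lastCases ?_ (fun i => ?_) i
    · rw [Fin.snoc_last]
      exact lin_hom c fun k => isHomogeneous_X 𝕜 k
    · rw [Fin.snoc_castSucc]
      exact hA i
  · intro Ω _ _ x hx hxE
    obtain ⟨i, hi⟩ := hreg Ω x hx hxE
    exact ⟨i.castSucc, by rw [Fin.snoc_castSucc]; exact hi⟩
  · obtain ⟨z, hz⟩ : ∃ z : Fin (r + 1 + 1) → L, z = fun i => aeval y
      ((Fin.snoc (α := fun _ => MvPolynomial (Fin (n + 1)) 𝕜) A (∑ k, C (c k) * X k) :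
        Fin (r + 1 + 1) → MvPolynomial (Fin (n + 1)) 𝕜) i) := ⟨_, rfl⟩
    have hz1 : ∀ i : Fin (r + 1), z i.castSucc = aeval y (A i) := by
      intro i
      rw [hz]
      simp only
      rw [Fin.snoc_castSucc]
    have hz2 : z (Fin.last _) = ∑ k, algebraMap 𝕜 L (c k) * y k := by
      rw [hz]
      simp only
      rw [Fin.snoc_last, lin_eval]
      refine Finset.sum_congr rfl fun k _ => ?_
      rw [aeval_X]
    rw [← hz]
    have hza : z a.castSucc ≠ 0 := by
      rw [hz1]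
      exact ha
    apply hD c hc
    · rw [hM, IntermediateField.adjoin_le_iff]
      rintro _ ⟨i, rfl⟩
      simp only
      rw [← hz1, ← hz1]
      exact IntermediateField.subset_adjoin 𝕜 _ ⟨_, _, hza, rfl⟩
    · have h1 : ∑ j, algebraMap 𝕜 L (c j) * (y j / aeval y (A a)) =
          z (Fin.last _) / z a.castSucc := by
        rw [hz1, hz2, Finset.sum_div]
        refine Finset.sum_congr rfl fun j _ => ?_
        rw [mul_div_assoc]
      rw [h1]
      exact IntermediateField.subset_adjoin 𝕜 _ ⟨_, _, hza, rfl⟩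

/-- every projective variety has a finite birational projection to a hypersurface -/
theorem mdl_proj (hy : Gen 𝕜 L w y) :
    ∃ A : Fin (w + 1 + 1) → MvPolynomial (Fin (n + 1)) 𝕜, Mdl y A := by
  obtain ⟨Δ, hΔ, hD⟩ := gen_forms (Eqs 𝕜 y) (fun p hp => hp.1) (w + 1)
    (fun Ω _ _ x a ha hx => (pt_trdeg hy a x ha hx).trans_lt (by exact_mod_cast Nat.lt_succ_self w))
    (X : Fin (n + 1) → MvPolynomial (Fin (n + 1)) 𝕜) 1 (fun k => isHomogeneous_X 𝕜 k)
  obtain ⟨c, hc⟩ := exists_val hΔ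
  obtain ⟨θ, hθ⟩ := mdl_snoc hy (fun i : Fin (w + 1) => ∑ k, C (c (i, k)) * X k)
    (fun i => lin_hom _ fun k => isHomogeneous_X 𝕜 k) (by
      intro Ω _ _ x hx hxE
      by_contra hcon
      push Not at hcon
      apply hx
      funext k
      have h1 := hD c hc Ω x hx hxE (fun i => by
        have := hcon i
        rwa [lin_eval] at this) k
      rwa [aeval_X] at h1)
  exact ⟨_, hθ⟩

/-- every affine variety has a finite birational projection to a hypersurface of the affine space -/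
theorem mdl_affine (hy : Gen 𝕜 L w y) (hy0 : y 0 ≠ 0) :
    ∃ A : Fin (w + 1 + 1) → MvPolynomial (Fin (n + 1)) 𝕜, Mdl y A ∧ A 0 = X 0 := by
  obtain ⟨Δ, hΔ, hD⟩ := gen_forms (insert (X 0) (Eqs 𝕜 y)) (fun p hp => by
      rcases Set.mem_insert_iff.1 hp with h | h
      · rw [h]
        exact ⟨1, isHomogeneous_X 𝕜 0⟩
      · exact h.1) w
    (fun Ω _ _ x a ha hx => pt_trdeg_lt hy a x ha
      (fun p hp => hx p (Set.mem_insert_of_mem _ hp)) ⟨1, isHomogeneous_X 𝕜 0⟩
      (by rw [aeval_X]; exact hy0) (hx _ (Set.mem_insert _ _)))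
    (X : Fin (n + 1) → MvPolynomial (Fin (n + 1)) 𝕜) 1 (fun k => isHomogeneous_X 𝕜 k)
  obtain ⟨c, hc⟩ := exists_val hΔ
  obtain ⟨θ, hθ⟩ := mdl_snoc hy (Fin.cons (X 0) fun i : Fin w => ∑ k, C (c (i, k)) * X k)
    (fun i => by
      refine Fin.cases ?_ (fun i => ?_) i
      · rw [Fin.cons_zero]
        exact isHomogeneous_X 𝕜 0
      · rw [Fin.cons_succ]
        exact lin_hom _ fun k => isHomogeneous_X 𝕜 k) (by
      intro Ω _ _ x hx hxE
      by_contra hcon
      push Not at hcon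
      apply hx
      funext k
      have h1 := hD c hc Ω x hx (fun p hp => by
        rcases Set.mem_insert_iff.1 hp with h | h
        · rw [h]
          have := hcon 0
          rwa [Fin.cons_zero] at this
        · exact hxE p h) (fun i => by
        have := hcon i.succ
        rwa [Fin.cons_succ, lin_eval] at this) k
      rwa [aeval_X] at h1)
  refine ⟨_, hθ, ?_⟩
  have h0 : (0 : Fin (w + 1 + 1)) = (0 : Fin (w + 1)).castSucc := rfl
  rw [h0, Fin.snoc_castSucc, Fin.cons_zero]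

end

end Pool.Agent.H911.KR
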